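import Mathlib

/-!
Definitions for the intersecting cover parameter `kc_r(t)` of `r`-partite hypergraphs.
-/

namespace Pool.Agent.helper36.KC

/-- An edge of an `r`-partite `r`-graph with parts `V 0, …, V (r - 1)`: one vertex of each part. -/
abbrev Edge {r : ℕ} (V : Fin r → Type) := ∀ i : Fin r, V i

/-- Two edges meet if they have a common vertex. -/
def Meets {r : ℕ} {V : Fin r → Type} (e f : Edge V) : Prop := ∃ i, e i = f i

/-- A set `C` of vertices (a vertex is a pair of a part and an element of it) is a cover of the
hypergraph with edge set `H` if it contains a vertex of every edge. -/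
def IsCover {r : ℕ} {V : Fin r → Type} (H : Set (Edge V)) (C : Finset (Σ i, V i)) : Prop :=
  ∀ e ∈ H, ∃ i, (⟨i, e i⟩ : Σ i, V i) ∈ C

/-- The cover number. -/
noncomputable def coverNumber {r : ℕ} {V : Fin r → Type} (H : Set (Edge V)) : ℕ :=
  sInf {n | ∃ C : Finset (Σ i, V i), IsCover H C ∧ C.card = n}

/-- `H` has intersecting edge-covers for `k` edges: to every set `S` of at most `k` edges one can
assign an edge `c S` of `H` meeting every edge of `S`, such that all the assigned edges pairwise
meet. -/
def HasIntersectingCovers {r : ℕ} {V : Fin r → Type} (H : Set (Edge V)) (k : ℕ) : Prop :=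
  ∃ c : Finset (Edge V) → Edge V,
    (∀ S : Finset (Edge V), (∀ f ∈ S, f ∈ H) → S.card ≤ k → c S ∈ H ∧ ∀ f ∈ S, Meets (c S) f) ∧
    ∀ S S' : Finset (Edge V), (∀ f ∈ S, f ∈ H) → S.card ≤ k → (∀ f ∈ S', f ∈ H) → S'.card ≤ k →
      Meets (c S) (c S')

/-- Every finite `r`-partite `r`-graph with intersecting edge-covers for `k` edges has cover number
at most `t`. -/
def Forces (r t k : ℕ) : Prop :=
  ∀ (V : Fin r → Type) [∀ i, Finite (V i)] (H : Set (Edge V)),
    HasIntersectingCovers H k → coverNumber H ≤ t

/-- The parameter `kc_r(t)`: the least positive `k` such that every `r`-partite `r`-graph with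
intersecting edge-covers for `k` edges has cover number at most `t`. -/
noncomputable def kc (r t : ℕ) : ℕ := sInf {k | 1 ≤ k ∧ Forces r t k}

end Pool.Agent.helper36.KC
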