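import Mathlib
import Pool.Agent.helper36.KCDefs

/-!
Upper bound: `kc r r ≤ 2 ^ (r - 1)`.
-/

namespace Pool.Agent.helper36.KC

open Finset

/-- the moment vector of a point -/
def momVec {r : ℕ} (a : Fin r → ℚ) : Finset (Fin r) → ℚ := fun s => ∏ i ∈ s, a i

/-- the pairing of a point with a vector -/
def pairing {r : ℕ} (b : Fin r → ℚ) (v : Finset (Fin r) → ℚ) : ℚ :=
  ∑ s : Finset (Fin r), v s * ∏ i ∈ univ \ s, (- b i)

lemma pairing_momVec {r : ℕ} (a b : Fin r → ℚ) :
    pairing b (momVec a) = ∏ i, (a i - b i) := by
  unfold pairing momVec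
  simp only [sub_eq_add_neg]
  rw [Finset.prod_add]
  simp

lemma pairing_eq_zero {r : ℕ} {a b : Fin r → ℚ} (h : ∃ i, a i = b i) :
    pairing b (momVec a) = 0 := by
  obtain ⟨i, hi⟩ := h
  rw [pairing_momVec]
  exact Finset.prod_eq_zero (mem_univ i) (by rw [hi, sub_self])

lemma pairing_ne_zero {r : ℕ} {a b : Fin r → ℚ} (h : ∀ i, a i ≠ b i) :
    pairing b (momVec a) ≠ 0 := by
  rw [pairing_momVec, Finset.prod_ne_zero_iff]
  intro i _
  exact sub_ne_zero.2 (h i)

lemma pairing_sum {r : ℕ} {ι : Type*} (s : Finset ι) (b : Fin r → ℚ)
    (f : ι → Finset (Fin r) → ℚ) (α : ι → ℚ) :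
    pairing b (∑ i ∈ s, α i • f i) = ∑ i ∈ s, α i * pairing b (f i) := by
  unfold pairing
  simp only [Finset.sum_apply, Pi.smul_apply, smul_eq_mul, Finset.sum_mul, Finset.mul_sum]
  rw [Finset.sum_comm]
  refine Finset.sum_congr rfl fun i _ => Finset.sum_congr rfl fun t _ => ?_
  ring

lemma pairing_add {r : ℕ} (b : Fin r → ℚ) (v w : Finset (Fin r) → ℚ) :
    pairing b (v + w) = pairing b v + pairing b w := by
  unfold pairing
  simp only [Pi.add_apply, add_mul, Finset.sum_add_distrib]

/-- Skew two family bound in a grid. -/
lemma skew_bound {r n : ℕ} (A B : Fin n → Fin r → ℚ)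
    (hAA : ∀ i j, ∃ l, A i l = A j l)
    (hAB : ∀ i j, i < j → ∃ l, A j l = B i l)
    (hne : ∀ i l, A i l ≠ B i l) : 2 * n ≤ 2 ^ r := by
  have hli : LinearIndependent ℚ
      (Sum.elim (fun i : Fin n => momVec (A i)) (fun i : Fin n => momVec (B i))) := by
    rw [Fintype.linearIndependent_iff]
    intro g hg
    rw [Fintype.sum_sum_type] at hg
    simp only [Sum.elim_inl, Sum.elim_inr] at hg
    have key : ∀ b : Fin r → ℚ,
        (∑ i, g (Sum.inl i) * pairing b (momVec (A i))) +
          (∑ i, g (Sum.inr i) * pairing b (momVec (B i))) = 0 := by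
      intro b
      have h := congrArg (pairing b) hg
      rw [pairing_add, pairing_sum, pairing_sum] at h
      rw [h]
      unfold pairing
      simp
    have hB : ∀ m : ℕ, ∀ i : Fin n, n ≤ i.val + m → g (Sum.inr i) = 0 := by
      intro m
      induction m with
      | zero => intro i hi; exact absurd i.isLt (by omega)
      | succ m ih =>
        intro i hi
        have h := key (A i)
        rw [Finset.sum_eq_zero (s := univ) (f := fun j => g (Sum.inl j) * _), zero_add] at h
        · rw [Finset.sum_eq_single i] at h
          · rcases mul_eq_zero.1 h with h | h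
            · exact h
            · exact absurd h (pairing_ne_zero fun l => (hne i l).symm)
          · intro j _ hj
            rcases lt_or_gt_of_ne hj with hlt | hgt
            · obtain ⟨l, hl⟩ := hAB j i hlt
              rw [pairing_eq_zero ⟨l, hl.symm⟩, mul_zero]
            · rw [ih j (by have : i.val < j.val := hgt
                           omega), zero_mul]
          · intro h'
            exact absurd (mem_univ i) h'
        · intro j _
          rw [pairing_eq_zero (hAA j i), mul_zero]
    have hB' : ∀ i, g (Sum.inr i) = 0 := fun i => hB n i (by omega)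
    have hA : ∀ m : ℕ, ∀ i : Fin n, i.val < m → g (Sum.inl i) = 0 := by
      intro m
      induction m with
      | zero => intro i hi; omega
      | succ m ih =>
        intro i hi
        have h := key (B i)
        rw [Finset.sum_eq_zero (s := univ) (f := fun j => g (Sum.inr j) * _), add_zero] at h
        · rw [Finset.sum_eq_single i] at h
          · rcases mul_eq_zero.1 h with h | h
            · exact h
            · exact absurd h (pairing_ne_zero fun l => hne i l)
          · intro j _ hj
            rcases lt_or_gt_of_ne hj with hlt | hgt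
            · rw [ih j (by have : j.val < i.val := hlt
                           omega), zero_mul]
            · obtain ⟨l, hl⟩ := hAB i j hgt
              rw [pairing_eq_zero ⟨l, hl⟩, mul_zero]
          · intro h'
            exact absurd (mem_univ i) h'
        · intro j _
          rw [hB' j, zero_mul]
    intro i
    rcases i with i | i
    · exact hA n i i.isLt
    · exact hB' i
  have hcard := hli.fintype_card_le_finrank
  rw [Fintype.card_sum, Fintype.card_fin, Module.finrank_fintype_fun_eq_card,
    Fintype.card_finset, Fintype.card_fin] at hcard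
  omega

/-- The sequence of edge sets in the greedy argument. -/
def chainSet {E : Type*} [DecidableEq E] (c : Finset E → E) (b : E → E) : ℕ → Finset E
  | 0 => ∅
  | n + 1 => insert (b (c (chainSet c b n))) (chainSet c b n)

theorem forces_upper (r : ℕ) (hr : 1 ≤ r) : Forces r r (2 ^ (r - 1)) := by
  classical
  intro V _ H hH
  obtain ⟨c, hc1, hc2⟩ := hH
  by_contra hcon
  push Not at hcon
  -- every edge is missed by some edge of `H`
  have hmiss : ∀ a : Edge V, ∃ e ∈ H, ∀ i, a i ≠ e i := by
    intro a
    by_contra hno
    push Not at hno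
    have hcov : IsCover H (univ.image fun i : Fin r => (⟨i, a i⟩ : Σ i, V i)) := by
      intro e he
      obtain ⟨i, hi⟩ := hno e he
      refine ⟨i, ?_⟩
      rw [← hi]
      exact mem_image_of_mem _ (mem_univ i)
    have hle : coverNumber H ≤ (univ.image fun i : Fin r => (⟨i, a i⟩ : Σ i, V i)).card :=
      Nat.sInf_le ⟨_, hcov, rfl⟩
    have hle2 : (univ.image fun i : Fin r => (⟨i, a i⟩ : Σ i, V i)).card ≤ r := by
      refine card_image_le.trans ?_
      simp
    omega
  choose b hbH hb using hmiss
  set S := chainSet c b with hS
  have hSH : ∀ n, ∀ f ∈ S n, f ∈ H := by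
    intro n
    induction n with
    | zero => intro f hf; simp [hS, chainSet] at hf
    | succ n ih =>
      intro f hf
      simp only [hS, chainSet, mem_insert] at hf
      rcases hf with hf | hf
      · rw [hf]; exact hbH _
      · exact ih f hf
  have hScard : ∀ n, (S n).card ≤ n := by
    intro n
    induction n with
    | zero => simp [hS, chainSet]
    | succ n ih =>
      have h1 : (S (n + 1)).card ≤ (S n).card + 1 := by
        simp only [hS, chainSet]
        exact card_insert_le _ _
      omega
  have hmem : ∀ m n, m < n → b (c (S m)) ∈ S n := by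
    intro m n hmn
    induction n with
    | zero => omega
    | succ n ih =>
      rcases Nat.lt_succ_iff_lt_or_eq.1 hmn with h | h
      · have := ih h
        simp only [hS, chainSet, mem_insert]
        right
        exact this
      · subst h
        simp only [hS, chainSet, mem_insert]
        left
        trivial
  -- embed the parts in the rationals
  have hemb : ∀ i, ∃ g : V i → ℚ, Function.Injective g := by
    intro i
    obtain ⟨n, ⟨e⟩⟩ := Finite.exists_equiv_fin (V i)
    refine ⟨fun v => ((e v : ℕ) : ℚ), fun x y hxy => ?_⟩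
    have hxy' : ((e x : ℕ) : ℚ) = ((e y : ℕ) : ℚ) := hxy
    have h1 : (e x : ℕ) = (e y : ℕ) := by exact_mod_cast hxy'
    exact e.injective (Fin.ext h1)
  choose g hg using hemb
  have hbound := skew_bound (n := 2 ^ (r - 1) + 1) (r := r)
    (fun i l => g l (c (S i.val) l)) (fun i l => g l (b (c (S i.val)) l))
    (by
      intro i j
      obtain ⟨l, hl⟩ := hc2 (S i.val) (S j.val) (hSH _)
        ((hScard _).trans (Nat.lt_succ_iff.1 i.isLt)) (hSH _)
        ((hScard _).trans (Nat.lt_succ_iff.1 j.isLt))
      exact ⟨l, by simp only [hl]⟩)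
    (by
      intro i j hij
      obtain ⟨l, hl⟩ := (hc1 (S j.val) (hSH _)
        ((hScard _).trans (Nat.lt_succ_iff.1 j.isLt))).2 _ (hmem i.val j.val hij)
      exact ⟨l, by simp only [hl]⟩)
    (by
      intro i l h
      exact hb (c (S i.val)) l (hg l h))
  have h2 : 2 ^ r = 2 * 2 ^ (r - 1) := by
    conv_lhs => rw [show r = (r - 1) + 1 by omega]
    rw [pow_succ]; ring
  omega

end Pool.Agent.helper36.KC
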