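import Mathlib
import Pool.Agent.helper36.KCDefs
import Pool.Agent.helper36.KCUpper

/-!
Lower bounds for `kc r r`.
-/

namespace Pool.Agent.helper36.KC

open Finset

/-- `B` misses the word of the zero set `Z`. -/
def Misses {r : ℕ} (B : Fin r → Option Bool) (Z : Finset (Fin r)) : Prop :=
  ∀ i, (i ∈ Z → B i ≠ some false) ∧ (i ∉ Z → B i ≠ some true)

/-- A light family of zero sets: every pair `X, Y` of small sets is avoided by a partial word
missing at most one member. -/
def Light {r : ℕ} (F : Finset (Finset (Fin r))) : Prop :=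
  ∀ X Y : Finset (Fin r), X.card + Y.card ≤ r → ∃ B : Fin r → Option Bool,
    (∀ i ∈ X, B i ≠ some false) ∧ (∀ i ∈ Y, B i ≠ some true) ∧
    ∀ Z ∈ F, ∀ Z' ∈ F, Misses B Z → Misses B Z' → Z = Z'

/-- the word with zero set `Z` -/
def word {r : ℕ} (Z : Finset (Fin r)) : Edge (fun _ : Fin r => Bool ⊕ Fin (r + 1)) :=
  fun i => Sum.inl (decide (i ∉ Z))

/-- the hypergraph of all edges missing at most one member of the family -/
def lightGraph {r : ℕ} (F : Finset (Finset (Fin r))) :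
    Set (Edge (fun _ : Fin r => Bool ⊕ Fin (r + 1))) :=
  {e | ∀ Z ∈ F, ∀ Z' ∈ F, ¬ Meets e (word Z) → ¬ Meets e (word Z') → Z = Z'}

lemma word_meets {r : ℕ} {Z Z' : Finset (Fin r)} (h : ∃ i, i ∈ Z ↔ i ∈ Z') :
    Meets (word Z) (word Z') := by
  obtain ⟨i, hi⟩ := h
  refine ⟨i, ?_⟩
  unfold word
  simp only [hi]

lemma lightGraph_covers {r : ℕ} (F : Finset (Finset (Fin r)))
    (hF : ∀ Z ∈ F, ∀ Z' ∈ F, ∃ i, i ∈ Z ↔ i ∈ Z') {k : ℕ} (hk : k < F.card) :
    HasIntersectingCovers (lightGraph F) k := by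
  classical
  have hex : ∀ S : Finset (Edge (fun _ : Fin r => Bool ⊕ Fin (r + 1))),
      ∃ Z ∈ F, (∀ f ∈ S, f ∈ lightGraph F) → S.card ≤ k → ∀ f ∈ S, Meets (word Z) f := by
    intro S
    by_cases hS : (∀ f ∈ S, f ∈ lightGraph F) ∧ S.card ≤ k
    · by_contra hno
      push Not at hno
      have hno' : ∀ Z ∈ F, ∃ f ∈ S, ¬ Meets (word Z) f := fun Z hZ => (hno Z hZ).2.2
      choose! g hg hg2 using hno'
      have hle : F.card ≤ S.card := by
        refine card_le_card_of_injOn g (fun Z hZ => hg Z hZ) ?_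
        intro Z hZ Z' hZ' hgg
        refine hS.1 (g Z) (hg Z hZ) Z hZ Z' hZ' ?_ ?_
        · rintro ⟨i, hi⟩
          exact hg2 Z hZ ⟨i, hi.symm⟩
        · rintro ⟨i, hi⟩
          exact hg2 Z' hZ' ⟨i, by rw [← hgg]; exact hi.symm⟩
      have := hS.2
      omega
    · have hne : F.Nonempty := by
        rw [← card_pos]; omega
      obtain ⟨Z, hZ⟩ := hne
      exact ⟨Z, hZ, fun h1 h2 => absurd ⟨h1, h2⟩ hS⟩
  choose z hz1 hz2 using hex
  refine ⟨fun S => word (z S), ?_, ?_⟩
  · intro S hS hc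
    refine ⟨?_, hz2 S hS hc⟩
    intro Z hZ Z' _ hn _
    exact absurd (word_meets (hF _ (hz1 S) Z hZ)) hn
  · intro S S' _ _ _ _
    exact word_meets (hF _ (hz1 S) _ (hz1 S'))

lemma lightGraph_cover_number {r : ℕ} (hr : 1 ≤ r) (F : Finset (Finset (Fin r)))
    (hF : Light F) : r < coverNumber (lightGraph F) := by
  classical
  -- the set of cover sizes is nonempty
  have hne : {n | ∃ C : Finset (Σ _ : Fin r, Bool ⊕ Fin (r + 1)),
      IsCover (lightGraph F) C ∧ C.card = n}.Nonempty := by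
    refine ⟨_, univ, ?_, rfl⟩
    intro e _
    exact ⟨⟨0, by omega⟩, mem_univ _⟩
  obtain ⟨C, hC, hcard⟩ := Nat.sInf_mem hne
  have hcard' : C.card = coverNumber (lightGraph F) := hcard
  rw [← hcard']
  by_contra hle
  push Not at hle
  set X : Finset (Fin r) := univ.filter fun i => (⟨i, Sum.inl false⟩ : Σ _ : Fin r, Bool ⊕ Fin (r + 1)) ∈ C with hX
  set Y : Finset (Fin r) := univ.filter fun i => (⟨i, Sum.inl true⟩ : Σ _ : Fin r, Bool ⊕ Fin (r + 1)) ∈ C with hY
  have hXY : X.card + Y.card ≤ r := by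
    have h1 : X.card + Y.card = (X.disjSum Y).card := by rw [card_disjSum]
    rw [h1]
    refine le_trans ?_ hle
    refine card_le_card_of_injOn
      (fun s => match s with
        | Sum.inl i => (⟨i, Sum.inl false⟩ : Σ _ : Fin r, Bool ⊕ Fin (r + 1))
        | Sum.inr i => ⟨i, Sum.inl true⟩) ?_ ?_
    · intro s hs
      rcases s with i | i
      · have := inl_mem_disjSum.1 hs
        simpa [hX] using this
      · have := inr_mem_disjSum.1 hs
        simpa [hY] using this
    · intro s _ s' _ hss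
      rcases s with i | i <;> rcases s' with j | j <;> simp_all
  obtain ⟨B, hBX, hBY, hB⟩ := hF X Y hXY
  -- fresh elements
  have hfresh : ∀ i : Fin r, ∃ j : Fin (r + 1),
      (⟨i, Sum.inr j⟩ : Σ _ : Fin r, Bool ⊕ Fin (r + 1)) ∉ C := by
    intro i
    by_contra hno
    push Not at hno
    have : (univ : Finset (Fin (r + 1))).card ≤ C.card := by
      refine card_le_card_of_injOn
        (fun j => (⟨i, Sum.inr j⟩ : Σ _ : Fin r, Bool ⊕ Fin (r + 1))) (fun j _ => hno j) ?_
      intro j _ j' _ hjj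
      simpa using hjj
    simp at this
    omega
  choose φ hφ using hfresh
  let e : Edge (fun _ : Fin r => Bool ⊕ Fin (r + 1)) := fun i =>
    match B i with
    | none => Sum.inr (φ i)
    | some b => Sum.inl b
  have hmeet : ∀ Z : Finset (Fin r), ¬ Meets e (word Z) → Misses B Z := by
    intro Z hn i
    constructor
    · intro hi hBi
      refine hn ⟨i, ?_⟩
      simp only [e, hBi, word]
      simp [hi]
    · intro hi hBi
      refine hn ⟨i, ?_⟩
      simp only [e, hBi, word]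
      simp [hi]
  have heH : e ∈ lightGraph F := by
    intro Z hZ Z' hZ' h1 h2
    exact hB Z hZ Z' hZ' (hmeet Z h1) (hmeet Z' h2)
  obtain ⟨i, hi⟩ := hC e heH
  rcases hBi : B i with _ | b
  · have : e i = Sum.inr (φ i) := by simp only [e, hBi]
    rw [this] at hi
    exact hφ i hi
  · have he : e i = Sum.inl b := by simp only [e, hBi]
    rw [he] at hi
    cases b with
    | false => exact hBX i (by simp [hX, hi]) hBi
    | true => exact hBY i (by simp [hY, hi]) hBi

theorem not_forces {r : ℕ} (hr : 1 ≤ r) (F : Finset (Finset (Fin r)))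
    (hF : ∀ Z ∈ F, ∀ Z' ∈ F, ∃ i, i ∈ Z ↔ i ∈ Z') (hL : Light F) {k : ℕ} (hk : k < F.card) :
    ¬ Forces r r k := by
  intro h
  have h1 := h (fun _ : Fin r => Bool ⊕ Fin (r + 1)) (lightGraph F) (lightGraph_covers F hF hk)
  have h2 := lightGraph_cover_number hr F hL
  omega

theorem kc_le {r : ℕ} (hr : 1 ≤ r) : kc r r ≤ 2 ^ (r - 1) :=
  Nat.sInf_le ⟨Nat.one_le_two_pow, forces_upper r hr⟩

theorem le_kc {r : ℕ} (hr : 1 ≤ r) (F : Finset (Finset (Fin r)))
    (hF : ∀ Z ∈ F, ∀ Z' ∈ F, ∃ i, i ∈ Z ↔ i ∈ Z') (hL : Light F) : F.card ≤ kc r r := by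
  have hne : {k | 1 ≤ k ∧ Forces r r k}.Nonempty := ⟨_, Nat.one_le_two_pow, forces_upper r hr⟩
  have hmem : kc r r ∈ {k | 1 ≤ k ∧ Forces r r k} := Nat.sInf_mem hne
  by_contra hlt
  push Not at hlt
  exact not_forces hr F hF hL hlt hmem.2

end Pool.Agent.helper36.KC
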