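import Mathlib
import Pool.Agent.helper36.KCLower

/-!
Explicit light families.
-/

namespace Pool.Agent.helper36.KC

open Finset

/-- partial word equal to `0` off `X` and undefined on `X` -/
def zeroOff {r : ℕ} (X : Finset (Fin r)) : Fin r → Option Bool :=
  fun i => if i ∈ X then none else some false

/-- partial word equal to `1` off `Y` and undefined on `Y` -/
def oneOff {r : ℕ} (Y : Finset (Fin r)) : Fin r → Option Bool :=
  fun i => if i ∈ Y then none else some true

/-- partial word equal to `1` at `j`, to `0` off `X` elsewhere -/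
def zeroOffOne {r : ℕ} (X : Finset (Fin r)) (j : Fin r) : Fin r → Option Bool :=
  fun i => if i = j then some true else if i ∈ X then none else some false

lemma zeroOff_misses {r : ℕ} {X Z : Finset (Fin r)} (h : Misses (zeroOff X) Z) : Z ⊆ X := by
  intro i hi
  by_contra hX
  exact (h i).1 hi (by simp [zeroOff, hX])

lemma oneOff_misses {r : ℕ} {Y Z : Finset (Fin r)} (h : Misses (oneOff Y) Z) : Yᶜ ⊆ Z := by
  intro i hi
  by_contra hZ
  exact (h i).2 hZ (by simp [oneOff, mem_compl.1 hi])

lemma zeroOffOne_misses {r : ℕ} {X Z : Finset (Fin r)} {j : Fin r}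
    (h : Misses (zeroOffOne X j) Z) : j ∈ Z ∧ Z ⊆ insert j X := by
  constructor
  · by_contra hj
    exact (h j).2 hj (by simp [zeroOffOne])
  · intro i hi
    by_contra hX
    rw [mem_insert, not_or] at hX
    exact (h i).1 hi (by simp [zeroOffOne, hX.1, hX.2])

/-- Two levels. -/
def twoLevels (r t : ℕ) : Finset (Finset (Fin r)) :=
  powersetCard t univ ∪ powersetCard (t + 1) univ

lemma mem_twoLevels {r t : ℕ} {Z : Finset (Fin r)} :
    Z ∈ twoLevels r t ↔ Z.card = t ∨ Z.card = t + 1 := by
  simp [twoLevels, mem_powersetCard]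

lemma card_twoLevels (r t : ℕ) : (twoLevels r t).card = r.choose t + r.choose (t + 1) := by
  unfold twoLevels
  rw [card_union_of_disjoint]
  · simp
  · rw [disjoint_left]
    intro Z h1 h2
    rw [mem_powersetCard] at h1 h2
    omega

lemma exists_mem_of_card {r : ℕ} {Z Z' : Finset (Fin r)} (h : r < Z.card + Z'.card) :
    ∃ i, i ∈ Z ∧ i ∈ Z' := by
  by_contra hno
  push Not at hno
  have hd : Disjoint Z Z' := disjoint_left.2 fun i hi hi' => hno i hi hi'
  have h1 : (Z ∪ Z').card ≤ (univ : Finset (Fin r)).card := card_le_card (subset_univ _)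
  rw [card_union_of_disjoint hd] at h1
  simp at h1
  omega

lemma exists_notMem_of_card {r : ℕ} {Z : Finset (Fin r)} (h : Z.card < r) : ∃ i, i ∉ Z := by
  by_contra hno
  push Not at hno
  have : Z = univ := eq_univ_of_forall hno
  rw [this] at h
  simp at h

lemma card_compl' {r : ℕ} (Y : Finset (Fin r)) : Yᶜ.card = r - Y.card := by
  rw [card_compl, Fintype.card_fin]

lemma card_le_r {r : ℕ} (Y : Finset (Fin r)) : Y.card ≤ r := by
  simpa using card_le_univ Y

/-- two levels and the empty set, for `r ≥ 5` -/
lemma fam_odd {r : ℕ} (hr : 5 ≤ r) :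
    (∀ Z ∈ insert ∅ (twoLevels r (r / 2 + 1)), ∀ Z' ∈ insert ∅ (twoLevels r (r / 2 + 1)),
      ∃ i, i ∈ Z ↔ i ∈ Z') ∧ Light (insert ∅ (twoLevels r (r / 2 + 1))) := by
  constructor
  · intro Z hZ Z' hZ'
    rw [mem_insert, mem_twoLevels] at hZ hZ'
    rcases hZ with rfl | hZ <;> rcases hZ' with rfl | hZ'
    · exact ⟨⟨0, by omega⟩, Iff.rfl⟩
    · obtain ⟨i, hi⟩ := exists_notMem_of_card (Z := Z') (by omega)
      exact ⟨i, by simp [hi]⟩
    · obtain ⟨i, hi⟩ := exists_notMem_of_card (Z := Z) (by omega)
      exact ⟨i, by simp [hi]⟩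
    · obtain ⟨i, hi, hi'⟩ := exists_mem_of_card (Z := Z) (Z' := Z') (by omega)
      exact ⟨i, by simp [hi, hi']⟩
  · intro X Y hXY
    have hXr := card_le_r X
    have hYr := card_le_r Y
    rcases lt_trichotomy X.card (r / 2 + 1) with hlt | heq | hgt
    · refine ⟨zeroOff X, ?_, ?_, ?_⟩
      · intro i hi; simp [zeroOff, hi]
      · intro i hi; unfold zeroOff; split_ifs <;> simp
      · have key : ∀ Z ∈ insert ∅ (twoLevels r (r / 2 + 1)), Misses (zeroOff X) Z → Z = ∅ := by
          intro Z hZ hm
          rw [mem_insert, mem_twoLevels] at hZ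
          rcases hZ with rfl | hZ
          · rfl
          · have := card_le_card (zeroOff_misses hm)
            omega
        intro Z hZ Z' hZ' hm hm'
        rw [key Z hZ hm, key Z' hZ' hm']
    · -- `X` has exactly `t` elements
      have hXY' : ∃ j ∈ X, j ∉ Y := by
        by_contra hno
        push Not at hno
        have : X.card ≤ Y.card := card_le_card hno
        omega
      obtain ⟨j, hjX, hjY⟩ := hXY'
      refine ⟨zeroOffOne X j, ?_, ?_, ?_⟩
      · intro i hi; unfold zeroOffOne; split_ifs <;> simp
      · intro i hi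
        unfold zeroOffOne
        have : i ≠ j := fun h => hjY (h ▸ hi)
        rw [if_neg this]
        split_ifs <;> simp
      · have key : ∀ Z ∈ insert ∅ (twoLevels r (r / 2 + 1)),
            Misses (zeroOffOne X j) Z → Z = X := by
          intro Z hZ hm
          obtain ⟨h1, h2⟩ := zeroOffOne_misses hm
          rw [insert_eq_of_mem hjX] at h2
          rw [mem_insert, mem_twoLevels] at hZ
          rcases hZ with rfl | hZ
          · simp at h1
          · exact eq_of_subset_of_card_le h2 (by omega)
        intro Z hZ Z' hZ' hm hm'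
        rw [key Z hZ hm, key Z' hZ' hm']
    · refine ⟨oneOff Y, ?_, ?_, ?_⟩
      · intro i hi; unfold oneOff; split_ifs <;> simp
      · intro i hi; simp [oneOff, hi]
      · have key : ∀ Z ∈ insert ∅ (twoLevels r (r / 2 + 1)),
            Misses (oneOff Y) Z → Yᶜ = Z := by
          intro Z hZ hm
          have h2 := oneOff_misses hm
          rw [mem_insert, mem_twoLevels] at hZ
          have h3 := card_compl' Y
          have h4 := card_le_card h2
          rcases hZ with rfl | hZ
          · simp only [card_empty] at h4; omega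
          · exact eq_of_subset_of_card_le h2 (by omega)
        intro Z hZ Z' hZ' hm hm'
        rw [← key Z hZ hm, ← key Z' hZ' hm']

/-- two levels, for `r ≥ 2` -/
lemma fam_two {r : ℕ} :
    (∀ Z ∈ twoLevels r (r / 2 + 1), ∀ Z' ∈ twoLevels r (r / 2 + 1), ∃ i, i ∈ Z ↔ i ∈ Z') ∧
      Light (twoLevels r (r / 2 + 1)) := by
  constructor
  · intro Z hZ Z' hZ'
    rw [mem_twoLevels] at hZ hZ'
    obtain ⟨i, hi, hi'⟩ := exists_mem_of_card (Z := Z) (Z' := Z') (by omega)
    exact ⟨i, by simp [hi, hi']⟩
  · intro X Y hXY
    have hXr := card_le_r X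
    have hYr := card_le_r Y
    rcases lt_or_ge X.card (r / 2 + 2) with hlt | hge
    · refine ⟨zeroOff X, ?_, ?_, ?_⟩
      · intro i hi; simp [zeroOff, hi]
      · intro i hi; unfold zeroOff; split_ifs <;> simp
      · have key : ∀ Z ∈ twoLevels r (r / 2 + 1), Misses (zeroOff X) Z → Z = X := by
          intro Z hZ hm
          rw [mem_twoLevels] at hZ
          exact eq_of_subset_of_card_le (zeroOff_misses hm) (by omega)
        intro Z hZ Z' hZ' hm hm'
        rw [key Z hZ hm, key Z' hZ' hm']
    · refine ⟨oneOff Y, ?_, ?_, ?_⟩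
      · intro i hi; unfold oneOff; split_ifs <;> simp
      · intro i hi; simp [oneOff, hi]
      · have key : ∀ Z ∈ twoLevels r (r / 2 + 1), Misses (oneOff Y) Z → Yᶜ = Z := by
          intro Z hZ hm
          have h2 := oneOff_misses hm
          rw [mem_twoLevels] at hZ
          have h3 := card_compl' Y
          have h4 := card_le_card h2
          exact eq_of_subset_of_card_le h2 (by omega)
        intro Z hZ Z' hZ' hm hm'
        rw [← key Z hZ hm, ← key Z' hZ' hm']

/-- The family for even `r = 2m`. -/
def evenFam (m : ℕ) (z : Fin (2 * m)) : Finset (Finset (Fin (2 * m))) :=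
  insert ∅ (powersetCard (m + 1) univ ∪ powersetCard m (univ.erase z))

lemma mem_evenFam {m : ℕ} {z : Fin (2 * m)} {Z : Finset (Fin (2 * m))} :
    Z ∈ evenFam m z ↔ Z = ∅ ∨ Z.card = m + 1 ∨ (z ∉ Z ∧ Z.card = m) := by
  unfold evenFam
  rw [mem_insert, mem_union, mem_powersetCard, mem_powersetCard, subset_erase]
  simp

lemma card_evenFam {m : ℕ} (hm : 1 ≤ m) (z : Fin (2 * m)) :
    (evenFam m z).card = (2 * m).choose (m + 1) + (2 * m - 1).choose m + 1 := by
  unfold evenFam
  rw [card_insert_of_notMem, card_union_of_disjoint]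
  · simp [card_powersetCard, card_erase_of_mem]
  · rw [disjoint_left]
    intro Z h1 h2
    rw [mem_powersetCard] at h1 h2
    omega
  · intro h
    rw [mem_union, mem_powersetCard, mem_powersetCard, card_empty] at h
    omega

lemma fam_even {m : ℕ} (hm : 2 ≤ m) (z : Fin (2 * m)) :
    (∀ Z ∈ evenFam m z, ∀ Z' ∈ evenFam m z, ∃ i, i ∈ Z ↔ i ∈ Z') ∧ Light (evenFam m z) := by
  constructor
  · intro Z hZ Z' hZ'
    rw [mem_evenFam] at hZ hZ'
    rcases hZ with rfl | hZ <;> rcases hZ' with rfl | hZ'
    · exact ⟨z, Iff.rfl⟩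
    · obtain ⟨i, hi⟩ := exists_notMem_of_card (Z := Z') (by omega)
      exact ⟨i, by simp [hi]⟩
    · obtain ⟨i, hi⟩ := exists_notMem_of_card (Z := Z) (by omega)
      exact ⟨i, by simp [hi]⟩
    · by_cases hc : 2 * m < Z.card + Z'.card
      · obtain ⟨i, hi, hi'⟩ := exists_mem_of_card (Z := Z) (Z' := Z') hc
        exact ⟨i, by simp [hi, hi']⟩
      · have h1 : z ∉ Z ∧ Z.card = m := by
          rcases hZ with h | h
          · omega
          · exact h
        have h2 : z ∉ Z' ∧ Z'.card = m := by
          rcases hZ' with h | h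
          · omega
          · exact h
        exact ⟨z, by simp [h1.1, h2.1]⟩
  · intro X Y hXY
    have hXr := card_le_r X
    have hYr := card_le_r Y
    by_cases hA : X.card ≤ m - 1 ∨ (X.card = m ∧ z ∈ X)
    · refine ⟨zeroOff X, ?_, ?_, ?_⟩
      · intro i hi; simp [zeroOff, hi]
      · intro i hi; unfold zeroOff; split_ifs <;> simp
      · have key : ∀ Z ∈ evenFam m z, Misses (zeroOff X) Z → Z = ∅ := by
          intro Z hZ hmm
          rw [mem_evenFam] at hZ
          have h2 := zeroOff_misses hmm
          have h3 := card_le_card h2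
          rcases hZ with rfl | hZ | hZ
          · rfl
          · omega
          · exfalso
            rcases hA with hA | hA
            · omega
            · have : Z = X := eq_of_subset_of_card_le h2 (by omega)
              rw [this] at hZ
              exact hZ.1 hA.2
        intro Z hZ Z' hZ' hm hm'
        rw [key Z hZ hm, key Z' hZ' hm']
    by_cases hB : X.card = m
    · have hzX : z ∉ X := fun h => hA (Or.inr ⟨hB, h⟩)
      by_cases hXY' : ∃ j ∈ X, j ∉ Y
      · obtain ⟨j, hjX, hjY⟩ := hXY'
        refine ⟨zeroOffOne X j, ?_, ?_, ?_⟩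
        · intro i hi; unfold zeroOffOne; split_ifs <;> simp
        · intro i hi
          unfold zeroOffOne
          have : i ≠ j := fun h => hjY (h ▸ hi)
          rw [if_neg this]
          split_ifs <;> simp
        · have key : ∀ Z ∈ evenFam m z, Misses (zeroOffOne X j) Z → Z = X := by
            intro Z hZ hmm
            obtain ⟨h1, h2⟩ := zeroOffOne_misses hmm
            rw [insert_eq_of_mem hjX] at h2
            rw [mem_evenFam] at hZ
            rcases hZ with rfl | hZ
            · simp at h1
            · exact eq_of_subset_of_card_le h2 (by omega)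
          intro Z hZ Z' hZ' hm hm'
          rw [key Z hZ hm, key Z' hZ' hm']
      · push Not at hXY'
        have hYX : X = Y := eq_of_subset_of_card_le hXY' (by omega)
        subst hYX
        refine ⟨zeroOffOne X z, ?_, ?_, ?_⟩
        · intro i hi; unfold zeroOffOne; split_ifs <;> simp
        · intro i hi
          unfold zeroOffOne
          have : i ≠ z := fun h => hzX (h ▸ hi)
          rw [if_neg this]
          split_ifs <;> simp
        · have key : ∀ Z ∈ evenFam m z, Misses (zeroOffOne X z) Z → Z = insert z X := by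
            intro Z hZ hmm
            obtain ⟨h1, h2⟩ := zeroOffOne_misses hmm
            rw [mem_evenFam] at hZ
            rcases hZ with rfl | hZ | hZ
            · simp at h1
            · refine eq_of_subset_of_card_le h2 ?_
              rw [card_insert_of_notMem hzX]; omega
            · exact absurd h1 hZ.1
          intro Z hZ Z' hZ' hm hm'
          rw [key Z hZ hm, key Z' hZ' hm']
    · have hXc : m + 1 ≤ X.card := by
        by_contra h
        apply hA
        left
        omega
      refine ⟨oneOff Y, ?_, ?_, ?_⟩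
      · intro i hi; unfold oneOff; split_ifs <;> simp
      · intro i hi; simp [oneOff, hi]
      · have key : ∀ Z ∈ evenFam m z, Misses (oneOff Y) Z → Yᶜ = Z := by
          intro Z hZ hmm
          have h2 := oneOff_misses hmm
          rw [mem_evenFam] at hZ
          have h3 := card_compl' Y
          have h4 := card_le_card h2
          rcases hZ with rfl | hZ
          · simp only [card_empty] at h4; omega
          · exact eq_of_subset_of_card_le h2 (by omega)
        intro Z hZ Z' hZ' hm hm'
        rw [← key Z hZ hm, ← key Z' hZ' hm']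

/-- The family for `r = 2`. -/
def fam2 : Finset (Finset (Fin 2)) := {{0, 1}, {0}}

lemma mem_fam2 {Z : Finset (Fin 2)} (h : Z ∈ fam2) :
    (0 : Fin 2) ∈ Z ∧ ((1 : Fin 2) ∈ Z → Z = {0, 1}) ∧ ((1 : Fin 2) ∉ Z → Z = {0}) := by
  unfold fam2 at h
  rw [mem_insert, mem_singleton] at h
  rcases h with rfl | rfl
  · simp
  · simp

lemma fam_r2 : (∀ Z ∈ fam2, ∀ Z' ∈ fam2, ∃ i, i ∈ Z ↔ i ∈ Z') ∧ Light fam2 := by
  constructor
  · intro Z hZ Z' hZ'
    exact ⟨0, by simp [(mem_fam2 hZ).1, (mem_fam2 hZ').1]⟩
  · intro X Y hXY
    by_cases hX : (1 : Fin 2) ∈ X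
    · by_cases hY : (1 : Fin 2) ∈ Y
      · have h0 : (0 : Fin 2) ∉ X := by
          intro h0
          have h1 : ({0, 1} : Finset (Fin 2)) ⊆ X := by
            intro i hi
            fin_cases i
            · exact h0
            · exact hX
          have h2 := card_le_card h1
          have h3 : 0 < Y.card := card_pos.2 ⟨_, hY⟩
          have h4 : ({0, 1} : Finset (Fin 2)).card = 2 := by decide
          omega
        refine ⟨fun i => if i = 0 then some false else none, ?_, ?_, ?_⟩
        · intro i hi
          have : i ≠ 0 := fun h => h0 (h ▸ hi)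
          simp [this]
        · intro i hi
          dsimp only
          split_ifs <;> simp
        · intro Z hZ Z' hZ' hm hm'
          exact absurd (by simp) ((hm 0).1 (mem_fam2 hZ).1)
      · refine ⟨fun i => if i = 1 then some true else none, ?_, ?_, ?_⟩
        · intro i hi
          dsimp only
          split_ifs <;> simp
        · intro i hi
          have : i ≠ 1 := fun h => hY (h ▸ hi)
          simp [this]
        · intro Z hZ Z' hZ' hm hm'
          have h1 : (1 : Fin 2) ∈ Z := by
            by_contra h
            exact (hm 1).2 h (by simp)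
          have h2 : (1 : Fin 2) ∈ Z' := by
            by_contra h
            exact (hm' 1).2 h (by simp)
          rw [(mem_fam2 hZ).2.1 h1, (mem_fam2 hZ').2.1 h2]
    · refine ⟨fun i => if i = 1 then some false else none, ?_, ?_, ?_⟩
      · intro i hi
        have : i ≠ 1 := fun h => hX (h ▸ hi)
        simp [this]
      · intro i hi
        dsimp only
        split_ifs <;> simp
      · intro Z hZ Z' hZ' hm hm'
        have h1 : (1 : Fin 2) ∉ Z := fun h => (hm 1).1 h (by simp)
        have h2 : (1 : Fin 2) ∉ Z' := fun h => (hm' 1).1 h (by simp)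
        rw [(mem_fam2 hZ).2.2 h1, (mem_fam2 hZ').2.2 h2]

theorem kc_two : kc 2 2 = 2 := by
  refine le_antisymm (by simpa using kc_le (r := 2) (by norm_num)) ?_
  have h := le_kc (r := 2) (by norm_num) fam2 fam_r2.1 fam_r2.2
  have h2 : fam2.card = 2 := by decide
  omega

theorem kc_three : kc 3 3 = 4 := by
  refine le_antisymm (by simpa using kc_le (r := 3) (by norm_num)) ?_
  have h := le_kc (r := 3) (by norm_num) _ fam_two.1 fam_two.2
  rw [card_twoLevels] at h
  have h2 : Nat.choose 3 (3 / 2 + 1) + Nat.choose 3 (3 / 2 + 1 + 1) = 4 := by decide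
  omega

theorem kc_even {m : ℕ} (hm : 2 ≤ m) :
    (2 * m).choose (m + 1) + (2 * m - 1).choose m + 1 ≤ kc (2 * m) (2 * m) := by
  have h := le_kc (r := 2 * m) (by omega) (evenFam m ⟨0, by omega⟩)
    (fam_even hm _).1 (fam_even hm _).2
  rwa [card_evenFam (by omega)] at h

theorem kc_four : kc 4 4 = 8 := by
  refine le_antisymm (by simpa using kc_le (r := 4) (by norm_num)) ?_
  have h := kc_even (m := 2) le_rfl
  have h2 : Nat.choose (2 * 2) (2 + 1) + Nat.choose (2 * 2 - 1) 2 + 1 = 8 := by decide
  rw [h2] at h
  exact h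

theorem kc_lower {r : ℕ} (hr : 5 ≤ r) :
    r.choose (r / 2 + 1) + r.choose (r / 2 + 2) + 1 ≤ kc r r := by
  have h := le_kc (r := r) (by omega) _ (fam_odd hr).1 (fam_odd hr).2
  rw [card_insert_of_notMem, card_twoLevels] at h
  · exact h
  · rw [mem_twoLevels, card_empty]
    omega

theorem kc_five : kc 5 5 = 16 := by
  refine le_antisymm (by simpa using kc_le (r := 5) (by norm_num)) ?_
  have h := kc_lower (r := 5) le_rfl
  have h2 : Nat.choose 5 (5 / 2 + 1) + Nat.choose 5 (5 / 2 + 2) + 1 = 16 := by decide
  omega

end Pool.Agent.helper36.KC
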