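import Mathlib
import Pool.Agent.helper36.KCDefs
import Pool.Agent.helper36.KCFam

/-!
Hypergraphs with at most two vertices of degree at least two in each part: upper bound by a
recursive covering argument.
-/

namespace Pool.Agent.helper36.KC

open Finset

/-- In each part at most two vertices lie in more than one edge. -/
def TwoBranching {r : ℕ} {V : Fin r → Type} (H : Set (Edge V)) : Prop :=
  ∀ i : Fin r, ∃ u v : V i, ∀ e ∈ H, ∀ f ∈ H, e i = f i → e i ≠ u → e i ≠ v → e = f

/-- The version of `Forces` for hypergraphs with at most two vertices of degree at least two in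
each part. -/
def ForcesTwo (r t k : ℕ) : Prop :=
  ∀ (V : Fin r → Type) [∀ i, Finite (V i)] (H : Set (Edge V)),
    TwoBranching H → HasIntersectingCovers H k → coverNumber H ≤ t

/-- The parameter `kc_r(t)` restricted to hypergraphs with at most two vertices of degree at least
two in each part. -/
noncomputable def kcTwo (r t : ℕ) : ℕ := sInf {k | 1 ≤ k ∧ ForcesTwo r t k}

/-- Every set of at most `b` labels is avoided by a member of `S`. -/
def AvoidsAll {n : ℕ} (b : ℕ) (S : Set (Fin n → Option Bool)) : Prop :=
  ∀ X Y : Finset (Fin n), X.card + Y.card ≤ b →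
    ∃ e ∈ S, (∀ i ∈ X, e i ≠ some false) ∧ ∀ i ∈ Y, e i ≠ some true

/-- partial word misses a word -/
def MissW {n : ℕ} (e : Fin n → Option Bool) (w : Fin n → Bool) : Prop := ∀ i, e i ≠ some (w i)

lemma exists_miss {n b : ℕ} (hb : n ≤ b) {S : Set (Fin n → Option Bool)} (hS : AvoidsAll b S)
    (w : Fin n → Bool) : ∃ e ∈ S, MissW e w := by
  obtain ⟨e, he, h0, h1⟩ := hS (univ.filter fun i => w i = false) (univ.filter fun i => w i = true)
    (by
      have : (univ.filter fun i => w i = false).card + (univ.filter fun i => w i = true).card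
          = n := by
        have h := Finset.card_filter_add_card_filter_not (s := (univ : Finset (Fin n)))
          (fun i => w i = false)
        simp only [card_univ, Fintype.card_fin, Bool.not_eq_false] at h
        exact h
      omega)
  refine ⟨e, he, fun i => ?_⟩
  cases hw : w i with
  | false => exact h0 i (by simp [hw])
  | true => exact h1 i (by simp [hw])

/-- lift of a set of indices -/
def liftSet {n : ℕ} (X : Finset (Fin n)) : Finset (Fin (n + 1)) := X.map (Fin.succEmb n)

lemma succ_mem_liftSet {n : ℕ} {X : Finset (Fin n)} {i : Fin n} :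
    i.succ ∈ liftSet X ↔ i ∈ X := by
  simp [liftSet]

lemma zero_notMem_liftSet {n : ℕ} {X : Finset (Fin n)} : (0 : Fin (n + 1)) ∉ liftSet X := by
  intro h
  simp only [liftSet, mem_map, Fin.coe_succEmb] at h
  obtain ⟨a, -, ha⟩ := h
  exact Fin.succ_ne_zero a ha

lemma card_liftSet {n : ℕ} (X : Finset (Fin n)) : (liftSet X).card = X.card := by
  simp [liftSet]

lemma avoids_star {n b : ℕ} {S : Set (Fin (n + 1) → Option Bool)} (hS : AvoidsAll (b + 2) S) :
    AvoidsAll b {e' : Fin n → Option Bool | (Fin.cons none e' : Fin (n + 1) → Option Bool) ∈ S} := by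
  intro X Y hXY
  obtain ⟨e, he, h0, h1⟩ := hS (insert 0 (liftSet X)) (insert 0 (liftSet Y)) (by
    rw [card_insert_of_notMem zero_notMem_liftSet, card_insert_of_notMem zero_notMem_liftSet,
      card_liftSet, card_liftSet]
    omega)
  have hz : e 0 = none := by
    rcases h : e 0 with _ | b
    · rfl
    · cases b with
      | false => exact absurd h (h0 0 (mem_insert_self _ _))
      | true => exact absurd h (h1 0 (mem_insert_self _ _))
  refine ⟨fun i => e i.succ, ?_, fun i hi => ?_, fun i hi => ?_⟩
  · have : (Fin.cons none (fun i => e i.succ) : Fin (n + 1) → Option Bool) = e := by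
      rw [← hz]
      exact Fin.cons_self_tail e
    show (Fin.cons none (fun i => e i.succ) : Fin (n + 1) → Option Bool) ∈ S
    rw [this]
    exact he
  · exact h0 _ (mem_insert_of_mem (succ_mem_liftSet.2 hi))
  · exact h1 _ (mem_insert_of_mem (succ_mem_liftSet.2 hi))

lemma avoids_any {n b : ℕ} {S : Set (Fin (n + 1) → Option Bool)} (hS : AvoidsAll b S) :
    AvoidsAll b {e' : Fin n → Option Bool |
      ∃ a, (Fin.cons a e' : Fin (n + 1) → Option Bool) ∈ S} := by
  intro X Y hXY
  obtain ⟨e, he, h0, h1⟩ := hS (liftSet X) (liftSet Y) (by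
    rw [card_liftSet, card_liftSet]; omega)
  refine ⟨fun i => e i.succ, ⟨e 0, ?_⟩, fun i hi => ?_, fun i hi => ?_⟩
  · have : (Fin.cons (e 0) (fun i => e i.succ) : Fin (n + 1) → Option Bool) = e :=
      Fin.cons_self_tail e
    rw [this]
    exact he
  · exact h0 _ (succ_mem_liftSet.2 hi)
  · exact h1 _ (succ_mem_liftSet.2 hi)

lemma missW_cons {n : ℕ} {a : Option Bool} {e : Fin n → Option Bool} {c : Bool}
    {w : Fin n → Bool} (h0 : a ≠ some c) (h : MissW e w) :
    MissW (Fin.cons a e : Fin (n + 1) → Option Bool) (Fin.cons c w : Fin (n + 1) → Bool) := by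
  intro i
  refine Fin.cases ?_ (fun j => ?_) i
  · simpa using h0
  · simpa using h j

lemma sum_choose_split {n lo hi : ℕ} (hlo : 1 ≤ lo) (hle : lo ≤ hi) :
    ∑ j ∈ Icc lo hi, (n + 1).choose j =
      ∑ j ∈ Icc (lo - 1) hi, n.choose j + ∑ j ∈ Icc lo (hi - 1), n.choose j := by
  obtain ⟨l, rfl⟩ : ∃ l, lo = l + 1 := ⟨lo - 1, by omega⟩
  obtain ⟨h, rfl⟩ : ∃ h, hi = h + 1 := ⟨hi - 1, by omega⟩
  simp only [Nat.add_sub_cancel]
  have e1 : ∑ j ∈ Icc (l + 1) (h + 1), (n + 1).choose j =
      ∑ j ∈ Icc (l + 1) (h + 1), n.choose j + ∑ j ∈ Icc l h, n.choose j := by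
    have e2 : ∑ j ∈ Icc l h, n.choose j = ∑ j ∈ Icc (l + 1) (h + 1), n.choose (j - 1) := by
      refine Finset.sum_nbij (fun j => j + 1) ?_ ?_ ?_ ?_
      · intro j hj; rw [mem_Icc] at hj ⊢; omega
      · intro a _ b _ hab; simpa using hab
      · intro j hj
        simp only [coe_Icc, Set.mem_Icc, Set.mem_image] at hj ⊢
        exact ⟨j - 1, by omega, by omega⟩
      · intro j _; simp
    rw [e2, ← Finset.sum_add_distrib]
    refine Finset.sum_congr rfl fun j hj => ?_
    rw [mem_Icc] at hj
    obtain ⟨k, rfl⟩ : ∃ k, j = k + 1 := ⟨j - 1, by omega⟩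
    rw [Nat.choose_succ_succ]
    simp [add_comm]
  rw [e1]
  have hI : ∀ m, Ioc l m = Icc (l + 1) m := by
    intro m
    ext j
    rw [mem_Ioc, mem_Icc]
    omega
  have e3 : ∑ j ∈ Icc l (h + 1), n.choose j = n.choose l + ∑ j ∈ Icc (l + 1) (h + 1), n.choose j := by
    rw [← Finset.add_sum_Ioc_eq_sum_Icc (by omega : l ≤ h + 1), hI]
  have e4 : ∑ j ∈ Icc l h, n.choose j = n.choose l + ∑ j ∈ Icc (l + 1) h, n.choose j := by
    rw [← Finset.add_sum_Ioc_eq_sum_Icc (by omega : l ≤ h), hI]
  rw [e3, e4]
  ring

/-- The covering lemma. -/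
theorem cover_lemma (n : ℕ) : ∀ (lo δ : ℕ), δ ≤ 1 → 2 * lo ≤ n + δ →
    ∀ S : Set (Fin n → Option Bool), AvoidsAll (2 * lo + 1 - δ) S →
    ∃ (T : Finset (Fin n → Option Bool)) (W : Finset (Fin n → Bool)),
      (∀ e ∈ T, e ∈ S) ∧ T.card + W.card ≤ ∑ j ∈ Icc lo (n + δ - lo), n.choose j ∧
      ∀ w, w ∈ W ∨ ∃ e ∈ T, MissW e w := by
  classical
  induction n with
  | zero =>
    intro lo δ hδ hlo S _
    have h0 : lo = 0 := by omega
    subst h0
    refine ⟨∅, univ, by simp, ?_, fun w => Or.inl (mem_univ w)⟩
    rw [card_empty, zero_add, card_univ]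
    calc Fintype.card (Fin 0 → Bool) = 1 := by simp
      _ = Nat.choose 0 0 := by simp
      _ ≤ ∑ j ∈ Icc 0 (0 + δ - 0), Nat.choose 0 j :=
        Finset.single_le_sum (f := fun j => Nat.choose 0 j) (fun _ _ => Nat.zero_le _)
          (mem_Icc.2 ⟨le_rfl, Nat.zero_le _⟩)
  | succ n ih =>
    intro lo δ hδ hlo S hS
    rcases Nat.eq_zero_or_pos lo with h0 | hpos
    · subst h0
      refine ⟨∅, univ, by simp, ?_, fun w => Or.inl (mem_univ w)⟩
      rw [card_empty, zero_add, card_univ]
      calc Fintype.card (Fin (n + 1) → Bool) = 2 ^ (n + 1) := by simp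
        _ = ∑ j ∈ range (n + 1 + 1), (n + 1).choose j := (Nat.sum_range_choose (n + 1)).symm
        _ ≤ ∑ j ∈ Icc 0 (n + 1 + δ - 0), (n + 1).choose j := by
          refine Finset.sum_le_sum_of_subset ?_
          intro j hj
          rw [mem_range] at hj
          rw [mem_Icc]
          omega
    · have hb : 2 * lo + 1 - δ = (2 * (lo - 1) + 1 - δ) + 2 := by omega
      rw [hb] at hS
      have hS1 := avoids_star hS
      obtain ⟨T1, W1, hT1, hc1, hw1⟩ := ih (lo - 1) δ hδ (by omega) _ hS1
      have hwin : n + δ - (lo - 1) = n + 1 + δ - lo := by omega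
      rw [hwin] at hc1
      rw [sum_choose_split hpos (by omega)]
      by_cases hcase : 2 * lo ≤ n + δ
      · have hS2 := avoids_any (b := 2 * lo + 1 - δ) (by rw [hb]; exact hS)
        obtain ⟨T2, W2, hT2, hc2, hw2⟩ := ih lo δ hδ hcase _ hS2
        have hwin2 : n + δ - lo = n + 1 + δ - lo - 1 := by omega
        rw [hwin2] at hc2
        choose! a ha using hT2
        -- the missed letter
        let bad : (Fin n → Bool) → Bool := fun w =>
          if h : ∃ e ∈ T2, MissW e w then
            (match a h.choose with
              | some c => c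
              | none => false)
          else false
        refine ⟨T1.image (fun e => (Fin.cons none e : Fin (n + 1) → Option Bool)) ∪
            T2.image (fun e => (Fin.cons (a e) e : Fin (n + 1) → Option Bool)),
          W1.image (fun w => (Fin.cons (bad w) w : Fin (n + 1) → Bool)) ∪
            W2.image (fun w => (Fin.cons (! bad w) w : Fin (n + 1) → Bool)), ?_, ?_, ?_⟩
        · intro e he
          rw [mem_union, mem_image, mem_image] at he
          rcases he with ⟨e', he', rfl⟩ | ⟨e', he', rfl⟩
          · exact hT1 e' he'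
          · exact ha e' he'
        · have h1 := card_union_le (T1.image (fun e => (Fin.cons none e : Fin (n + 1) → Option Bool)))
            (T2.image (fun e => (Fin.cons (a e) e : Fin (n + 1) → Option Bool)))
          have h2 := card_union_le (W1.image (fun w => (Fin.cons (bad w) w : Fin (n + 1) → Bool)))
            (W2.image (fun w => (Fin.cons (! bad w) w : Fin (n + 1) → Bool)))
          have h3 := card_image_le (s := T1) (f := fun e => (Fin.cons none e : Fin (n + 1) → Option Bool))
          have h4 := card_image_le (s := T2) (f := fun e => (Fin.cons (a e) e : Fin (n + 1) → Option Bool))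
          have h5 := card_image_le (s := W1) (f := fun w => (Fin.cons (bad w) w : Fin (n + 1) → Bool))
          have h6 := card_image_le (s := W2) (f := fun w => (Fin.cons (! bad w) w : Fin (n + 1) → Bool))
          omega
        · intro w
          obtain ⟨c, w', rfl⟩ : ∃ (c : Bool) (w' : Fin n → Bool),
              w = (Fin.cons c w' : Fin (n + 1) → Bool) :=
            ⟨w 0, fun i => w i.succ, (Fin.cons_self_tail w).symm⟩
          rcases hw1 w' with hw' | ⟨e, he, hm⟩
          · by_cases hc : c = bad w'
            · left
              rw [mem_union]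
              left
              rw [hc]
              exact mem_image_of_mem (fun w => (Fin.cons (bad w) w : Fin (n + 1) → Bool)) hw'
            · rcases hw2 w' with hw'' | hex
              · left
                rw [mem_union]
                right
                have : c = ! bad w' := by
                  cases c <;> cases h : bad w' <;> simp_all
                rw [this]
                exact mem_image_of_mem (fun w => (Fin.cons (! bad w) w : Fin (n + 1) → Bool)) hw''
              · right
                have hbad : bad w' = (match a hex.choose with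
                    | some c => c
                    | none => false) := by
                  simp only [bad]
                  rw [dif_pos hex]
                refine ⟨(Fin.cons (a hex.choose) hex.choose : Fin (n + 1) → Option Bool), ?_, ?_⟩
                · rw [mem_union]
                  right
                  exact mem_image_of_mem (fun e => (Fin.cons (a e) e : Fin (n + 1) → Option Bool))
                    hex.choose_spec.1
                · refine missW_cons ?_ hex.choose_spec.2
                  intro hac
                  rw [hac] at hbad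
                  exact hc hbad.symm
          · right
            refine ⟨(Fin.cons none e : Fin (n + 1) → Option Bool), ?_, ?_⟩
            · rw [mem_union]
              left
              exact mem_image_of_mem (fun e => (Fin.cons none e : Fin (n + 1) → Option Bool)) he
            · exact missW_cons (by simp) hm
      · -- the window is a single layer
        have hfull : n ≤ 2 * (lo - 1) + 1 - δ := by omega
        have hex : ∀ w : Fin n → Bool, ∃ e : Fin n → Option Bool,
            (Fin.cons none e : Fin (n + 1) → Option Bool) ∈ S ∧ MissW e w := fun w => by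
          obtain ⟨e, he, hm⟩ := exists_miss hfull hS1 w
          exact ⟨e, he, hm⟩
        choose g hg1 hg2 using hex
        refine ⟨(T1 ∪ W1.image g).image (fun e => (Fin.cons none e : Fin (n + 1) → Option Bool)),
          ∅, ?_, ?_, ?_⟩
        · intro e he
          rw [mem_image] at he
          obtain ⟨e', he', rfl⟩ := he
          rw [mem_union, mem_image] at he'
          rcases he' with h | ⟨w, -, rfl⟩
          · exact hT1 e' h
          · exact hg1 w
        · have h1 := card_image_le (s := T1 ∪ W1.image g)
            (f := fun e => (Fin.cons none e : Fin (n + 1) → Option Bool))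
          have h2 := card_union_le T1 (W1.image g)
          have h3 := card_image_le (s := W1) (f := g)
          rw [card_empty]
          omega
        · intro w
          right
          obtain ⟨c, w', rfl⟩ : ∃ (c : Bool) (w' : Fin n → Bool),
              w = (Fin.cons c w' : Fin (n + 1) → Bool) :=
            ⟨w 0, fun i => w i.succ, (Fin.cons_self_tail w).symm⟩
          rcases hw1 w' with hw' | ⟨e, he, hm⟩
          · refine ⟨(Fin.cons none (g w') : Fin (n + 1) → Option Bool), ?_,
              missW_cons (by simp) (hg2 w')⟩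
            exact mem_image_of_mem (fun e => (Fin.cons none e : Fin (n + 1) → Option Bool))
              (mem_union_right _ (mem_image_of_mem g hw'))
          · refine ⟨(Fin.cons none e : Fin (n + 1) → Option Bool), ?_, missW_cons (by simp) hm⟩
            exact mem_image_of_mem (fun e => (Fin.cons none e : Fin (n + 1) → Option Bool))
              (mem_union_left _ he)

/-- Covering all words with few members of `S`. -/
theorem cover_words {r : ℕ} {S : Set (Fin r → Option Bool)} (hS : AvoidsAll r S) :
    ∃ T : Finset (Fin r → Option Bool), (∀ e ∈ T, e ∈ S) ∧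
      T.card ≤ (r + 1).choose ((r + 1) / 2) ∧ ∀ w, ∃ e ∈ T, MissW e w := by
  classical
  have hkey : ∃ δ ≤ 1, 2 * (r / 2) + 1 - δ = r ∧
      ∑ j ∈ Icc (r / 2) (r + δ - r / 2), r.choose j = (r + 1).choose ((r + 1) / 2) := by
    rcases Nat.even_or_odd' r with ⟨m, rfl | rfl⟩
    · refine ⟨1, le_rfl, by omega, ?_⟩
      have h1 : 2 * m / 2 = m := by omega
      have h2 : 2 * m + 1 - m = m + 1 := by omega
      have h3 : (2 * m + 1) / 2 = m := by omega
      rw [h1, h2, h3]
      have h4 : Icc m (m + 1) = {m, m + 1} := by
        ext j; simp only [mem_Icc, mem_insert, mem_singleton]; omega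
      rw [h4, sum_pair (by omega), ← Nat.choose_succ_succ]
      have h5 := Nat.choose_symm_half m
      rw [Nat.succ_eq_add_one]
      exact h5
    · refine ⟨0, by omega, by omega, ?_⟩
      have h1 : (2 * m + 1) / 2 = m := by omega
      have h2 : 2 * m + 1 + 0 - m = m + 1 := by omega
      have h3 : (2 * m + 1 + 1) / 2 = m + 1 := by omega
      rw [h1, h2, h3]
      have h4 : Icc m (m + 1) = {m, m + 1} := by
        ext j; simp only [mem_Icc, mem_insert, mem_singleton]; omega
      rw [h4, sum_pair (by omega), ← Nat.choose_succ_succ]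
  obtain ⟨δ, hδ, hb, hsum⟩ := hkey
  obtain ⟨T, W, hT, hc, hw⟩ := cover_lemma r (r / 2) δ hδ (by omega) S (by rw [hb]; exact hS)
  have hex : ∀ w : Fin r → Bool, ∃ e ∈ S, MissW e w := fun w => exists_miss le_rfl hS w
  choose g hg1 hg2 using hex
  refine ⟨T ∪ W.image g, ?_, ?_, ?_⟩
  · intro e he
    rw [mem_union, mem_image] at he
    rcases he with h | ⟨w, -, rfl⟩
    · exact hT e h
    · exact hg1 w
  · have h2 := card_union_le T (W.image g)
    have h3 := card_image_le (s := W) (f := g)
    omega
  · intro w
    rcases hw w with h | ⟨e, he, hm⟩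
    · exact ⟨g w, mem_union_right _ (mem_image_of_mem g h), hg2 w⟩
    · exact ⟨e, mem_union_left _ he, hm⟩

/-- Upper bound for hypergraphs with two branching vertices in each part. -/
theorem forcesTwo_upper {r : ℕ} (hr : 1 ≤ r) : ForcesTwo r r ((r + 1).choose ((r + 1) / 2)) := by
  classical
  intro V _ H hTB hH
  obtain ⟨c, hc1, -⟩ := hH
  by_contra hcon
  push Not at hcon
  choose u v huv using hTB
  -- small vertex sets are not covers
  have hnc : ∀ C : Finset (Σ i, V i), C.card ≤ r → ∃ e ∈ H, ∀ i, (⟨i, e i⟩ : Σ i, V i) ∉ C := by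
    intro C hC
    by_contra hno
    push Not at hno
    have : coverNumber H ≤ C.card := Nat.sInf_le ⟨C, hno, rfl⟩
    omega
  -- the partial word of an edge
  let ψ : Edge V → Fin r → Option Bool := fun e i =>
    if e i = u i then some false else if e i = v i then some true else none
  have hav : AvoidsAll r (ψ '' H) := by
    intro X Y hXY
    obtain ⟨e, he, hm⟩ := hnc (X.image (fun i => (⟨i, u i⟩ : Σ i, V i)) ∪
      Y.image (fun i => (⟨i, v i⟩ : Σ i, V i))) (by
        refine (card_union_le _ _).trans ?_
        exact (Nat.add_le_add card_image_le card_image_le).trans hXY)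
    refine ⟨ψ e, ⟨e, he, rfl⟩, fun i hi h => ?_, fun i hi h => ?_⟩
    · have hei : e i = u i := by
        by_contra hne
        simp only [ψ, if_neg hne] at h
        split_ifs at h <;> simp at h
      refine hm i (mem_union_left _ ?_)
      rw [hei]
      exact mem_image_of_mem (fun i => (⟨i, u i⟩ : Σ i, V i)) hi
    · have hei : e i = v i := by
        by_contra hne
        simp only [ψ, if_neg hne] at h
        split_ifs at h <;> simp at h
      refine hm i (mem_union_right _ ?_)
      rw [hei]
      exact mem_image_of_mem (fun i => (⟨i, v i⟩ : Σ i, V i)) hi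
  obtain ⟨T, hT, hTc, hTw⟩ := cover_words hav
  obtain ⟨e₀, he₀, -⟩ := hnc ∅ (by simp)
  have hT' : ∀ t, ∃ e : Edge V, t ∈ T → e ∈ H ∧ ψ e = t := by
    intro t
    by_cases ht : t ∈ T
    · obtain ⟨e, he, hψe⟩ := hT t ht
      exact ⟨e, fun _ => ⟨he, hψe⟩⟩
    · exact ⟨e₀, fun h => absurd h ht⟩
  choose ed hed using hT'
  have hed1 : ∀ t ∈ T, ed t ∈ H := fun t ht => (hed t ht).1
  have hed2 : ∀ t ∈ T, ψ (ed t) = t := fun t ht => (hed t ht).2
  have hchoose2 : 2 ≤ (r + 1).choose ((r + 1) / 2) := by
    have h1 : (r + 1).choose 1 ≤ (r + 1).choose ((r + 1) / 2) := Nat.choose_le_middle 1 (r + 1)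
    rw [Nat.choose_one_right] at h1
    omega
  -- the covering edge
  have hSH : ∀ f ∈ T.image ed, f ∈ H := by
    intro f hf
    rw [mem_image] at hf
    obtain ⟨t, ht, rfl⟩ := hf
    exact hed1 t ht
  obtain ⟨hAH, hAmeet⟩ := hc1 (T.image ed) hSH (card_image_le.trans hTc)
  set A := c (T.image ed) with hA
  let w : Fin r → Bool := fun i => if A i = u i then false else true
  obtain ⟨t, htT, htw⟩ := hTw w
  obtain ⟨i, hi⟩ := hAmeet (ed t) (mem_image_of_mem ed htT)
  have hψ : ψ (ed t) = t := hed2 t htT
  have hi1 : A i ≠ u i := by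
    intro h
    have h2 : t i = some false := by
      rw [← hψ]
      simp only [ψ]
      rw [if_pos (by rw [← hi, h])]
    have h3 : w i = false := by simp only [w]; rw [if_pos h]
    exact htw i (by rw [h2, h3])
  have hi2 : A i ≠ v i := by
    intro h
    have h2 : t i = some true := by
      rw [← hψ]
      simp only [ψ]
      rw [if_neg (by rw [← hi]; exact hi1), if_pos (by rw [← hi, h])]
    have h3 : w i = true := by simp only [w]; rw [if_neg hi1]
    exact htw i (by rw [h2, h3])
  have hAt : A = ed t := huv i A hAH (ed t) (hed1 t htT) hi hi1 hi2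
  -- `A` has only private vertices
  have hpriv : ∀ j, A j ≠ u j ∧ A j ≠ v j := by
    intro j
    have hj : t j = ψ A j := by rw [hAt, hψ]
    constructor
    · intro h
      have h2 : t j = some false := by rw [hj]; simp only [ψ]; rw [if_pos h]
      have h3 : w j = false := by simp only [w]; rw [if_pos h]
      exact htw j (by rw [h2, h3])
    · intro h
      by_cases h' : A j = u j
      · have h2 : t j = some false := by rw [hj]; simp only [ψ]; rw [if_pos h']
        have h3 : w j = false := by simp only [w]; rw [if_pos h']
        exact htw j (by rw [h2, h3])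
      · have h2 : t j = some true := by rw [hj]; simp only [ψ]; rw [if_neg h', if_pos h]
        have h3 : w j = true := by simp only [w]; rw [if_neg h']
        exact htw j (by rw [h2, h3])
  have honly : ∀ f ∈ H, Meets A f → f = A := by
    intro f hf ⟨j, hj⟩
    exact (huv j A hAH f hf hj (hpriv j).1 (hpriv j).2).symm
  -- a second edge
  obtain ⟨A', hA'H, hA'⟩ := hnc {⟨⟨0, by omega⟩, A ⟨0, by omega⟩⟩} (by rw [card_singleton]; exact hr)
  have hne : A' ≠ A := by
    intro h
    apply hA' ⟨0, by omega⟩
    rw [h]
    exact mem_singleton_self _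
  obtain ⟨hDH, hDmeet⟩ := hc1 {A, A'} (by
    intro f hf
    rw [mem_insert, mem_singleton] at hf
    rcases hf with rfl | rfl
    · exact hAH
    · exact hA'H) ((card_le_two).trans hchoose2)
  have hD1 : c {A, A'} = A := by
    obtain ⟨j, hj⟩ := hDmeet A (mem_insert_self _ _)
    exact honly _ hDH ⟨j, hj.symm⟩
  have hD2 := hDmeet A' (mem_insert_of_mem (mem_singleton_self _))
  rw [hD1] at hD2
  exact hne (honly A' hA'H hD2)

end Pool.Agent.helper36.KC
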