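import Mathlib
import Pool.Agent.helper36.KCDefs
import Pool.Agent.helper36.KCFam
import Pool.Agent.helper36.KCBin

/-!
Lower bound for hypergraphs with at most two vertices of degree at least two in each part, and
the asymptotics.
-/

namespace Pool.Agent.helper36.KC

open Finset

/-- vertices of the lower bound example: two common letters and private vertices -/
abbrev PV (r : ℕ) : Type := Bool ⊕ (Finset (Fin r) × Finset (Fin r) × Fin (r + 1))

/-- the word with zero set `Z` -/
def pword {r : ℕ} (Z : Finset (Fin r)) : Edge (fun _ : Fin r => PV r) :=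
  fun i => Sum.inl (decide (i ∉ Z))

/-- fill a partial word with private vertices -/
def pedge {r : ℕ} (B : Finset (Fin r) → Finset (Fin r) → Fin r → Option Bool)
    (s : Finset (Fin r) × Finset (Fin r) × Fin (r + 1)) : Edge (fun _ : Fin r => PV r) :=
  fun i => match B s.1 s.2.1 i with
    | none => Sum.inr s
    | some b => Sum.inl b

/-- the example -/
def pgraph {r : ℕ} (F : Finset (Finset (Fin r)))
    (B : Finset (Fin r) → Finset (Fin r) → Fin r → Option Bool) :
    Set (Edge (fun _ : Fin r => PV r)) :=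
  {e | (∃ Z ∈ F, e = pword Z) ∨ ∃ s, s.1.card + s.2.1.card ≤ r ∧ e = pedge B s}

lemma pedge_inr {r : ℕ} {B : Finset (Fin r) → Finset (Fin r) → Fin r → Option Bool}
    {s t : Finset (Fin r) × Finset (Fin r) × Fin (r + 1)} {i : Fin r}
    (h : pedge B s i = Sum.inr t) : s = t := by
  unfold pedge at h
  rcases hB : B s.1 s.2.1 i with _ | b
  · rw [hB] at h
    simpa using h
  · rw [hB] at h
    simp at h

lemma pgraph_two {r : ℕ} (F : Finset (Finset (Fin r)))
    (B : Finset (Fin r) → Finset (Fin r) → Fin r → Option Bool) :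
    TwoBranching (pgraph F B) := by
  intro i
  refine ⟨Sum.inl false, Sum.inl true, ?_⟩
  intro e he f hf hef h0 h1
  rcases hei : e i with b | t
  · exfalso
    cases b with
    | false => exact h0 hei
    | true => exact h1 hei
  · have hfi : f i = Sum.inr t := by rw [← hef, hei]
    have key : ∀ g ∈ pgraph F B, g i = Sum.inr t → g = pedge B t := by
      intro g hg hgi
      rcases hg with ⟨Z, -, rfl⟩ | ⟨s, -, rfl⟩
      · simp [pword] at hgi
      · rw [pedge_inr hgi]
    rw [key e he hei, key f hf hfi]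

lemma not_forcesTwo {r : ℕ} (hr : 1 ≤ r) (F : Finset (Finset (Fin r)))
    (hF : ∀ Z ∈ F, ∀ Z' ∈ F, ∃ i, i ∈ Z ↔ i ∈ Z') (hL : Light F) {k : ℕ} (hk : k < F.card) :
    ¬ ForcesTwo r r k := by
  classical
  intro hforce
  have hL' : ∀ X Y : Finset (Fin r), ∃ B : Fin r → Option Bool, X.card + Y.card ≤ r →
      (∀ i ∈ X, B i ≠ some false) ∧ (∀ i ∈ Y, B i ≠ some true) ∧
      ∀ Z ∈ F, ∀ Z' ∈ F, Misses B Z → Misses B Z' → Z = Z' := by
    intro X Y
    by_cases h : X.card + Y.card ≤ r
    · obtain ⟨B, hB⟩ := hL X Y h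
      exact ⟨B, fun _ => hB⟩
    · exact ⟨fun _ => none, fun h' => absurd h' h⟩
  choose B hB using hL'
  have hmm : ∀ Z Z' : Finset (Fin r), (∃ i, i ∈ Z ↔ i ∈ Z') → Meets (pword Z) (pword Z') := by
    intro Z Z' ⟨i, hi⟩
    refine ⟨i, ?_⟩
    unfold pword
    simp only [hi]
  -- each edge misses at most one word
  have hone : ∀ e ∈ pgraph F B, ∀ Z ∈ F, ∀ Z' ∈ F, ¬ Meets e (pword Z) → ¬ Meets e (pword Z') →
      Z = Z' := by
    intro e he Z hZ Z' hZ' h1 h2
    rcases he with ⟨Z₀, hZ₀, rfl⟩ | ⟨s, hs, rfl⟩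
    · exact absurd (hmm Z₀ Z (hF Z₀ hZ₀ Z hZ)) h1
    · refine (hB s.1 s.2.1 hs).2.2 Z hZ Z' hZ' ?_ ?_
      · intro i
        constructor
        · intro hi hBi
          refine h1 ⟨i, ?_⟩
          simp only [pedge, hBi, pword]
          simp [hi]
        · intro hi hBi
          refine h1 ⟨i, ?_⟩
          simp only [pedge, hBi, pword]
          simp [hi]
      · intro i
        constructor
        · intro hi hBi
          refine h2 ⟨i, ?_⟩
          simp only [pedge, hBi, pword]
          simp [hi]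
        · intro hi hBi
          refine h2 ⟨i, ?_⟩
          simp only [pedge, hBi, pword]
          simp [hi]
  -- intersecting covers
  have hcov : HasIntersectingCovers (pgraph F B) k := by
    have hex : ∀ S : Finset (Edge (fun _ : Fin r => PV r)),
        ∃ Z ∈ F, (∀ f ∈ S, f ∈ pgraph F B) → S.card ≤ k → ∀ f ∈ S, Meets (pword Z) f := by
      intro S
      by_cases hS : (∀ f ∈ S, f ∈ pgraph F B) ∧ S.card ≤ k
      · by_contra hno
        push Not at hno
        have hno' : ∀ Z ∈ F, ∃ f ∈ S, ¬ Meets (pword Z) f := fun Z hZ => (hno Z hZ).2.2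
        choose! g hg hg2 using hno'
        have hle : F.card ≤ S.card := by
          refine card_le_card_of_injOn g (fun Z hZ => hg Z hZ) ?_
          intro Z hZ Z' hZ' hgg
          refine hone (g Z) (hS.1 _ (hg Z hZ)) Z hZ Z' hZ' ?_ ?_
          · rintro ⟨i, hi⟩
            exact hg2 Z hZ ⟨i, hi.symm⟩
          · rintro ⟨i, hi⟩
            exact hg2 Z' hZ' ⟨i, by rw [← hgg]; exact hi.symm⟩
        have := hS.2
        omega
      · have hne : F.Nonempty := by
          rw [← card_pos]; omega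
        obtain ⟨Z, hZ⟩ := hne
        exact ⟨Z, hZ, fun h1 h2 => absurd ⟨h1, h2⟩ hS⟩
    choose z hz1 hz2 using hex
    exact ⟨fun S => pword (z S), fun S hS hc => ⟨Or.inl ⟨z S, hz1 S, rfl⟩, hz2 S hS hc⟩,
      fun S S' _ _ _ _ => hmm _ _ (hF _ (hz1 S) _ (hz1 S'))⟩
  have hle := hforce (fun _ : Fin r => PV r) (pgraph F B) (pgraph_two F B) hcov
  -- the cover number is larger than `r`
  have hne : {n | ∃ C : Finset (Σ _ : Fin r, PV r),
      IsCover (pgraph F B) C ∧ C.card = n}.Nonempty := by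
    refine ⟨_, univ, ?_, rfl⟩
    intro e _
    exact ⟨⟨0, by omega⟩, mem_univ _⟩
  obtain ⟨C, hC, hcard⟩ := Nat.sInf_mem hne
  have hcard' : C.card = coverNumber (pgraph F B) := hcard
  have hCr : C.card ≤ r := by omega
  set X : Finset (Fin r) := univ.filter fun i => (⟨i, Sum.inl false⟩ : Σ _ : Fin r, PV r) ∈ C with hX
  set Y : Finset (Fin r) := univ.filter fun i => (⟨i, Sum.inl true⟩ : Σ _ : Fin r, PV r) ∈ C with hY
  have hXY : X.card + Y.card ≤ r := by
    have h1 : X.card + Y.card = (X.disjSum Y).card := by rw [card_disjSum]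
    rw [h1]
    refine le_trans ?_ hCr
    refine card_le_card_of_injOn
      (fun s => match s with
        | Sum.inl i => (⟨i, Sum.inl false⟩ : Σ _ : Fin r, PV r)
        | Sum.inr i => ⟨i, Sum.inl true⟩) ?_ ?_
    · intro s hs
      rcases s with i | i
      · have := inl_mem_disjSum.1 hs
        simpa [hX] using this
      · have := inr_mem_disjSum.1 hs
        simpa [hY] using this
    · intro s _ s' _ hss
      rcases s with i | i <;> rcases s' with j | j <;> simp_all
  -- a copy whose private vertices are not in the cover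
  have hfresh : ∃ j : Fin (r + 1), ∀ i : Fin r,
      (⟨i, Sum.inr (X, Y, j)⟩ : Σ _ : Fin r, PV r) ∉ C := by
    by_contra hno
    push Not at hno
    choose φ hφ using hno
    have : (univ : Finset (Fin (r + 1))).card ≤ C.card := by
      refine card_le_card_of_injOn
        (fun j => (⟨φ j, Sum.inr (X, Y, j)⟩ : Σ _ : Fin r, PV r)) (fun j _ => hφ j) ?_
      intro j _ j' _ hjj
      simp only [Sigma.mk.injEq, heq_eq_eq, Sum.inr.injEq, Prod.mk.injEq, true_and] at hjj
      exact hjj.2
    simp at this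
    omega
  obtain ⟨j, hj⟩ := hfresh
  obtain ⟨i, hi⟩ := hC (pedge B (X, Y, j)) (Or.inr ⟨(X, Y, j), hXY, rfl⟩)
  have hBXY := hB X Y hXY
  rcases hBi : B X Y i with _ | b
  · have : pedge B (X, Y, j) i = Sum.inr (X, Y, j) := by simp only [pedge, hBi]
    rw [this] at hi
    exact hj i hi
  · have he : pedge B (X, Y, j) i = Sum.inl b := by simp only [pedge, hBi]
    rw [he] at hi
    cases b with
    | false => exact hBXY.1 i (by simp [hX, hi]) hBi
    | true => exact hBXY.2.1 i (by simp [hY, hi]) hBi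

theorem kcTwo_mem {r : ℕ} (hr : 1 ≤ r) :
    (r + 1).choose ((r + 1) / 2) ∈ {k | 1 ≤ k ∧ ForcesTwo r r k} :=
  ⟨Nat.choose_pos (by omega), forcesTwo_upper hr⟩

theorem kcTwo_le {r : ℕ} (hr : 1 ≤ r) : kcTwo r r ≤ (r + 1).choose ((r + 1) / 2) :=
  Nat.sInf_le (kcTwo_mem hr)

theorem le_kcTwo {r : ℕ} (hr : 1 ≤ r) (F : Finset (Finset (Fin r)))
    (hF : ∀ Z ∈ F, ∀ Z' ∈ F, ∃ i, i ∈ Z ↔ i ∈ Z') (hL : Light F) : F.card ≤ kcTwo r r := by
  have hmem : kcTwo r r ∈ {k | 1 ≤ k ∧ ForcesTwo r r k} := Nat.sInf_mem ⟨_, kcTwo_mem hr⟩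
  by_contra hlt
  push Not at hlt
  exact not_forcesTwo hr F hF hL hlt hmem.2

theorem kcTwo_lower {r : ℕ} (hr : 5 ≤ r) :
    (r + 1).choose (r / 2 + 2) + 1 ≤ kcTwo r r := by
  have h := le_kcTwo (r := r) (by omega) _ (fam_odd hr).1 (fam_odd hr).2
  rw [card_insert_of_notMem, card_twoLevels, ← Nat.choose_succ_succ] at h
  · exact h
  · rw [mem_twoLevels, card_empty]
    omega

/-- ratio of the two bounds -/
lemma ratio_bound {r : ℕ} (hr : 5 ≤ r) :
    (r : ℝ) / (r + 4) * ((r + 1).choose ((r + 1) / 2) : ℕ) ≤ ((r + 1).choose (r / 2 + 2) : ℕ) := by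
  rcases Nat.even_or_odd' r with ⟨m, rfl | rfl⟩
  · have h1 : 2 * m / 2 = m := by omega
    have h2 : (2 * m + 1) / 2 = m := by omega
    rw [h1, h2]
    -- C(2m+1, m+1) = C(2m+1, m), C(2m+1,m+2) (m+2) = C(2m+1,m+1) m
    have h3 : (2 * m + 1).choose (m + 1) = (2 * m + 1).choose m := Nat.choose_symm_half m
    have h4 := Nat.choose_succ_right_eq (2 * m + 1) (m + 1)
    have h5 : 2 * m + 1 - (m + 1) = m := by omega
    rw [h5, h3] at h4
    have h6 : (((2 * m + 1).choose (m + 2) : ℕ) : ℝ) * (m + 2) =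
        ((2 * m + 1).choose m : ℕ) * m := by
      have : ((2 * m + 1).choose (m + 1 + 1)) * (m + 1 + 1) = (2 * m + 1).choose m * m := h4
      have h7 : (((2 * m + 1).choose (m + 1 + 1) * (m + 1 + 1) : ℕ) : ℝ) =
        (((2 * m + 1).choose m * m : ℕ) : ℝ) := by rw [this]
      push_cast at h7
      rw [show ((m : ℝ) + 1 + 1) = m + 2 by ring] at h7
      exact h7
    have hm : (0 : ℝ) < m + 2 := by positivity
    have h8 : (((2 * m + 1).choose (m + 2) : ℕ) : ℝ) = ((2 * m + 1).choose m : ℕ) * m / (m + 2) := by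
      rw [eq_div_iff hm.ne']; exact h6
    rw [h8]
    push_cast
    have h9 : ((2 : ℝ) * m) / (2 * m + 4) = m / (m + 2) := by
      rw [div_eq_div_iff (by positivity) (by positivity)]; ring
    rw [h9]
    apply le_of_eq
    ring
  · have h1 : (2 * m + 1) / 2 = m := by omega
    have h2 : (2 * m + 1 + 1) / 2 = m + 1 := by omega
    rw [h1, h2]
    have h4 := Nat.choose_succ_right_eq (2 * m + 1 + 1) (m + 1)
    have h5 : 2 * m + 1 + 1 - (m + 1) = m + 1 := by omega
    rw [h5] at h4
    have h6 : (((2 * m + 1 + 1).choose (m + 2) : ℕ) : ℝ) * (m + 2) =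
        ((2 * m + 1 + 1).choose (m + 1) : ℕ) * (m + 1) := by
      have h7 : (((2 * m + 1 + 1).choose (m + 1 + 1) * (m + 1 + 1) : ℕ) : ℝ) =
        (((2 * m + 1 + 1).choose (m + 1) * (m + 1) : ℕ) : ℝ) := by rw [h4]
      push_cast at h7
      rw [show ((m : ℝ) + 1 + 1) = m + 2 by ring] at h7
      exact h7
    have hm : (0 : ℝ) < m + 2 := by positivity
    have h8 : (((2 * m + 1 + 1).choose (m + 2) : ℕ) : ℝ) =
        ((2 * m + 1 + 1).choose (m + 1) : ℕ) * (m + 1) / (m + 2) := by
      rw [eq_div_iff hm.ne']; exact h6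
    rw [h8]
    push_cast
    have h9 : ((2 : ℝ) * m + 1) / (2 * m + 1 + 4) ≤ (m + 1) / (m + 2) := by
      rw [div_le_div_iff₀ (by positivity) (by positivity)]
      nlinarith
    have h10 : (0 : ℝ) ≤ ((2 * m + 1 + 1).choose (m + 1) : ℕ) := by positivity
    calc ((2 : ℝ) * m + 1) / (2 * m + 1 + 4) * ((2 * m + 1 + 1).choose (m + 1) : ℕ)
        ≤ (m + 1) / (m + 2) * ((2 * m + 1 + 1).choose (m + 1) : ℕ) :=
          mul_le_mul_of_nonneg_right h9 h10
      _ = ((2 * m + 1 + 1).choose (m + 1) : ℕ) * (m + 1) / (m + 2) := by ring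

theorem kcTwo_asymp : Filter.Tendsto
    (fun r : ℕ => (kcTwo r r : ℝ) / ((r + 1).choose ((r + 1) / 2) : ℕ)) Filter.atTop (nhds 1) := by
  have hlim : Filter.Tendsto (fun r : ℕ => (r : ℝ) / (r + 4)) Filter.atTop (nhds 1) := by
    have h1 : Filter.Tendsto (fun r : ℕ => 1 - 4 / ((r : ℝ) + 4)) Filter.atTop (nhds (1 - 0)) := by
      refine Filter.Tendsto.sub tendsto_const_nhds ?_
      refine Filter.Tendsto.div_atTop tendsto_const_nhds ?_
      exact Filter.tendsto_atTop_add_const_right _ _ tendsto_natCast_atTop_atTop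
    rw [sub_zero] at h1
    refine h1.congr fun r => ?_
    have : (r : ℝ) + 4 ≠ 0 := by positivity
    field_simp
    ring
  refine tendsto_of_tendsto_of_tendsto_of_le_of_le' hlim tendsto_const_nhds ?_ ?_
  · filter_upwards [Filter.eventually_ge_atTop 5] with r hr
    have hpos : (0 : ℝ) < ((r + 1).choose ((r + 1) / 2) : ℕ) := by
      exact_mod_cast Nat.choose_pos (by omega)
    rw [le_div_iff₀ hpos]
    refine (ratio_bound hr).trans ?_
    have := kcTwo_lower hr
    exact_mod_cast (by omega : (r + 1).choose (r / 2 + 2) ≤ kcTwo r r)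
  · filter_upwards [Filter.eventually_ge_atTop 5] with r hr
    have hpos : (0 : ℝ) < ((r + 1).choose ((r + 1) / 2) : ℕ) := by
      exact_mod_cast Nat.choose_pos (by omega)
    rw [div_le_one hpos]
    exact_mod_cast kcTwo_le (by omega)

end Pool.Agent.helper36.KC
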