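import Mathlib

/-!
Definitions: seeds and mutation, values of rational functions at a point, the rectangles seed of
the Grassmannian `Gr(k, k + l)`, tame `SL_k`-friezes and the matrices corresponding to them.
-/

namespace Pool.Agent.helper36

open MvPolynomial

/-! ### Seeds and mutation -/

/-- A labelled seed in a field `K`: an integer matrix `B` and a family `x` of elements of `K`, both
indexed by the vertex set `V` (mutable and frozen vertices together). -/
structure Seed (V K : Type*) where
  B : V → V → ℤ
  x : V → K

namespace Seed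

variable {V K : Type*} [Fintype V] [DecidableEq V] [Field K]

/-- The exchange binomial of a seed at the vertex `k`:
`∏ x_i ^ [b_{ik}]₊ + ∏ x_i ^ [-b_{ik}]₊`. -/
def exch (s : Seed V K) (k : V) : K :=
  ∏ i, s.x i ^ (s.B i k).toNat + ∏ i, s.x i ^ (-s.B i k).toNat

/-- Fomin-Zelevinsky mutation of a seed at the vertex `k`. -/
def mutate (s : Seed V K) (k : V) : Seed V K where
  B := fun i j =>
    if i = k ∨ j = k then -s.B i j
    else s.B i j + max (s.B i k) 0 * max (s.B k j) 0 - max (-s.B i k) 0 * max (-s.B k j) 0
  x := Function.update s.x k (s.exch k / s.x k)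

/-- Iterated mutation of a seed along a list of vertices. -/
def run (s : Seed V K) (l : List V) : Seed V K := l.foldl mutate s

end Seed

/-! ### Values of rational functions -/

/-- `Ev φ z c`: the element `z` of the fraction field `F` of `R` is regular at the point
`φ : R → K` (it is a quotient `p / q` whose denominator does not vanish at `φ`) and its value
there is `c`. -/
def Ev {R F K : Type*} [CommRing R] [Field F] [Algebra R F] [Field K]
    (φ : R →+* K) (z : F) (c : K) : Prop :=
  ∃ p q : R, φ q ≠ 0 ∧ z * algebraMap R F q = algebraMap R F p ∧ c * φ q = φ p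

/-! ### The standard cluster structure on `Gr(k, k + l)` -/

/-- Vertices of the rectangles quiver of `Gr(k, k + l)`: `none` is the empty rectangle and
`some (i, j)` is the rectangle with `i + 1` rows and `j + 1` columns. -/
abbrev RectVertex (k l : ℕ) := Option (Fin k × Fin l)

/-- Arrows of the rectangles quiver: from a rectangle to the one with one more column, to the one
with one more row, and to the one with one row and one column less; and one arrow from the
empty rectangle to the `1 × 1` rectangle. -/
def rectArrow {k l : ℕ} : RectVertex k l → RectVertex k l → ℤ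
  | some (a, b), some (c, d) =>
      if (c.1 = a.1 ∧ d.1 = b.1 + 1) ∨ (c.1 = a.1 + 1 ∧ d.1 = b.1)
        ∨ (a.1 = c.1 + 1 ∧ b.1 = d.1 + 1) then 1 else 0
  | none, some (c, d) => if c.1 = 0 ∧ d.1 = 0 then 1 else 0
  | _, none => 0

/-- The exchange matrix of the rectangles quiver. -/
def rectB (k l : ℕ) (u v : RectVertex k l) : ℤ := rectArrow u v - rectArrow v u

/-- Mutable vertices: nonempty rectangles with fewer than `k` rows and fewer than `l` columns. -/
def RectMutable {k l : ℕ} : RectVertex k l → Prop
  | some (i, j) => i.1 + 1 < k ∧ j.1 + 1 < l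
  | none => False

/-- Columns of the Plücker coordinate attached to a rectangle: the empty rectangle gives
`{1, …, k}` and the `g × s` rectangle gives `{1, …, k - g} ∪ {k - g + s + 1, …, k + s}`
(here columns are numbered from `0`). -/
def rectCol {k l : ℕ} : RectVertex k l → Fin k → Fin (k + l)
  | none, m => ⟨m.1, by omega⟩
  | some (i, j), m => if m.1 + (i.1 + 1) < k then ⟨m.1, by omega⟩ else ⟨m.1 + (j.1 + 1), by omega⟩

/-- The coordinate ring of `k × n` matrices over the integers. -/
abbrev MatRing (k n : ℕ) := MvPolynomial (Fin k × Fin n) ℤ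

/-- The field of rational functions on `k × n` matrices. -/
abbrev MatField (k n : ℕ) := FractionRing (MatRing k n)

/-- The Plücker coordinate (maximal minor of the generic `k × n` matrix) with given columns. -/
noncomputable def plucker {k n : ℕ} (c : Fin k → Fin n) : MatRing k n :=
  Matrix.det (Matrix.of fun r m => X (r, c m))

/-- The rectangles seed of `Gr(k, k + l)`. -/
noncomputable def rectSeed (k l : ℕ) : Seed (RectVertex k l) (MatField k (k + l)) :=
  ⟨rectB k l, fun v => algebraMap (MatRing k (k + l)) (MatField k (k + l)) (plucker (rectCol v))⟩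

/-- Cluster variables of the standard cluster structure on `Gr(k, k + l)`: the elements at mutable
vertices of seeds obtained from the rectangles seed by mutations at mutable vertices. -/
def IsClusterVariable (k l : ℕ) (z : MatField k (k + l)) : Prop :=
  ∃ L : List (RectVertex k l), (∀ v ∈ L, RectMutable v) ∧
    ∃ u, RectMutable u ∧ z = ((rectSeed k l).run L).x u

/-- Evaluation of integer polynomials in the entries of a `k × n` matrix at a rational matrix. -/
noncomputable def evalAt {k n : ℕ} (A : Matrix (Fin k) (Fin n) ℚ) : MatRing k n →+* ℚ :=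
  eval₂Hom (Int.castRingHom ℚ) fun p : Fin k × Fin n => A p.1 p.2

/-! ### Tame `SL_k`-friezes -/

/-- The adjacent minor of order `r` of the bi-infinite matrix `M` with top left corner `(a, b)`. -/
def adjMinor (M : ℤ → ℤ → ℚ) (r : ℕ) (a b : ℤ) : ℚ :=
  Matrix.det (Matrix.of fun i j : Fin r => M (a + i) (b + j))

/-- Tame `SL_k`-friezes of width `w`: all adjacent minors of order `k` are `1`, all adjacent minors
of order `k + 1` are `0`, `M i j = 1` for `j - i ∈ {-1, w}` and `M i j = 0` for
`j - i ∈ {-k, …, -2} ∪ {w + 1, …, w + k - 1}`. -/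
structure IsTameFrieze (k w : ℕ) (M : ℤ → ℤ → ℚ) : Prop where
  minor_one : ∀ a b : ℤ, adjMinor M k a b = 1
  minor_zero : ∀ a b : ℤ, adjMinor M (k + 1) a b = 0
  one_left : ∀ i j : ℤ, j - i = -1 → M i j = 1
  one_right : ∀ i j : ℤ, j - i = (w : ℤ) → M i j = 1
  zero_left : ∀ i j : ℤ, -(k : ℤ) ≤ j - i → j - i ≤ -2 → M i j = 0
  zero_right : ∀ i j : ℤ, (w : ℤ) + 1 ≤ j - i → j - i ≤ (w : ℤ) + k - 1 → M i j = 0

/-- The `k × n` matrix `A` corresponds to the frieze `M`: let `C` be the extension of the sequence
of columns of `A` to all integer indices with `C (c + n) = (-1) ^ (k - 1) C c`; then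
`M i j` is the determinant with columns `C (i - k), C (i - k + 1), …, C (i - 2), C j`. -/
def Corresponds {k n : ℕ} (A : Matrix (Fin k) (Fin n) ℚ) (M : ℤ → ℤ → ℚ) : Prop :=
  ∃ C : ℤ → Fin k → ℚ, (∀ (c : Fin n) (r : Fin k), C (c.1 : ℤ) r = A r c) ∧
    (∀ c : ℤ, C (c + n) = (-1 : ℚ) ^ (k - 1) • C c) ∧
    ∀ i j : ℤ, M i j = Matrix.det (Matrix.of fun r m : Fin k =>
      C (if m.1 + 1 < k then i - k + m.1 else j) r)

end Pool.Agent.helper36
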