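import Mathlib
import Pool.Agent.helper36.ClusterDefs

/-!
Tame `SL_k`-friezes: definitions, antiperiodicity, and the dictionary with `k × n` matrices.
-/

set_option linter.unusedSectionVars false

namespace Pool.Agent.helper36

variable {k w : ℕ} {M : ℤ → ℤ → ℚ}

/-- Column vector of `M` in the rows `a, …, a + k - 1`. -/
def colv (M : ℤ → ℤ → ℚ) (k : ℕ) (a j : ℤ) : Fin k → ℚ := fun s => M (a + s) j

/-- Minor in the rows `a, …, a + k - 1`. -/
def mn (M : ℤ → ℤ → ℚ) (k : ℕ) (a : ℤ) (c : Fin k → ℤ) : ℚ :=
  Matrix.det (Matrix.of fun r m : Fin k => M (a + r) (c m))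

theorem mn_consecutive (hM : IsTameFrieze k w M) (a b : ℤ) :
    mn M k a (fun m => b + m) = 1 := hM.minor_one a b

/-- Uniform linear relation between `k + 1` consecutive rows. -/
theorem row_relation (hM : IsTameFrieze k w M) (a : ℤ) :
    ∃ c : Fin k → ℚ, ∀ j, M (a + k) j = ∑ s, c s * M (a + s) j := by
  set P : ℤ → (Fin k → ℚ) → Prop := fun b c =>
    ∀ t : ℕ, t < k → M (a + k) (b + t) = ∑ s, c s * M (a + s) (b + t) with hP
  have hdet : ∀ b, (Matrix.of fun r m : Fin k => M (a + r) (b + m)).det ≠ 0 := by
    intro b
    rw [show (Matrix.of fun r m : Fin k => M (a + r) (b + m)).det = 1 from hM.minor_one a b]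
    exact one_ne_zero
  have uniq : ∀ b c c', P b c → P b c' → c = c' := by
    intro b c c' h h'
    have h1 : Matrix.vecMul (c - c') (Matrix.of fun r m : Fin k => M (a + r) (b + m)) = 0 := by
      funext t
      simp only [Matrix.vecMul, dotProduct, Pi.sub_apply, Matrix.of_apply, Pi.zero_apply, sub_mul,
        Finset.sum_sub_distrib]
      rw [← h t t.2, ← h' t t.2, sub_self]
    have h2 := Matrix.eq_zero_of_vecMul_eq_zero (hdet b) h1
    exact sub_eq_zero.1 h2
  have exist : ∀ b, ∃ c, P b c ∧ P (b + 1) c := by
    intro b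
    have h0 : (Matrix.of fun i j : Fin (k + 1) => M (a + i) (b + j)).det = 0 := hM.minor_zero a b
    obtain ⟨x, hx0, hx⟩ := Matrix.exists_vecMul_eq_zero_iff.2 h0
    have hxt : ∀ t : Fin (k + 1), x (Fin.last k) * M (a + k) (b + t)
        + ∑ s : Fin k, x s.castSucc * M (a + s) (b + t) = 0 := by
      intro t
      have := congrFun hx t
      simp only [Matrix.vecMul, dotProduct, Matrix.of_apply, Pi.zero_apply] at this
      rw [Fin.sum_univ_castSucc] at this
      simp only [Fin.val_castSucc, Fin.val_last] at this
      linarith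
    have hlast : x (Fin.last k) ≠ 0 := by
      intro hl
      apply hx0
      have h1 : Matrix.vecMul (fun s : Fin k => x s.castSucc)
          (Matrix.of fun r m : Fin k => M (a + r) (b + m)) = 0 := by
        funext t
        have := hxt t.castSucc
        rw [hl, zero_mul, zero_add] at this
        simpa [Matrix.vecMul, dotProduct] using this
      have h2 := Matrix.eq_zero_of_vecMul_eq_zero (hdet b) h1
      funext i
      refine Fin.lastCases ?_ (fun s => ?_) i
      · exact hl
      · exact congrFun h2 s
    refine ⟨fun s => -x s.castSucc / x (Fin.last k), ?_, ?_⟩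
    · intro t ht
      have := hxt ⟨t, by omega⟩
      have e : ∑ s : Fin k, -x s.castSucc / x (Fin.last k) * M (a + s) (b + t)
          = -(∑ s : Fin k, x s.castSucc * M (a + s) (b + t)) / x (Fin.last k) := by
        rw [← Finset.sum_neg_distrib, Finset.sum_div]
        exact Finset.sum_congr rfl fun s _ => by ring
      rw [e, eq_div_iff hlast]
      dsimp only at this
      linarith
    · intro t ht
      have := hxt ⟨t + 1, by omega⟩
      have e : ∑ s : Fin k, -x s.castSucc / x (Fin.last k) * M (a + s) (b + 1 + t)
          = -(∑ s : Fin k, x s.castSucc * M (a + s) (b + 1 + t)) / x (Fin.last k) := by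
        rw [← Finset.sum_neg_distrib, Finset.sum_div]
        exact Finset.sum_congr rfl fun s _ => by ring
      rw [e, eq_div_iff hlast]
      have e2 : b + ((t + 1 : ℕ) : ℤ) = b + 1 + t := by push_cast; ring
      dsimp only at this
      rw [e2] at this
      linarith
  obtain ⟨c, hc, _⟩ := exist 0
  have hall : ∀ b, P b c := by
    intro b
    induction b using Int.induction_on with
    | zero => exact hc
    | succ n ih =>
      obtain ⟨c', h1, h2⟩ := exist n
      rw [uniq _ _ _ ih h1]
      exact h2
    | pred n ih =>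
      obtain ⟨c', h1, h2⟩ := exist (-(n : ℤ) - 1)
      rw [sub_add_cancel] at h2
      rw [uniq _ _ _ ih h2]
      exact h1
  refine ⟨c, fun j => ?_⟩
  rcases Nat.eq_zero_or_pos k with hk | hk
  · subst hk
    have h0 : adjMinor M 1 a j = 0 := hM.minor_zero a j
    unfold adjMinor at h0
    rw [Matrix.det_fin_one, Matrix.of_apply] at h0
    simpa using h0
  · have := hall j 0 hk
    simpa using this

/-- Transition between consecutive row windows. -/
theorem exists_transition (hk : 1 ≤ k) (hM : IsTameFrieze k w M) (a : ℤ) :
    ∃ K : Matrix (Fin k) (Fin k) ℚ, K.det = 1 ∧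
      ∀ j, colv M k (a + 1) j = K.mulVec (colv M k a j) := by
  obtain ⟨c, hc⟩ := row_relation hM a
  set K : Matrix (Fin k) (Fin k) ℚ := Matrix.of fun r s =>
    if r.1 + 1 < k then (if s.1 = r.1 + 1 then 1 else 0) else c s with hK
  have hmul : ∀ j, colv M k (a + 1) j = K.mulVec (colv M k a j) := by
    intro j
    funext r
    simp only [Matrix.mulVec, dotProduct, colv, hK, Matrix.of_apply]
    by_cases h : r.1 + 1 < k
    · simp only [if_pos h]
      rw [Finset.sum_eq_single ⟨r.1 + 1, h⟩]
      · simp only [if_true, one_mul]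
        congr 1
        push_cast
        ring
      · intro s _ hs
        rw [if_neg, zero_mul]
        intro h'
        exact hs (Fin.ext h')
      · intro h'; exact absurd (Finset.mem_univ _) h'
    · simp only [if_neg h]
      rw [← hc j]
      congr 1
      have : (r.1 : ℤ) + 1 = k := by have := r.2; omega
      linarith
  refine ⟨K, ?_, hmul⟩
  have h1 : (Matrix.of fun r m : Fin k => M (a + 1 + r) ((0 : ℤ) + m))
      = K * (Matrix.of fun r m : Fin k => M (a + r) ((0 : ℤ) + m)) := by
    ext r m
    have := congrFun (hmul ((0 : ℤ) + m)) r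
    simp only [colv, Matrix.mulVec, dotProduct] at this
    rw [Matrix.of_apply, this, Matrix.mul_apply]
    rfl
  have h2 := hM.minor_one (a + 1) 0
  unfold adjMinor at h2
  rw [h1, Matrix.det_mul] at h2
  have h3 : (Matrix.of fun r m : Fin k => M (a + r) ((0 : ℤ) + m)).det = 1 := hM.minor_one a 0
  rw [h3, mul_one] at h2
  exact h2

/-- Minors do not depend on the row window. -/
theorem mn_succ (hk : 1 ≤ k) (hM : IsTameFrieze k w M) (a : ℤ) (c : Fin k → ℤ) :
    mn M k (a + 1) c = mn M k a c := by
  obtain ⟨K, hK, hmul⟩ := exists_transition hk hM a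
  have h1 : (Matrix.of fun r m : Fin k => M (a + 1 + r) (c m))
      = K * (Matrix.of fun r m : Fin k => M (a + r) (c m)) := by
    ext r m
    have := congrFun (hmul (c m)) r
    simp only [colv, Matrix.mulVec, dotProduct] at this
    rw [Matrix.of_apply, this, Matrix.mul_apply]
    rfl
  unfold mn
  rw [h1, Matrix.det_mul, hK, one_mul]

theorem mn_eq (hk : 1 ≤ k) (hM : IsTameFrieze k w M) (a a' : ℤ) (c : Fin k → ℤ) :
    mn M k a c = mn M k a' c := by
  have key : ∀ a : ℤ, mn M k a c = mn M k 0 c := by
    intro a
    induction a using Int.induction_on with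
    | zero => rfl
    | succ n ih => rw [mn_succ hk hM, ih]
    | pred n ih =>
      rw [← ih, ← mn_succ hk hM (-(n : ℤ) - 1), sub_add_cancel]
  rw [key a, key a']

/-- Entries of the frieze are Plücker coordinates. -/
theorem entry_eq (hk : 1 ≤ k) (hM : IsTameFrieze k w M) (a i j : ℤ) :
    mn M k a (fun m : Fin k => if m.1 + 1 < k then i - k + m else j) = M i j := by
  rw [mn_eq hk hM a (i - k + 1)]
  unfold mn
  have htri : (Matrix.of fun r m : Fin k => M (i - k + 1 + r)
      (if m.1 + 1 < k then i - k + m else j)).BlockTriangular id := by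
    intro r m hrm
    simp only [id] at hrm
    have h1 := r.2
    rw [Fin.lt_def] at hrm
    rw [Matrix.of_apply, if_pos (by omega)]
    apply hM.zero_left <;> omega
  rw [Matrix.det_of_isUpperTriangular htri]
  rw [← Finset.mul_prod_erase _ _ (Finset.mem_univ (⟨k - 1, by omega⟩ : Fin k)),
    Finset.prod_eq_one, mul_one]
  · rw [Matrix.of_apply, if_neg (by dsimp only; omega)]
    congr 1
    dsimp only
    omega
  · intro m hm
    have hm' : m.1 ≠ k - 1 := by
      intro h
      exact (Finset.mem_erase.1 hm).1 (Fin.ext h)
    have := m.2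
    rw [Matrix.of_apply, if_pos (by omega)]
    apply hM.one_left
    omega

/-- Antiperiodicity of column vectors. -/
theorem colv_antiperiodic (hk : 2 ≤ k) (hM : IsTameFrieze k w M) (a j : ℤ) :
    colv M k a (j + (k + w + 1 : ℕ)) = (-1 : ℚ) ^ (k - 1) • colv M k a j := by
  -- base case
  have base : colv M k (j + 1) (j + (k + w + 1 : ℕ)) = (-1 : ℚ) ^ (k - 1) • colv M k (j + 1) j := by
    set μ := M (j + 1) (j + (k + w + 1 : ℕ)) with hμ
    have hμ1 : μ = (-1) ^ (k - 1) := by
      obtain ⟨m, rfl⟩ : ∃ m, k = m + 1 := ⟨k - 1, by omega⟩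
      have h1 := hM.minor_one (j + 1) (j + w + 2)
      unfold adjMinor at h1
      rw [Matrix.det_succ_row_zero, Finset.sum_eq_single (Fin.last m)] at h1
      · rw [Fin.succAbove_last] at h1
        have h2 : ((Matrix.of fun i j_1 : Fin (m + 1) =>
            M (j + 1 + i) (j + w + 2 + j_1)).submatrix Fin.succ Fin.castSucc).det = 1 := by
          rw [Matrix.det_of_isLowerTriangular]
          · apply Finset.prod_eq_one
            intro s _
            rw [Matrix.submatrix_apply, Matrix.of_apply]
            apply hM.one_right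
            simp only [Fin.val_succ, Fin.val_castSucc]
            push_cast
            ring
          · intro s t hst
            have hst' : s.1 < t.1 := by
              have : OrderDual.toDual t < OrderDual.toDual s := hst
              exact OrderDual.toDual_lt_toDual.1 this
            have ht := t.2
            rw [Matrix.submatrix_apply, Matrix.of_apply]
            apply hM.zero_right
            · simp only [Fin.val_succ, Fin.val_castSucc]; push_cast; omega
            · simp only [Fin.val_succ, Fin.val_castSucc]; push_cast; omega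
        rw [h2, mul_one, Matrix.of_apply] at h1
        have e1 : M (j + 1 + ((0 : Fin (m + 1)) : ℕ)) (j + w + 2 + ((Fin.last m : Fin (m + 1)) : ℕ))
            = μ := by
          rw [hμ]
          congr 1
          · simp
          · simp only [Fin.val_last]; push_cast; ring
        rw [e1, Fin.val_last] at h1
        have h3 : ((-1 : ℚ) ^ m) * ((-1) ^ m) = 1 := by
          rw [← mul_pow]; simp
        rw [Nat.add_sub_cancel]
        calc μ = ((-1 : ℚ) ^ m * (-1) ^ m) * μ := by rw [h3, one_mul]
          _ = (-1) ^ m * ((-1) ^ m * μ) := by ring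
          _ = (-1) ^ m := by rw [h1, mul_one]
      · intro t _ ht
        have ht' : t.1 < m := by
          have h1 := t.2
          have : t.1 ≠ m := fun h => ht (Fin.ext h)
          omega
        rw [Matrix.of_apply, hM.zero_right]
        · ring
        · simp only [Fin.val_zero]; push_cast; omega
        · simp only [Fin.val_zero]; push_cast; omega
      · intro h; exact absurd (Finset.mem_univ _) h
    funext s
    simp only [Pi.smul_apply, smul_eq_mul, colv]
    have hs := s.2
    by_cases h0 : s.1 = 0
    · rw [h0]
      have e1 : M (j + 1 + ((0 : ℕ) : ℤ)) j = 1 := by apply hM.one_left; push_cast; ring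
      rw [e1, mul_one, ← hμ1, hμ]
      congr 1
      push_cast; ring
    · rw [hM.zero_right, hM.zero_left, mul_zero]
      · omega
      · omega
      · push_cast; omega
      · push_cast; omega
  -- propagate
  have step : ∀ a : ℤ, colv M k a (j + (k + w + 1 : ℕ)) = (-1 : ℚ) ^ (k - 1) • colv M k a j ↔
      colv M k (a + 1) (j + (k + w + 1 : ℕ)) = (-1 : ℚ) ^ (k - 1) • colv M k (a + 1) j := by
    intro a
    obtain ⟨K, hK, hmul⟩ := exists_transition (by omega) hM a
    rw [hmul, hmul, ← Matrix.mulVec_smul]
    constructor
    · intro h; rw [h]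
    · intro h
      have hu : IsUnit K.det := by rw [hK]; exact isUnit_one
      have := congrArg (K⁻¹).mulVec h
      rw [Matrix.mulVec_mulVec, Matrix.mulVec_mulVec, Matrix.nonsing_inv_mul _ hu,
        Matrix.one_mulVec, Matrix.one_mulVec] at this
      exact this
  have all : ∀ t : ℤ, colv M k (j + 1 + t) (j + (k + w + 1 : ℕ))
      = (-1 : ℚ) ^ (k - 1) • colv M k (j + 1 + t) j := by
    intro t
    induction t using Int.induction_on with
    | zero => rw [add_zero]; exact base
    | succ n ih => rw [← add_assoc]; exact (step _).1 ih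
    | pred n ih =>
      apply (step _).2
      rw [show j + 1 + (-(n : ℤ) - 1) + 1 = j + 1 + -(n : ℤ) by ring]
      exact ih
  have := all (a - (j + 1))
  rw [add_sub_cancel] at this
  exact this

theorem antiperiodic (hk : 2 ≤ k) (hM : IsTameFrieze k w M) (i j : ℤ) :
    M i (j + (k + w + 1 : ℕ)) = (-1 : ℚ) ^ (k - 1) * M i j := by
  have := congrFun (colv_antiperiodic hk hM i j) ⟨0, by omega⟩
  simpa [colv] using this

/-- All entries of the bi-infinite matrix of a frieze with integer values are integers. -/
theorem all_integer (hk : 2 ≤ k) (hM : IsTameFrieze k w M)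
    (hint : ∀ i j : ℤ, 0 ≤ j - i → j - i ≤ w - 1 → ∃ m : ℤ, M i j = m) (i j : ℤ) :
    ∃ m : ℤ, M i j = m := by
  set n : ℤ := ((k + w + 1 : ℕ) : ℤ) with hn
  have hn0 : 0 < n := by rw [hn]; push_cast; omega
  -- window of length n
  have win : ∀ j : ℤ, -(k : ℤ) ≤ j - i → j - i ≤ w → ∃ m : ℤ, M i j = m := by
    intro j h1 h2
    by_cases h3 : j - i ≤ -2
    · exact ⟨0, by rw [hM.zero_left i j h1 h3]; simp⟩
    · by_cases h4 : j - i = -1
      · exact ⟨1, by rw [hM.one_left i j h4]; simp⟩
      · by_cases h5 : j - i = w
        · exact ⟨1, by rw [hM.one_right i j h5]; simp⟩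
        · exact hint i j (by omega) (by omega)
  have shift : ∀ (t j : ℤ), (∃ m : ℤ, M i j = m) → ∃ m : ℤ, M i (j + t * n) = m := by
    intro t
    induction t using Int.induction_on with
    | zero => intro j h; simpa using h
    | succ p ih =>
      intro j h
      obtain ⟨m, hm⟩ := ih j h
      refine ⟨(-1) ^ (k - 1) * m, ?_⟩
      rw [show j + ((p : ℤ) + 1) * n = (j + p * n) + n by ring, antiperiodic hk hM, hm]
      push_cast; ring
    | pred p ih =>
      intro j h
      obtain ⟨m, hm⟩ := ih j h
      refine ⟨(-1) ^ (k - 1) * m, ?_⟩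
      have h1 := antiperiodic hk hM i (j + (-(p : ℤ) - 1) * n)
      rw [show j + (-(p : ℤ) - 1) * n + n = j + -(p : ℤ) * n by ring, hm] at h1
      have h3 : ((-1 : ℚ) ^ (k - 1)) * ((-1) ^ (k - 1)) = 1 := by rw [← mul_pow]; simp
      push_cast
      rw [h1, ← mul_assoc, h3, one_mul]
  -- reduce j modulo n into the window
  have h1 := Int.emod_add_mul_ediv (j - i + k) n
  have h2 := Int.emod_nonneg (j - i + k) hn0.ne'
  have h3 := Int.emod_lt_of_pos (j - i + k) hn0
  have h4 : n = k + w + 1 := by rw [hn]; push_cast; ring
  have := shift ((j - i + k) / n) (i - k + (j - i + k) % n) (win _ (by omega) (by omega))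
  rw [show i - k + (j - i + k) % n + (j - i + k) / n * n = j by linarith] at this
  exact this

end Pool.Agent.helper36
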