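import Mathlib

/-!
Determinants of families of vectors and the Plücker relations behind the exchange relations of the
rectangles seed.
-/

set_option linter.unusedSectionVars false

namespace Pool.Agent.helper36

open Matrix Function

variable {k : ℕ} {R : Type*} [CommRing R]

/-- Determinant of a family of `k` vectors in `R^k`. -/
def dt (v : Fin k → Fin k → R) : R := Matrix.det (Matrix.of v)

theorem dt_eq_alt (v : Fin k → Fin k → R) : dt v = Matrix.detRowAlternating v := rfl

theorem dt_cramer (v : Fin k → Fin k → R) (t : Fin k → R) :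
    dt v • t = ∑ m, dt (update v m t) • v m := by
  have h := Matrix.mulVec_cramer (Matrix.of v)ᵀ t
  rw [Matrix.det_transpose] at h
  have h2 : ∀ m, (Matrix.of v)ᵀ.cramer t m = dt (update v m t) := by
    intro m
    rw [Matrix.cramer_transpose_apply]
    rfl
  rw [dt, ← h]
  ext r
  simp only [Matrix.mulVec, dotProduct, Matrix.transpose_apply, Matrix.of_apply, h2,
    Finset.sum_apply, Pi.smul_apply, smul_eq_mul]
  exact Finset.sum_congr rfl fun m _ => mul_comm _ _

theorem dt_eq_zero {v : Fin k → Fin k → R} {p q : Fin k} (hpq : p ≠ q) (h : v p = v q) :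
    dt v = 0 := by
  rw [dt_eq_alt]
  exact AlternatingMap.map_eq_zero_of_eq _ v h hpq

/-- The value of the determinant with the entries at positions `p`, `q` replaced. -/
def d2 (v : Fin k → Fin k → R) (p q : Fin k) (a b : Fin k → R) : R :=
  dt (update (update v p a) q b)

theorem d2_swap (v : Fin k → Fin k → R) {p q : Fin k} (hpq : p ≠ q) (a b : Fin k → R) :
    d2 v p q a b = -d2 v p q b a := by
  unfold d2
  rw [dt_eq_alt, dt_eq_alt, ← AlternatingMap.map_swap _ _ hpq]
  congr 1
  funext m
  simp only [Function.comp_apply]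
  by_cases hp : m = p
  · subst hp
    rw [Equiv.swap_apply_left, update_self, update_of_ne hpq, update_self]
  · by_cases hq : m = q
    · subst hq
      rw [Equiv.swap_apply_right, update_self, update_of_ne hpq, update_self]
    · rw [Equiv.swap_apply_of_ne_of_ne hp hq, update_of_ne hq, update_of_ne hp, update_of_ne hq,
        update_of_ne hp]

/-- The functional `u ↦ d2 v p q z u` is linear. -/
theorem d2_sum (v : Fin k → Fin k → R) (p q : Fin k) (z : Fin k → R) {ι : Type*}
    (s : Finset ι) (c : ι → R) (u : ι → Fin k → R) :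
    d2 v p q z (∑ i ∈ s, c i • u i) = ∑ i ∈ s, c i * d2 v p q z (u i) := by
  classical
  unfold d2
  simp only [dt_eq_alt]
  induction s using Finset.induction_on with
  | empty =>
    rw [Finset.sum_empty, Finset.sum_empty]
    exact AlternatingMap.map_update_zero _ _ _
  | insert a s ha ih =>
    rw [Finset.sum_insert ha, Finset.sum_insert ha, AlternatingMap.map_update_add,
      AlternatingMap.map_update_smul, ih]
    rfl

theorem d2_smul (v : Fin k → Fin k → R) (p q : Fin k) (z : Fin k → R) (c : R) (u : Fin k → R) :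
    d2 v p q z (c • u) = c * d2 v p q z u := by
  unfold d2
  simp only [dt_eq_alt]
  rw [AlternatingMap.map_update_smul]
  rfl

/-- Three-term Plücker relation. -/
theorem plucker3 (v : Fin k → Fin k → R) {p q : Fin k} (hpq : p ≠ q) (x y z t : Fin k → R) :
    d2 v p q x y * d2 v p q z t - d2 v p q x z * d2 v p q y t + d2 v p q x t * d2 v p q y z = 0 := by
  set v' := update (update v p x) q y with hv'
  have h := dt_cramer v' t
  have h1 : d2 v p q z (dt v' • t) = d2 v p q z (∑ m, dt (update v' m t) • v' m) := by rw [h]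
  rw [d2_smul, d2_sum] at h1
  have h2 : ∑ m, dt (update v' m t) * d2 v p q z (v' m)
      = dt (update v' p t) * d2 v p q z (v' p) + dt (update v' q t) * d2 v p q z (v' q) := by
    rw [← Finset.sum_subset (Finset.subset_univ {p, q})]
    · rw [Finset.sum_pair hpq]
    · intro m _ hm
      simp only [Finset.mem_insert, Finset.mem_singleton, not_or] at hm
      have : d2 v p q z (v' m) = 0 := by
        unfold d2
        apply dt_eq_zero hm.2
        rw [update_self, update_of_ne hm.2, update_of_ne hm.1, hv', update_of_ne hm.2,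
          update_of_ne hm.1]
      rw [this, mul_zero]
  rw [h2] at h1
  have h3 : v' p = x := by rw [hv', update_of_ne hpq, update_self]
  have h4 : v' q = y := by rw [hv', update_self]
  have h5 : dt (update v' p t) = d2 v p q t y := by
    unfold d2
    rw [hv', update_comm hpq.symm, update_idem]
  have h6 : dt (update v' q t) = d2 v p q x t := by
    unfold d2
    rw [hv', update_idem]
  have h7 : dt v' = d2 v p q x y := rfl
  rw [h3, h4, h5, h6, h7] at h1
  have s1 := d2_swap v hpq t y
  have s2 := d2_swap v hpq z x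
  have s3 := d2_swap v hpq z y
  rw [s1, s2, s3] at h1
  linear_combination h1

/-- The value of the determinant with the entries at positions `p`, `q`, `r` replaced. -/
def d3 (v : Fin k → Fin k → R) (p q r : Fin k) (a b c : Fin k → R) : R :=
  dt (update (update (update v p a) q b) r c)

theorem d3_eq_qr (v : Fin k → Fin k → R) (p q r : Fin k) (a b c : Fin k → R) :
    d3 v p q r a b c = d2 (update v p a) q r b c := rfl

theorem d3_eq_pq (v : Fin k → Fin k → R) {p q r : Fin k} (hpr : p ≠ r) (hqr : q ≠ r)
    (a b c : Fin k → R) : d3 v p q r a b c = d2 (update v r c) p q a b := by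
  unfold d3 d2
  rw [update_comm hqr, update_comm hpr]

theorem d3_eq_pr (v : Fin k → Fin k → R) {p q r : Fin k} (hpq : p ≠ q)
    (a b c : Fin k → R) : d3 v p q r a b c = d2 (update v q b) p r a c := by
  unfold d3 d2
  rw [update_comm hpq]

/-- The six-term relation. -/
theorem sixterm (v : Fin k → Fin k → R) {p q r : Fin k} (hpq : p ≠ q) (hpr : p ≠ r) (hqr : q ≠ r)
    (a b c d e f : Fin k → R) :
    d3 v p q r a d e * (d3 v p q r c d f * d3 v p q r a b e - d3 v p q r c d e * d3 v p q r a b f)
      = d3 v p q r a b e * d3 v p q r a c d * d3 v p q r d e f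
        + d3 v p q r c d e * d3 v p q r a e f * d3 v p q r a b d := by
  have r1 := plucker3 (update v q d) hpr a c e f
  have r2 := plucker3 (update v p a) hqr b d e f
  rw [← d3_eq_pr v hpq, ← d3_eq_pr v hpq, ← d3_eq_pr v hpq, ← d3_eq_pr v hpq, ← d3_eq_pr v hpq,
    ← d3_eq_pr v hpq] at r1
  rw [← d3_eq_qr, ← d3_eq_qr, ← d3_eq_qr, ← d3_eq_qr, ← d3_eq_qr, ← d3_eq_qr] at r2
  have s1 : d3 v p q r a d c = -d3 v p q r a c d := by
    rw [d3_eq_qr, d3_eq_qr, d2_swap _ hqr]
  have s2 : d3 v p q r e d f = -d3 v p q r d e f := by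
    rw [d3_eq_pq v hpr hqr, d3_eq_pq v hpr hqr, d2_swap _ hpq]
  rw [s1, s2] at r1
  linear_combination (-d3 v p q r a b e) * r1 + (-d3 v p q r c d e) * r2

/-- The five-letter relation. -/
theorem fiveterm (v : Fin k → Fin k → R) {p q r : Fin k} (hpq : p ≠ q) (hpr : p ≠ r) (hqr : q ≠ r)
    (a b d e f : Fin k → R) :
    d3 v p q r a d e * d3 v p q r b e f
      = d3 v p q r a b e * d3 v p q r d e f + d3 v p q r b d e * d3 v p q r a e f := by
  have r1 := plucker3 (update v r e) hpq a b d f
  rw [← d3_eq_pq v hpr hqr, ← d3_eq_pq v hpr hqr, ← d3_eq_pq v hpr hqr, ← d3_eq_pq v hpr hqr,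
    ← d3_eq_pq v hpr hqr, ← d3_eq_pq v hpr hqr] at r1
  have s1 : ∀ u, d3 v p q r u f e = -d3 v p q r u e f := by
    intro u
    rw [d3_eq_qr, d3_eq_qr, d2_swap _ hqr]
  rw [s1, s1, s1] at r1
  linear_combination r1

end Pool.Agent.helper36
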