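import Mathlib
import Pool.Agent.helper36.Plucker

/-!
Irreducibility of generic minors.
-/

set_option linter.unusedSectionVars false

namespace Pool.Agent.helper36

open Matrix MvPolynomial

theorem det_mem_subring {n : ℕ} {R : Type*} [CommRing R] (S : Subring R)
    (A : Matrix (Fin n) (Fin n) R) (h : ∀ i j, A i j ∈ S) : A.det ∈ S := by
  rw [Matrix.det_apply]
  refine S.sum_mem fun σ _ => ?_
  rw [Units.smul_def]
  exact S.zsmul_mem (S.prod_mem fun i _ => h _ _) _

section

variable {α β : Type} [DecidableEq α] [DecidableEq β]

/-- The generic minor. -/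
noncomputable def gmin {m : ℕ} (ρ : Fin m → α) (c : Fin m → β) : MvPolynomial (α × β) ℤ :=
  Matrix.det (Matrix.of fun a b => X (ρ b, c a))

theorem gmin_vars {m : ℕ} (ρ : Fin m → α) (c : Fin m → β) (i : α × β)
    (h : ∀ a b, (ρ b, c a) ≠ i) : i ∉ (gmin ρ c).vars := by
  have h1 : gmin ρ c ∈ (supported ℤ {p : α × β | p ≠ i}).toSubring := by
    apply det_mem_subring
    intro a b
    rw [Matrix.of_apply]
    exact X_mem_supported.2 (h a b)
  have h2 : gmin ρ c ∈ supported ℤ {p : α × β | p ≠ i} := h1
  rw [mem_supported] at h2
  intro hi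
  exact h2 hi rfl

theorem gmin_irreducible (m : ℕ) : ∀ (ρ : Fin (m + 1) → α) (c : Fin (m + 1) → β),
    Function.Injective ρ → Function.Injective c → Irreducible (gmin ρ c) := by
  induction m with
  | zero =>
    intro ρ c _ _
    unfold gmin
    rw [Matrix.det_fin_one, Matrix.of_apply]
    exact X_prime.irreducible
  | succ m ih =>
    intro ρ c hρ hc
    set f := gmin (ρ ∘ Fin.succ) (c ∘ Fin.succ) with hf
    have hfirr : Irreducible f :=
      ih _ _ (hρ.comp (Fin.succ_injective _)) (hc.comp (Fin.succ_injective _))
    set g : MvPolynomial (α × β) ℤ := ∑ j : Fin (m + 1), (-1) ^ (j.succ : ℕ) *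
      X (ρ j.succ, c 0) * gmin (ρ ∘ j.succ.succAbove) (c ∘ Fin.succ) with hg
    have hdet : gmin ρ c = f * X (ρ 0, c 0) + g := by
      unfold gmin
      rw [Matrix.det_succ_row_zero, Fin.sum_univ_succ]
      congr 1
      simp only [Fin.val_zero, pow_zero, one_mul, Matrix.of_apply]
      rw [mul_comm, hf]
      unfold gmin
      congr 1
    rw [hdet]
    apply irreducible_mul_X_add
    · exact hfirr.ne_zero
    · apply gmin_vars
      intro a b h
      have := congrArg Prod.fst h
      exact Fin.succ_ne_zero b (hρ this)
    · intro hi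
      have h1 : g ∈ supported ℤ {p : α × β | p ≠ (ρ 0, c 0)} := by
        rw [hg]
        refine Subalgebra.sum_mem _ fun j _ => ?_
        refine Subalgebra.mul_mem _ (Subalgebra.mul_mem _ ?_ ?_) ?_
        · exact Subalgebra.pow_mem _ (Subalgebra.neg_mem _ (Subalgebra.one_mem _)) _
        · refine X_mem_supported.2 ?_
          intro h
          exact Fin.succ_ne_zero j (hρ (congrArg Prod.fst h))
        · rw [mem_supported]
          intro p hp hpe
          rw [hpe] at hp
          revert hp
          apply gmin_vars
          intro a b h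
          exact Fin.succ_ne_zero a (hc (congrArg Prod.snd h))
      rw [mem_supported] at h1
      exact h1 hi rfl
    · rw [hfirr.isRelPrime_iff_not_dvd]
      rintro ⟨q, hq⟩
      -- evaluate at the permutation matrix of the transposition
      set σ : Equiv.Perm (Fin (m + 1 + 1)) := Equiv.swap 0 1 with hσ
      set val : α × β → ℤ := fun p => if ∃ a, p.1 = ρ (σ a) ∧ p.2 = c a then 1 else 0 with hval
      have hvab : ∀ a b, val (ρ b, c a) = if b = σ a then 1 else 0 := by
        intro a b
        rw [hval]
        dsimp only
        by_cases h : b = σ a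
        · rw [if_pos h, if_pos ⟨a, by rw [h], rfl⟩]
        · rw [if_neg h, if_neg]
          rintro ⟨a', h1, h2⟩
          apply h
          rw [hc h2]
          exact hρ h1
      set φ : MvPolynomial (α × β) ℤ →+* ℤ := MvPolynomial.eval val with hφ
      have h1 : φ (gmin ρ c) = -1 := by
        unfold gmin
        rw [RingHom.map_det]
        have : φ.mapMatrix (Matrix.of fun a b => X (ρ b, c a))
            = (1 : Matrix (Fin (m + 1 + 1)) (Fin (m + 1 + 1)) ℤ).submatrix σ id := by
          ext a b
          simp only [RingHom.mapMatrix_apply, Matrix.map_apply, Matrix.of_apply, hφ,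
            MvPolynomial.eval_X, Matrix.submatrix_apply, id_eq, Matrix.one_apply]
          rw [hvab]
          simp only [eq_comm]
        rw [this, Matrix.det_permute, hσ, Equiv.Perm.sign_swap (by simp)]
        simp
      have h2 : φ f = 0 := by
        rw [hf]
        unfold gmin
        rw [RingHom.map_det]
        apply Matrix.det_eq_zero_of_row_eq_zero 0
        intro b
        simp only [RingHom.mapMatrix_apply, Matrix.map_apply, Matrix.of_apply, hφ,
          MvPolynomial.eval_X, Function.comp_apply]
        rw [hvab, if_neg]
        rw [hσ]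
        have : (Fin.succ 0 : Fin (m + 1 + 1)) = 1 := rfl
        rw [this, Equiv.swap_apply_right]
        exact Fin.succ_ne_zero b
      have h3 : φ g = 0 := by rw [hq, map_mul, h2, zero_mul]
      rw [hdet, map_add, map_mul, h2, h3] at h1
      norm_num at h1

end

end Pool.Agent.helper36
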