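import Mathlib
import Pool.Agent.helper36.ClusterDefs

/-!
Basic facts on values of rational functions at a point.
-/

namespace Pool.Agent.helper36

section Ev

set_option linter.unusedSectionVars false

variable {R F K : Type*} [CommRing R] [IsDomain R] [Field F] [Algebra R F]
  [IsFractionRing R F] [Field K] {φ : R →+* K} {z z' : F} {c c' : K}

theorem Ev.unique (h : Ev φ z c) (h' : Ev φ z c') : c = c' := by
  obtain ⟨p, q, hq, hz, hc⟩ := h
  obtain ⟨p', q', hq', hz', hc'⟩ := h'
  have hinj := IsFractionRing.injective R F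
  have h1 : p * q' = p' * q := by
    apply hinj
    rw [map_mul, map_mul, ← hz, ← hz']; ring
  have h2 : φ p * φ q' = φ p' * φ q := by rw [← map_mul, ← map_mul, h1]
  rw [← hc, ← hc'] at h2
  have h3 : c * (φ q * φ q') = c' * (φ q * φ q') := by linear_combination h2
  exact mul_right_cancel₀ (mul_ne_zero hq hq') h3

theorem Ev.add (h : Ev φ z c) (h' : Ev φ z' c') : Ev φ (z + z') (c + c') := by
  obtain ⟨p, q, hq, hz, hc⟩ := h
  obtain ⟨p', q', hq', hz', hc'⟩ := h'
  refine ⟨p * q' + p' * q, q * q', by simp [hq, hq'], ?_, ?_⟩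
  · simp only [map_mul, map_add, ← hz, ← hz']; ring
  · simp only [map_mul, map_add, ← hc, ← hc']; ring

theorem Ev.mul (h : Ev φ z c) (h' : Ev φ z' c') : Ev φ (z * z') (c * c') := by
  obtain ⟨p, q, hq, hz, hc⟩ := h
  obtain ⟨p', q', hq', hz', hc'⟩ := h'
  refine ⟨p * p', q * q', by simp [hq, hq'], ?_, ?_⟩
  · simp only [map_mul, ← hz, ← hz']; ring
  · simp only [map_mul, ← hc, ← hc']; ring

theorem Ev.of (r : R) : Ev φ (algebraMap R F r) (φ r) :=
  ⟨r, 1, by simp, by simp, by simp⟩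

theorem Ev.one : Ev φ (1 : F) (1 : K) := by simpa using Ev.of (F := F) (φ := φ) (1 : R)

theorem Ev.zero : Ev φ (0 : F) (0 : K) := by simpa using Ev.of (F := F) (φ := φ) (0 : R)

theorem Ev.ne_zero (h : Ev φ z c) (hc : c ≠ 0) : z ≠ 0 := by
  rintro rfl
  exact hc (h.unique Ev.zero)

theorem Ev.div (h : Ev φ z c) (h' : Ev φ z' c') (hc' : c' ≠ 0) : Ev φ (z / z') (c / c') := by
  have hz0 : z' ≠ 0 := h'.ne_zero hc'
  obtain ⟨p, q, hq, hz, hc⟩ := h
  obtain ⟨p', q', hq', hz', hc1⟩ := h'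
  have hp' : φ p' ≠ 0 := by rw [← hc1]; exact mul_ne_zero hc' hq'
  refine ⟨p * q', q * p', by simp [hq, hp'], ?_, ?_⟩
  · simp only [map_mul, ← hz, ← hz']; field_simp
  · simp only [map_mul, ← hc, ← hc1]; field_simp

theorem Ev.pow (h : Ev φ z c) (n : ℕ) : Ev φ (z ^ n) (c ^ n) := by
  induction n with
  | zero => simpa using Ev.one
  | succ n ih => rw [pow_succ, pow_succ]; exact ih.mul h

theorem Ev.prod {ι : Type*} (s : Finset ι) {f : ι → F} {g : ι → K}
    (h : ∀ i ∈ s, Ev φ (f i) (g i)) : Ev φ (∏ i ∈ s, f i) (∏ i ∈ s, g i) := by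
  classical
  induction s using Finset.induction_on with
  | empty => simpa using Ev.one
  | insert a s ha ih =>
    rw [Finset.prod_insert ha, Finset.prod_insert ha]
    exact (h a (by simp)).mul (ih fun i hi => h i (by simp [hi]))

end Ev

end Pool.Agent.helper36
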