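import Mathlib
import Pool.Agent.helper36.Seed

/-!
Basic properties of seed mutation.
-/

set_option linter.unusedSectionVars false

namespace Pool.Agent.helper36

namespace Seed

variable {V K : Type*} [Fintype V] [DecidableEq V] [Field K]

@[simp] theorem run_nil (s : Seed V K) : s.run [] = s := rfl

@[simp] theorem run_cons (s : Seed V K) (k : V) (l : List V) :
    s.run (k :: l) = (s.mutate k).run l := rfl

/-- The exchange matrix of a seed is skew-symmetric. -/
def Skew (s : Seed V K) : Prop := ∀ i j, s.B i j = -s.B j i

theorem Skew.diag {s : Seed V K} (hs : s.Skew) (i : V) : s.B i i = 0 := by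
  have := hs i i
  omega

theorem Skew.mutate {s : Seed V K} (hs : s.Skew) (k : V) : (s.mutate k).Skew := by
  intro i j
  simp only [Seed.mutate]
  by_cases h : i = k ∨ j = k
  · rw [if_pos h, if_pos (by tauto), hs i j]
  · rw [if_neg h, if_neg (by tauto), hs i j, hs i k, hs j k]
    simp only [neg_neg]
    ring

theorem Skew.run {s : Seed V K} (hs : s.Skew) (l : List V) : (s.run l).Skew := by
  induction l generalizing s with
  | nil => exact hs
  | cons k l ih => exact ih (hs.mutate k)

/-- A predicate closed under subtraction-free operations and excluding zero. -/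
structure PosLike (P : K → Prop) : Prop where
  one : P 1
  add : ∀ {a b}, P a → P b → P (a + b)
  mul : ∀ {a b}, P a → P b → P (a * b)
  div : ∀ {a b}, P a → P b → P (a / b)
  ne_zero : ∀ {a}, P a → a ≠ 0

theorem PosLike.pow {P : K → Prop} (hP : PosLike P) {a : K} (ha : P a) (n : ℕ) : P (a ^ n) := by
  induction n with
  | zero => simpa using hP.one
  | succ n ih => rw [pow_succ]; exact hP.mul ih ha

theorem PosLike.prod {P : K → Prop} (hP : PosLike P) {ι : Type*} (s : Finset ι) {f : ι → K}
    (h : ∀ i ∈ s, P (f i)) : P (∏ i ∈ s, f i) := by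
  classical
  induction s using Finset.induction_on with
  | empty => simpa using hP.one
  | insert a s ha ih =>
    rw [Finset.prod_insert ha]
    exact hP.mul (h a (by simp)) (ih fun i hi => h i (by simp [hi]))

theorem PosLike.exch {P : K → Prop} (hP : PosLike P) {s : Seed V K} (hs : ∀ v, P (s.x v))
    (k : V) : P (s.exch k) :=
  hP.add (hP.prod _ fun _ _ => hP.pow (hs _) _) (hP.prod _ fun _ _ => hP.pow (hs _) _)

theorem PosLike.mutate {P : K → Prop} (hP : PosLike P) {s : Seed V K} (hs : ∀ v, P (s.x v))
    (k : V) : ∀ v, P ((s.mutate k).x v) := by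
  intro v
  simp only [Seed.mutate]
  by_cases h : v = k
  · subst h
    rw [Function.update_self]
    exact hP.div (hP.exch hs _) (hs _)
  · rw [Function.update_of_ne h]
    exact hs v

theorem PosLike.run {P : K → Prop} (hP : PosLike P) {s : Seed V K} (hs : ∀ v, P (s.x v))
    (l : List V) : ∀ v, P ((s.run l).x v) := by
  induction l generalizing s with
  | nil => exact hs
  | cons k l ih => exact ih (hP.mutate hs k)

@[simp] theorem mutate_x_self (s : Seed V K) (k : V) :
    (s.mutate k).x k = s.exch k / s.x k := by simp [Seed.mutate]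

theorem mutate_x_of_ne (s : Seed V K) {k v : V} (h : v ≠ k) :
    (s.mutate k).x v = s.x v := by simp [Seed.mutate, h]

theorem mutate_B_left (s : Seed V K) (k j : V) : (s.mutate k).B k j = -s.B k j := by
  simp [Seed.mutate]

theorem mutate_B_right (s : Seed V K) (k i : V) : (s.mutate k).B i k = -s.B i k := by
  simp [Seed.mutate]

theorem mutate_B_of_ne (s : Seed V K) {k i j : V} (hi : i ≠ k) (hj : j ≠ k) :
    (s.mutate k).B i j = s.B i j + max (s.B i k) 0 * max (s.B k j) 0
      - max (-s.B i k) 0 * max (-s.B k j) 0 := by
  simp [Seed.mutate, hi, hj]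

theorem ext' {s t : Seed V K} (hB : ∀ i j, s.B i j = t.B i j) (hx : ∀ v, s.x v = t.x v) :
    s = t := by
  cases s; cases t
  simp only [Seed.mk.injEq]
  exact ⟨funext fun i => funext fun j => hB i j, funext fun v => hx v⟩

/-- The exchange binomial at `k` only depends on the variables joined to `k`. -/
theorem exch_congr {s t : Seed V K} {k : V}
    (h : ∀ i, (s.B i k = t.B i k ∨ s.B i k = - t.B i k) )
    (hsign : (∀ i, s.B i k = t.B i k) ∨ (∀ i, s.B i k = - t.B i k))
    (hx : ∀ i, t.B i k ≠ 0 → s.x i = t.x i) : s.exch k = t.exch k := by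
  have key : ∀ i, (s.B i k).toNat = 0 ∧ (t.B i k).toNat = 0 ∧ (-s.B i k).toNat = 0
      ∧ (-t.B i k).toNat = 0 ∨ s.x i = t.x i := by
    intro i
    by_cases h0 : t.B i k = 0
    · left
      rcases h i with h1 | h1 <;> simp [h1, h0]
    · right; exact hx i h0
  unfold Seed.exch
  rcases hsign with hs | hs
  · congr 1
    · refine Finset.prod_congr rfl fun i _ => ?_
      rcases key i with ⟨h1, h2, _, _⟩ | h1
      · rw [h1, h2]; simp
      · rw [h1, hs i]
    · refine Finset.prod_congr rfl fun i _ => ?_
      rcases key i with ⟨_, _, h1, h2⟩ | h1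
      · rw [h1, h2]; simp
      · rw [h1, hs i]
  · rw [add_comm]
    congr 1
    · refine Finset.prod_congr rfl fun i _ => ?_
      rcases key i with ⟨h1, h2, h3, h4⟩ | h1
      · rw [h2, h3]; simp
      · rw [h1, hs i, neg_neg]
    · refine Finset.prod_congr rfl fun i _ => ?_
      rcases key i with ⟨h1, _, _, h2⟩ | h1
      · rw [h1, h2]; simp
      · rw [h1, hs i]

/-- Mutation is an involution. -/
theorem mutate_mutate {s : Seed V K} (hs : s.Skew) (k : V) (hk : s.x k ≠ 0)
    (he : s.exch k ≠ 0) : (s.mutate k).mutate k = s := by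
  have hd : s.B k k = 0 := hs.diag k
  apply ext'
  · intro i j
    by_cases h : i = k ∨ j = k
    · rcases h with rfl | rfl
      · rw [mutate_B_left, mutate_B_left, neg_neg]
      · rw [mutate_B_right, mutate_B_right, neg_neg]
    · push Not at h
      rw [mutate_B_of_ne _ h.1 h.2, mutate_B_of_ne _ h.1 h.2, mutate_B_left, mutate_B_right]
      simp only [neg_neg]
      ring
  · intro v
    by_cases h : v = k
    · subst h
      rw [mutate_x_self, mutate_x_self]
      have : (s.mutate v).exch v = s.exch v := by
        apply exch_congr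
        · intro i; right; exact mutate_B_right s v i
        · right; exact mutate_B_right s v
        · intro i hi
          apply mutate_x_of_ne
          rintro rfl
          exact hi hd
      rw [this]
      field_simp
    · rw [mutate_x_of_ne _ h, mutate_x_of_ne _ h]

/-- Mutations at unrelated vertices commute. -/
theorem mutate_comm {s : Seed V K} (hs : s.Skew) {j k : V} (hjk : j ≠ k) (h0 : s.B j k = 0) :
    (s.mutate j).mutate k = (s.mutate k).mutate j := by
  have h0' : s.B k j = 0 := by rw [hs k j, h0, neg_zero]
  have hdj := hs.diag j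
  have hdk := hs.diag k
  have hBj : ∀ i, (s.mutate j).B i k = s.B i k := by
    intro i
    by_cases hi : i = j
    · subst hi; rw [mutate_B_left, h0, neg_zero]
    · rw [mutate_B_of_ne _ hi hjk.symm, h0]; simp
  have hBk : ∀ i, (s.mutate k).B i j = s.B i j := by
    intro i
    by_cases hi : i = k
    · subst hi; rw [mutate_B_left, h0', neg_zero]
    · rw [mutate_B_of_ne _ hi hjk, h0']; simp
  have hBj' : ∀ i, (s.mutate j).B k i = s.B k i := by
    intro i
    rw [(hs.mutate j) k i, hBj, hs k i]
  have hBk' : ∀ i, (s.mutate k).B j i = s.B j i := by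
    intro i
    rw [(hs.mutate k) j i, hBk, hs j i]
  apply ext'
  · intro i i'
    by_cases hij : i = j
    · subst hij
      rw [mutate_B_left]
      by_cases hi'k : i' = k
      · subst hi'k
        rw [mutate_B_right, mutate_B_left, mutate_B_right]
      · rw [mutate_B_of_ne _ hjk hi'k, hBk' i', mutate_B_left, mutate_B_left, h0]
        simp
    · by_cases hik : i = k
      · subst hik
        rw [mutate_B_left, hBj']
        by_cases hi'j : i' = j
        · subst hi'j
          rw [mutate_B_right, mutate_B_left, h0']
          simp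
        · rw [mutate_B_of_ne _ hjk.symm hi'j, mutate_B_left, mutate_B_left, h0']
          simp
      · by_cases hi'j : i' = j
        · subst hi'j
          rw [mutate_B_right (s.mutate k), hBk, mutate_B_of_ne (s.mutate i') hik hjk,
            mutate_B_right, hBj, hBj', h0']
          simp
        · by_cases hi'k : i' = k
          · subst hi'k
            rw [mutate_B_right (s.mutate j), hBj, mutate_B_of_ne (s.mutate i') hij hjk.symm,
              mutate_B_right, hBk, hBk', h0]
            simp
          · rw [mutate_B_of_ne (s.mutate j) hik hi'k, mutate_B_of_ne s hij hi'j, hBj, hBj',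
              mutate_B_of_ne (s.mutate k) hij hi'j, hBk, hBk', mutate_B_of_ne s hik hi'k]
            ring
  · intro v
    by_cases hvj : v = j
    · subst hvj
      rw [mutate_x_of_ne _ hjk, mutate_x_self, mutate_x_self, mutate_x_of_ne _ hjk]
      congr 1
      symm
      apply exch_congr
      · intro i; left; exact hBk i
      · left; exact hBk
      · intro i hi
        apply mutate_x_of_ne
        rintro rfl
        exact hi h0'
    · by_cases hvk : v = k
      · subst hvk
        rw [mutate_x_self, mutate_x_of_ne _ hvj, mutate_x_of_ne _ hvj, mutate_x_self]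
        congr 1
        apply exch_congr
        · intro i; left; exact hBj i
        · left; exact hBj
        · intro i hi
          apply mutate_x_of_ne
          rintro rfl
          exact hi h0
      · rw [mutate_x_of_ne _ hvk, mutate_x_of_ne _ hvj, mutate_x_of_ne _ hvj,
          mutate_x_of_ne _ hvk]

/-- Changing the sign of the exchange matrix. -/
def neg (s : Seed V K) : Seed V K := ⟨fun i j => -s.B i j, s.x⟩

theorem neg_exch (s : Seed V K) (k : V) : s.neg.exch k = s.exch k := by
  unfold Seed.exch neg
  simp only [neg_neg]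
  rw [add_comm]

theorem neg_mutate (s : Seed V K) (k : V) : s.neg.mutate k = (s.mutate k).neg := by
  apply ext'
  · intro i j
    by_cases h : i = k ∨ j = k
    · rcases h with rfl | rfl
      · rw [mutate_B_left]; simp only [neg]; rw [mutate_B_left]
      · rw [mutate_B_right]; simp only [neg]; rw [mutate_B_right]
    · push Not at h
      rw [mutate_B_of_ne _ h.1 h.2]
      simp only [neg]
      rw [mutate_B_of_ne _ h.1 h.2]
      simp only [neg_neg]
      ring
  · intro v
    by_cases h : v = k
    · subst h
      rw [mutate_x_self, neg_exch]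
      simp only [neg]
      rw [mutate_x_self]
    · rw [mutate_x_of_ne _ h]
      simp only [neg]
      rw [mutate_x_of_ne _ h]

theorem neg_run (s : Seed V K) (l : List V) : s.neg.run l = (s.run l).neg := by
  induction l generalizing s with
  | nil => rfl
  | cons k l ih => rw [run_cons, run_cons, neg_mutate, ih]

end Seed

open Seed

section EvRun

variable {V R F K : Type*} [Fintype V] [DecidableEq V] [CommRing R] [IsDomain R] [Field F]
  [Algebra R F] [IsFractionRing R F] [Field K] {φ : R →+* K}

theorem Ev.exch {s : Seed V F} {t : Seed V K} (hB : s.B = t.B) (hx : ∀ v, Ev φ (s.x v) (t.x v))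
    (k : V) : Ev φ (s.exch k) (t.exch k) := by
  unfold Seed.exch
  rw [hB]
  exact (Ev.prod _ fun _ _ => (hx _).pow _).add (Ev.prod _ fun _ _ => (hx _).pow _)

theorem Ev.run {P : K → Prop} (hP : PosLike P) {s : Seed V F} {t : Seed V K} (hB : s.B = t.B)
    (hx : ∀ v, Ev φ (s.x v) (t.x v)) (ht : ∀ v, P (t.x v)) (l : List V) :
    (s.run l).B = (t.run l).B ∧ ∀ v, Ev φ ((s.run l).x v) ((t.run l).x v) := by
  induction l generalizing s t with
  | nil => exact ⟨hB, hx⟩
  | cons k l ih =>
    rw [run_cons, run_cons]
    apply ih
    · simp only [Seed.mutate, hB]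
    · intro v
      by_cases h : v = k
      · subst h
        rw [mutate_x_self, mutate_x_self]
        exact (Ev.exch hB hx v).div (hx v) (hP.ne_zero (ht v))
      · rw [mutate_x_of_ne _ h, mutate_x_of_ne _ h]
        exact hx v
    · exact hP.mutate ht k

/-- Elements regular at `φ` with positive rational value. -/
theorem posLike_ev (φ : R →+* ℚ) : PosLike (K := F) (fun z => ∃ c : ℚ, 0 < c ∧ Ev φ z c) where
  one := ⟨1, one_pos, Ev.one⟩
  add := by
    rintro a b ⟨c, hc, h⟩ ⟨c', hc', h'⟩
    exact ⟨c + c', add_pos hc hc', h.add h'⟩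
  mul := by
    rintro a b ⟨c, hc, h⟩ ⟨c', hc', h'⟩
    exact ⟨c * c', mul_pos hc hc', h.mul h'⟩
  div := by
    rintro a b ⟨c, hc, h⟩ ⟨c', hc', h'⟩
    exact ⟨c / c', div_pos hc hc', h.div h' hc'.ne'⟩
  ne_zero := by
    rintro a ⟨c, hc, h⟩
    exact h.ne_zero hc.ne'

end EvRun

end Pool.Agent.helper36
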