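import Mathlib
import Pool.Agent.helper36.Mutation

/-!
Elements of the fraction field which are integral, units, or in the maximal ideal at a prime `π`.
-/

set_option linter.unusedSectionVars false

namespace Pool.Agent.helper36

open Seed

section

variable {R F : Type*} [CommRing R] [IsDomain R] [Field F] [Algebra R F] [IsFractionRing R F]

/-- `π`-integral elements. -/
def IO (π : R) (z : F) : Prop :=
  ∃ p q : R, ¬ π ∣ q ∧ z * algebraMap R F q = algebraMap R F p

/-- `π`-units. -/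
def IU (π : R) (z : F) : Prop :=
  ∃ p q : R, ¬ π ∣ p ∧ ¬ π ∣ q ∧ z * algebraMap R F q = algebraMap R F p

/-- Elements divisible by `π`. -/
def IM (π : R) (z : F) : Prop :=
  ∃ p q : R, π ∣ p ∧ ¬ π ∣ q ∧ z * algebraMap R F q = algebraMap R F p

variable {π : R} {z z' : F}

theorem ne_zero_of_not_dvd {q : R} (h : ¬ π ∣ q) : algebraMap R F q ≠ 0 := by
  intro h0
  apply h
  have : q = 0 := (map_eq_zero_iff _ (IsFractionRing.injective R F)).1 h0
  rw [this]; exact dvd_zero _

theorem IU.io (h : IU π z) : IO π z := by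
  obtain ⟨p, q, _, hq, hz⟩ := h
  exact ⟨p, q, hq, hz⟩

theorem IM.io (h : IM π z) : IO π z := by
  obtain ⟨p, q, _, hq, hz⟩ := h
  exact ⟨p, q, hq, hz⟩

theorem IO.of (hπ : Prime π) (r : R) : IO π (algebraMap R F r) :=
  ⟨r, 1, fun h => hπ.not_isUnit (isUnit_of_dvd_one h), by simp⟩

theorem IU.of (hπ : Prime π) {r : R} (hr : ¬ π ∣ r) : IU π (algebraMap R F r) :=
  ⟨r, 1, hr, fun h => hπ.not_isUnit (isUnit_of_dvd_one h), by simp⟩

theorem IM.of (hπ : Prime π) {r : R} (hr : π ∣ r) : IM π (algebraMap R F r) :=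
  ⟨r, 1, hr, fun h => hπ.not_isUnit (isUnit_of_dvd_one h), by simp⟩

theorem IU.one (hπ : Prime π) : IU π (1 : F) := by
  have := IU.of (F := F) hπ (r := 1) (fun h => hπ.not_isUnit (isUnit_of_dvd_one h))
  simpa using this

theorem IO.cases (h : IO π z) : IU π z ∨ IM π z := by
  obtain ⟨p, q, hq, hz⟩ := h
  by_cases hp : π ∣ p
  · right; exact ⟨p, q, hp, hq, hz⟩
  · left; exact ⟨p, q, hp, hq, hz⟩

theorem IU.ne_zero (h : IU π z) : z ≠ 0 := by
  obtain ⟨p, q, hp, hq, hz⟩ := h
  rintro rfl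
  rw [zero_mul] at hz
  exact ne_zero_of_not_dvd (F := F) hp hz.symm

theorem IO.add (hπ : Prime π) (h : IO π z) (h' : IO π z') : IO π (z + z') := by
  obtain ⟨p, q, hq, hz⟩ := h
  obtain ⟨p', q', hq', hz'⟩ := h'
  refine ⟨p * q' + p' * q, q * q', ?_, ?_⟩
  · intro h; rcases hπ.dvd_or_dvd h with h | h <;> contradiction
  · simp only [map_mul, map_add, ← hz, ← hz']; ring

theorem IO.mul (hπ : Prime π) (h : IO π z) (h' : IO π z') : IO π (z * z') := by
  obtain ⟨p, q, hq, hz⟩ := h
  obtain ⟨p', q', hq', hz'⟩ := h'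
  refine ⟨p * p', q * q', ?_, ?_⟩
  · intro h; rcases hπ.dvd_or_dvd h with h | h <;> contradiction
  · simp only [map_mul, ← hz, ← hz']; ring

theorem IO.neg (h : IO π z) : IO π (-z) := by
  obtain ⟨p, q, hq, hz⟩ := h
  refine ⟨-p, q, hq, ?_⟩
  simp only [map_neg, ← hz]; ring

theorem IU.mul (hπ : Prime π) (h : IU π z) (h' : IU π z') : IU π (z * z') := by
  obtain ⟨p, q, hp, hq, hz⟩ := h
  obtain ⟨p', q', hp', hq', hz'⟩ := h'
  refine ⟨p * p', q * q', ?_, ?_, ?_⟩
  · intro h; rcases hπ.dvd_or_dvd h with h | h <;> contradiction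
  · intro h; rcases hπ.dvd_or_dvd h with h | h <;> contradiction
  · simp only [map_mul, ← hz, ← hz']; ring

theorem IU.inv (h : IU π z) : IU π (z⁻¹) := by
  have h0 := h.ne_zero
  obtain ⟨p, q, hp, hq, hz⟩ := h
  refine ⟨q, p, hq, hp, ?_⟩
  rw [← hz]; field_simp

theorem IU.div (hπ : Prime π) (h : IU π z) (h' : IU π z') : IU π (z / z') := by
  rw [div_eq_mul_inv]; exact h.mul hπ h'.inv

theorem IM.mul_io (hπ : Prime π) (h : IM π z) (h' : IO π z') : IM π (z * z') := by
  obtain ⟨p, q, hp, hq, hz⟩ := h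
  obtain ⟨p', q', hq', hz'⟩ := h'
  refine ⟨p * p', q * q', Dvd.dvd.mul_right hp _, ?_, ?_⟩
  · intro h; rcases hπ.dvd_or_dvd h with h | h <;> contradiction
  · simp only [map_mul, ← hz, ← hz']; ring

theorem IU.add_im (hπ : Prime π) (h : IU π z) (h' : IM π z') : IU π (z + z') := by
  obtain ⟨p, q, hp, hq, hz⟩ := h
  obtain ⟨p', q', hp', hq', hz'⟩ := h'
  refine ⟨p * q' + p' * q, q * q', ?_, ?_, ?_⟩
  · intro h
    have h1 : π ∣ p * q' := (dvd_add_left (Dvd.dvd.mul_right hp' q)).1 h
    rcases hπ.dvd_or_dvd h1 with h | h <;> contradiction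
  · intro h; rcases hπ.dvd_or_dvd h with h | h <;> contradiction
  · simp only [map_mul, map_add, ← hz, ← hz']; ring

theorem IU.pow (hπ : Prime π) (h : IU π z) (n : ℕ) : IU π (z ^ n) := by
  induction n with
  | zero => simpa using IU.one hπ
  | succ n ih => rw [pow_succ]; exact ih.mul hπ h

theorem IO.pow (hπ : Prime π) (h : IO π z) (n : ℕ) : IO π (z ^ n) := by
  induction n with
  | zero => simpa using (IU.one hπ).io
  | succ n ih => rw [pow_succ]; exact ih.mul hπ h

theorem IM.pow (hπ : Prime π) (h : IM π z) {n : ℕ} (hn : n ≠ 0) : IM π (z ^ n) := by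
  obtain ⟨m, rfl⟩ := Nat.exists_eq_succ_of_ne_zero hn
  rw [Nat.succ_eq_add_one, pow_succ, mul_comm]
  exact h.mul_io hπ (h.io.pow hπ m)

theorem IU.zpow (hπ : Prime π) (h : IU π z) (n : ℤ) : IU π (z ^ n) := by
  cases n with
  | ofNat n => rw [Int.ofNat_eq_natCast, zpow_natCast]; exact h.pow hπ n
  | negSucc n => rw [zpow_negSucc]; exact (h.pow hπ _).inv

theorem IU.prod (hπ : Prime π) {ι : Type*} (s : Finset ι) {f : ι → F}
    (h : ∀ i ∈ s, IU π (f i)) : IU π (∏ i ∈ s, f i) := by
  classical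
  induction s using Finset.induction_on with
  | empty => simpa using IU.one hπ
  | insert a s ha ih =>
    rw [Finset.prod_insert ha]
    exact (h a (by simp)).mul hπ (ih fun i hi => h i (by simp [hi]))

theorem IO.sum (hπ : Prime π) {ι : Type*} (s : Finset ι) {f : ι → F}
    (h : ∀ i ∈ s, IO π (f i)) : IO π (∑ i ∈ s, f i) := by
  classical
  induction s using Finset.induction_on with
  | empty =>
    have := IO.of (F := F) hπ 0
    simpa using this
  | insert a s ha ih =>
    rw [Finset.sum_insert ha]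
    exact (h a (by simp)).add hπ (ih fun i hi => h i (by simp [hi]))

/-- The subring of `π`-integral elements. -/
def ioSubring (hπ : Prime π) : Subring F where
  carrier := {z | IO π z}
  mul_mem' := fun ha hb => IO.mul hπ ha hb
  one_mem' := (IU.one hπ).io
  add_mem' := fun ha hb => IO.add hπ ha hb
  zero_mem' := by
    have := IO.of (F := F) hπ 0
    simpa using this
  neg_mem' := fun ha => IO.neg ha

end

/-- Laurent monomials. -/
def mon {V F : Type*} [Fintype V] [Field F] (x : V → F) (e : V → ℤ) : F := ∏ i, x i ^ e i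

section mon

variable {V F : Type*} [Fintype V] [DecidableEq V] [Field F] {x : V → F}

theorem mon_add (hx : ∀ v, x v ≠ 0) (e e' : V → ℤ) : mon x (e + e') = mon x e * mon x e' := by
  unfold mon
  rw [← Finset.prod_mul_distrib]
  exact Finset.prod_congr rfl fun i _ => zpow_add₀ (hx i) _ _

theorem mon_ne_zero (hx : ∀ v, x v ≠ 0) (e : V → ℤ) : mon x e ≠ 0 :=
  Finset.prod_ne_zero_iff.2 fun i _ => zpow_ne_zero _ (hx i)

theorem mon_single (j : V) (c : ℤ) : mon x (Pi.single j c) = x j ^ c := by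
  unfold mon
  rw [Finset.prod_eq_single j]
  · simp
  · intro b _ hb; simp [hb]
  · simp

theorem mon_update (hx : ∀ v, x v ≠ 0) (j : V) (y : F) (hy : y ≠ 0) (e : V → ℤ) :
    mon (Function.update x j y) e = (y / x j) ^ e j * mon x e := by
  unfold mon
  rw [← Finset.mul_prod_erase _ _ (Finset.mem_univ j),
    ← Finset.mul_prod_erase (Finset.univ) (fun i => x i ^ e i) (Finset.mem_univ j)]
  have : ∏ i ∈ Finset.univ.erase j, Function.update x j y i ^ e i
      = ∏ i ∈ Finset.univ.erase j, x i ^ e i := by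
    refine Finset.prod_congr rfl fun i hi => ?_
    rw [Function.update_of_ne (Finset.ne_of_mem_erase hi)]
  rw [this, Function.update_self, div_zpow, ← mul_assoc]
  congr 1
  rw [div_mul_cancel₀ _ (zpow_ne_zero _ (hx j))]

theorem exch_eq_mon (s : Seed V F) (k : V) :
    s.exch k = mon s.x (fun i => max (s.B i k) 0) + mon s.x (fun i => max (-s.B i k) 0) := by
  unfold Seed.exch mon
  congr 1
  · refine Finset.prod_congr rfl fun i _ => ?_
    rw [← zpow_natCast, Int.toNat_eq_max]
  · refine Finset.prod_congr rfl fun i _ => ?_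
    rw [← zpow_natCast, Int.toNat_eq_max]

end mon

end Pool.Agent.helper36
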