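import Mathlib
import Pool.Agent.helper36.LocalRing

/-!
The key step in the proof of the Laurent phenomenon: if the exchange binomial at `j` is divisible
by `π` and the one at `k` is not, and `j`, `k` are joined, then the seed obtained by mutating at
`j`, `k`, `j` consists of `π`-units.
-/

set_option linter.unusedSectionVars false

namespace Pool.Agent.helper36

open Seed

variable {V R F : Type*} [Fintype V] [DecidableEq V] [CommRing R] [IsDomain R] [Field F]
  [Algebra R F] [IsFractionRing R F] {π : R}

theorem IU.mon (hπ : Prime π) {x : V → F} (hx : ∀ v, IU π (x v)) (e : V → ℤ) :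
    IU π (mon x e) := IU.prod hπ _ fun i _ => (hx i).zpow hπ _

theorem mon_pow {x : V → F} (e : V → ℤ) (n : ℕ) : (mon x e) ^ n = mon x (fun i => n * e i) := by
  unfold mon
  rw [← Finset.prod_pow]
  refine Finset.prod_congr rfl fun i _ => ?_
  rw [← zpow_natCast, ← zpow_mul, mul_comm]

theorem max_sub_max_neg (a : ℤ) : max a 0 - max (-a) 0 = a := by
  rcases le_total a 0 with h | h
  · rw [max_eq_right h, max_eq_left (by omega)]; ring
  · rw [max_eq_left h, max_eq_right (by omega)]; ring

theorem key_pos (hπ : Prime π) {s : Seed V F} (hs : s.Skew) (hU : ∀ v, IU π (s.x v)) {j k : V}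
    (hjk : j ≠ k) (hc : 0 < s.B k j) (hMj : IM π (s.exch j)) (hne : s.exch j ≠ 0)
    (hMk : IU π (s.exch k)) : ∀ v, IU π ((((s.mutate j).mutate k).mutate j).x v) := by
  obtain ⟨n, hn⟩ : ∃ n : ℕ, s.B k j = n := ⟨(s.B k j).toNat, by omega⟩
  have hn1 : 1 ≤ n := by omega
  have hx0 : ∀ v, s.x v ≠ 0 := fun v => (hU v).ne_zero
  set x := s.x with hx
  set y := s.exch j / x j with hy
  have hy0 : y ≠ 0 := div_ne_zero hne (hx0 j)
  set s1 := s.mutate j with hs1
  have hs1s : s1.Skew := hs.mutate j
  have hs1x : s1.x = Function.update x j y := rfl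
  have hs1x0 : ∀ v, s1.x v ≠ 0 := by
    intro v
    rw [hs1x]
    by_cases h : v = j
    · subst h; rw [Function.update_self]; exact hy0
    · rw [Function.update_of_ne h]; exact hx0 v
  have hBjk : s.B j k = -n := by rw [hs j k, hn]
  have hs1jk : s1.B j k = n := by rw [hs1, mutate_B_left, hBjk]; ring
  have hs1kj : s1.B k j = -n := by rw [hs1s k j, hs1jk]
  set E1 : V → ℤ := fun i => max (s1.B i k) 0 with hE1
  set E2 : V → ℤ := fun i => max (-s1.B i k) 0 with hE2
  have hexk : s1.exch k = (y / x j) ^ n * mon x E1 + mon x E2 := by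
    rw [exch_eq_mon, hs1x, mon_update hx0 _ _ hy0, mon_update hx0 _ _ hy0]
    have h1 : max (s1.B j k) 0 = n := by rw [hs1jk]; omega
    have h2 : max (-s1.B j k) 0 = 0 := by rw [hs1jk]; omega
    rw [h1, h2, zpow_natCast, zpow_zero, one_mul]
  set w := s1.exch k / x k with hw
  set s2 := s1.mutate k with hs2
  have hs2s : s2.Skew := hs1s.mutate k
  have hs2x : s2.x = Function.update s1.x k w := by
    have : s1.x k = x k := by rw [hs1x, Function.update_of_ne hjk.symm]
    rw [hw, ← this]; rfl
  have hs2kj : s2.B k j = n := by rw [hs2, mutate_B_left, hs1kj]; ring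
  have hs2jj : s2.B j j = 0 := hs2s.diag j
  set G1 : V → ℤ := fun i => max (s2.B i j) 0 with hG1
  set G2 : V → ℤ := fun i => max (-s2.B i j) 0 with hG2
  have hexj : s2.exch j = (w / x k) ^ n * mon x G1 + mon x G2 := by
    have h0 : s1.x k = x k := by rw [hs1x, Function.update_of_ne hjk.symm]
    rw [exch_eq_mon, hs2x]
    unfold mon
    have aux : ∀ e : V → ℤ, e j = 0 →
        mon (Function.update s1.x k w) e = (w / x k) ^ e k * mon x e := by
      intro e he
      unfold mon
      rw [← Finset.mul_prod_erase _ _ (Finset.mem_univ k),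
        ← Finset.mul_prod_erase (Finset.univ) (fun i => x i ^ e i) (Finset.mem_univ k)]
      have : ∏ i ∈ Finset.univ.erase k, Function.update s1.x k w i ^ e i
          = ∏ i ∈ Finset.univ.erase k, x i ^ e i := by
        refine Finset.prod_congr rfl fun i hi => ?_
        rw [Function.update_of_ne (Finset.ne_of_mem_erase hi)]
        by_cases hij : i = j
        · subst hij; rw [he, zpow_zero, zpow_zero]
        · rw [hs1x, Function.update_of_ne hij]
      rw [this, Function.update_self, div_zpow w (x k), ← mul_assoc]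
      congr 1
      rw [div_mul_cancel₀ _ (zpow_ne_zero _ (hx0 k))]
    have h1 := aux G1 (by simp [hG1, hs2jj])
    have h2 := aux G2 (by simp [hG2, hs2jj])
    have h3 : G1 k = n := by simp [hG1, hs2kj]
    have h4 : G2 k = 0 := by simp [hG2, hs2kj]
    rw [h3, zpow_natCast] at h1
    rw [h4, zpow_zero, one_mul] at h2
    unfold mon at h1 h2
    rw [h1, h2]
  have hs2j : s2.x j = y := by
    rw [hs2x, Function.update_of_ne hjk, hs1x, Function.update_self]
  -- units
  have uQ1 : IU π (mon x E1) := IU.mon hπ hU _
  have uQ2 : IU π (mon x E2) := IU.mon hπ hU _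
  have uA1 : IU π (mon x G1) := IU.mon hπ hU _
  have uA2 : IU π (mon x G2) := IU.mon hπ hU _
  set P1 := mon x (fun i => max (s.B i j) 0) with hP1
  set P2 := mon x (fun i => max (-s.B i j) 0) with hP2
  have uP1 : IU π P1 := IU.mon hπ hU _
  have uP2 : IU π P2 := IU.mon hπ hU _
  have hexs : s.exch j = P1 + P2 := exch_eq_mon s j
  have hyx : x j * y = P1 + P2 := by rw [← hexs, hy]; field_simp [hx0 j]
  have hyM : IM π y := by
    rw [hy, div_eq_mul_inv]; exact hMj.mul_io hπ (hU j).inv.io
  have s2ij : ∀ i, i ≠ j → i ≠ k → s2.B i j = -s.B i j - n * E2 i := by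
    intro i hij hik
    rw [hs2, mutate_B_of_ne s1 hik hjk, hs1kj]
    have h1 : s1.B i j = -s.B i j := mutate_B_right s j i
    have h2 : max (-(n : ℤ)) 0 = 0 := by omega
    have h3 : max (-(-(n : ℤ))) 0 = n := by omega
    rw [h1, h2, h3, hE2]
    ring
  -- first identity
  have I1 : (mon x E2) ^ n * mon x G1 * P1 = mon x G2 * P2 * (x k ^ 2) ^ n := by
    have hk2 : (x k ^ 2) ^ n = mon x (Pi.single k (2 * (n : ℤ))) := by
      rw [mon_single, ← pow_mul, ← zpow_natCast]; push_cast; rfl
    rw [hk2, mon_pow, hP1, hP2, ← mon_add hx0, ← mon_add hx0, ← mon_add hx0, ← mon_add hx0]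
    congr 1
    funext i
    simp only [Pi.add_apply]
    by_cases hij : i = j
    · subst hij
      have h1 : E2 i = 0 := by simp [hE2, hs1jk]
      have h2 : G1 i = 0 := by simp [hG1, hs2jj]
      have h3 : G2 i = 0 := by simp [hG2, hs2jj]
      have h4 : s.B i i = 0 := hs.diag i
      rw [h1, h2, h3, h4, Pi.single_eq_of_ne hjk]; simp
    · by_cases hik : i = k
      · subst hik
        have h1 : E2 i = 0 := by simp [hE2, hs1s.diag i]
        have h2 : G1 i = n := by simp [hG1, hs2kj]
        have h3 : G2 i = 0 := by simp [hG2, hs2kj]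
        rw [h1, h2, h3, hn, Pi.single_eq_same]
        have h5 : max (-(n : ℤ)) 0 = 0 := by omega
        have h6 : max ((n : ℤ)) 0 = n := by omega
        rw [h5, h6]; ring
      · rw [Pi.single_eq_of_ne hik]
        have h1 := max_sub_max_neg (s2.B i j)
        have h2 := max_sub_max_neg (s.B i j)
        have h3 := s2ij i hij hik
        simp only [hG1, hG2]
        linarith
  intro v
  by_cases hvj : v = j
  · subst hvj
    rw [mutate_x_self, hs2j, hexj]
    have hxk := hx0 k
    have hxv := hx0 v
    have hwx : w / x k = mon x E2 / x k ^ 2 + (y / x v) ^ n * (mon x E1 / x k ^ 2) := by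
      rw [hw, hexk]; field_simp; ring
    rcases Nat.lt_or_ge 1 n with hn2 | hn2
    · -- n ≥ 2
      obtain ⟨m, hm⟩ : ∃ m, n = m + 1 + 1 := ⟨n - 2, by omega⟩
      set α := mon x E2 / x k ^ 2 with hα
      set β := (y / x v) ^ n * (mon x E1 / x k ^ 2) with hβ
      have uα : IU π α := uQ2.div hπ ((hU k).pow hπ 2)
      have hγ : IM π (y ^ m * y * (mon x E1 / x k ^ 2 / (x v) ^ n)) := by
        have h1 : IU π (mon x E1 / x k ^ 2 / (x v) ^ n) :=
          (uQ1.div hπ ((hU k).pow hπ 2)).div hπ ((hU v).pow hπ n)
        have h2 : IM π (y ^ m * y) := by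
          rw [mul_comm]; exact hyM.mul_io hπ (hyM.io.pow hπ m)
        exact h2.mul_io hπ h1.io
      set γ := y ^ m * y * (mon x E1 / x k ^ 2 / (x v) ^ n) with hγd
      have hβγ : β = y * γ := by
        rw [hβ, hγd, div_pow, hm]; field_simp; ring
      have mβ : IM π β := by rw [hβγ, mul_comm]; exact hγ.mul_io hπ hyM.io
      set W := ∑ i ∈ Finset.range n, (α + β) ^ i * α ^ (n - 1 - i) with hW
      have hWid : W * β = (α + β) ^ n - α ^ n := by
        have := Commute.geom_sum₂_mul (Commute.all (α + β) α) n
        rw [add_sub_cancel_left] at this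
        exact this
      have oW : IO π W := IO.sum hπ _ fun i _ =>
        ((uα.io.add hπ mβ.io).pow hπ i).mul hπ (uα.io.pow hπ _)
      have hfin : ((w / x k) ^ n * mon x G1 + mon x G2) / y
          = mon x G2 / P1 * x v + γ * (W * mon x G1) := by
        have hP10 : P1 ≠ 0 := uP1.ne_zero
        have e1 : (w / x k) ^ n = α ^ n + W * β := by rw [hwx, hWid]; ring
        have e2 : α ^ n * mon x G1 = mon x G2 * P2 / P1 := by
          rw [hα, div_pow, eq_div_iff hP10]
          field_simp
          linear_combination I1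
        rw [e1, hβγ]
        have e3 : (α ^ n + W * (y * γ)) * mon x G1 + mon x G2
            = (α ^ n * mon x G1 + mon x G2) + y * (γ * (W * mon x G1)) := by ring
        rw [e3, e2]
        have e4 : mon x G2 * P2 / P1 + mon x G2 = mon x G2 / P1 * (x v * y) := by
          rw [hyx]; field_simp; ring
        rw [e4]
        field_simp
      rw [hfin]
      exact ((uA2.div hπ uP1).mul hπ (hU v)).add_im hπ
        (hγ.mul_io hπ (oW.mul hπ uA1.io))
    · -- n = 1
      have hn' : n = 1 := by omega
      set N1 := mon x (fun i => max (s.B i k) 0) with hN1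
      set N2 := mon x (fun i => max (-s.B i k) 0) with hN2
      have uN1 : IU π N1 := IU.mon hπ hU _
      have uN2 : IU π N2 := IU.mon hπ hU _
      have hexsk : s.exch k = N1 + N2 := exch_eq_mon s k
      have I3 : mon x G2 * (x v ^ 2) * (x k ^ 2) * N1 = mon x E1 * mon x G1 * P1 * N2 := by
        have hk2 : (x k ^ 2) = mon x (Pi.single k 2) := by
          rw [mon_single]; norm_cast
        have hj2 : (x v ^ 2) = mon x (Pi.single v 2) := by
          rw [mon_single]; norm_cast
        rw [hk2, hj2, hP1, hN1, hN2, ← mon_add hx0, ← mon_add hx0, ← mon_add hx0, ← mon_add hx0,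
          ← mon_add hx0, ← mon_add hx0]
        congr 1
        funext i
        simp only [Pi.add_apply]
        by_cases hij : i = v
        · subst hij
          have h1 : E1 i = 1 := by simp [hE1, hs1jk, hn']
          have h2 : G1 i = 0 := by simp [hG1, hs2jj]
          have h3 : G2 i = 0 := by simp [hG2, hs2jj]
          have h4 : s.B i i = 0 := hs.diag i
          rw [h1, h2, h3, h4, hBjk, Pi.single_eq_same, Pi.single_eq_of_ne hjk, hn']; simp
        · by_cases hik : i = k
          · subst hik
            have h1 : E1 i = 0 := by simp [hE1, hs1s.diag i]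
            have h2 : G1 i = 1 := by simp [hG1, hs2kj, hn']
            have h3 : G2 i = 0 := by simp [hG2, hs2kj]
            have h4 : s.B i i = 0 := hs.diag i
            rw [h1, h2, h3, h4, hn, Pi.single_eq_same, Pi.single_eq_of_ne hjk.symm, hn']; simp
          · rw [Pi.single_eq_of_ne hik, Pi.single_eq_of_ne hij]
            have h1 := max_sub_max_neg (s2.B i v)
            have h2 := max_sub_max_neg (s.B i v)
            have h3 := s2ij i hij hik
            have h4 := max_sub_max_neg (s1.B i k)
            have h5 := max_sub_max_neg (s.B i k)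
            have h6 : s1.B i k = s.B i k - max (-s.B i v) 0 := by
              rw [hs1, mutate_B_of_ne s hij hjk.symm, hBjk, hn']
              simp
            simp only [hG1, hG2, hE1]
            rw [hn'] at h3
            simp only [hE2] at h3
            push_cast at h3
            linarith
      have hP10 : P1 ≠ 0 := uP1.ne_zero
      have hN20 : N2 ≠ 0 := uN2.ne_zero
      have hfin : ((w / x k) ^ n * mon x G1 + mon x G2) / y
          = mon x G2 * x v / (P1 * N2) * s.exch k := by
        rw [hn', pow_one] at I1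
        rw [hwx, hn', hexsk, pow_one, pow_one, div_eq_iff hy0]
        field_simp
        have hyx' := hyx
        linear_combination N2 * x v * I1
          - (mon x G2 * N2 * x v * x k ^ 2 ) * hyx - y * I3
      rw [hfin]
      exact ((uA2.mul hπ (hU v)).div hπ (uP1.mul hπ uN2)).mul hπ hMk
  · rw [mutate_x_of_ne _ hvj, hs2x]
    by_cases hvk : v = k
    · subst hvk
      rw [Function.update_self, hw, hexk]
      have h1 : IM π ((y / x j) ^ n * mon x E1) := by
        have : IM π (y / x j) := by rw [div_eq_mul_inv]; exact hyM.mul_io hπ (hU j).inv.io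
        exact (this.pow hπ (by omega)).mul_io hπ uQ1.io
      rw [add_comm]
      exact (uQ2.add_im hπ h1).div hπ (hU v)
    · rw [Function.update_of_ne hvk, hs1x, Function.update_of_ne hvj]
      exact hU v

theorem key (hπ : Prime π) {s : Seed V F} (hs : s.Skew) (hU : ∀ v, IU π (s.x v)) {j k : V}
    (hjk : j ≠ k) (hc : s.B k j ≠ 0) (hMj : IM π (s.exch j)) (hne : s.exch j ≠ 0)
    (hMk : IU π (s.exch k)) : ∀ v, IU π ((((s.mutate j).mutate k).mutate j).x v) := by
  rcases lt_or_gt_of_ne hc with h | h
  · have hs' : s.neg.Skew := by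
      intro a b; simp only [Seed.neg]; rw [hs a b]
    have := key_pos (s := s.neg) hπ hs' hU hjk (by simp only [Seed.neg]; omega)
      (by rw [neg_exch]; exact hMj) (by rw [neg_exch]; exact hne) (by rw [neg_exch]; exact hMk)
    rw [neg_mutate, neg_mutate, neg_mutate] at this
    exact this
  · exact key_pos hπ hs hU hjk h hMj hne hMk

end Pool.Agent.helper36
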