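import Mathlib
import Pool.Agent.helper36.KeyLemma

/-!
The Laurent phenomenon for cluster algebras of geometric type (skew-symmetric case), over the
integers.
-/

set_option linter.unusedSectionVars false

namespace Pool.Agent.helper36

open Seed MvPolynomial

/-- The polynomial ring. -/
abbrev Pol (V : Type) := MvPolynomial V ℤ

/-- Its fraction field. -/
abbrev Fr (V : Type) := FractionRing (MvPolynomial V ℤ)

/-- The generic seed with a given exchange matrix. -/
noncomputable def gen {V : Type} (B : V → V → ℤ) : Seed V (Fr V) :=
  ⟨B, fun v => algebraMap (Pol V) (Fr V) (X v)⟩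

/-- Laurent polynomials with integer coefficients. -/
def IsLaurent {V : Type} [Fintype V] (z : Fr V) : Prop :=
  ∃ (p : Pol V) (N : ℕ), z * algebraMap (Pol V) (Fr V) ((∏ v, X v) ^ N) = algebraMap _ _ p

theorem dvd_pow_of_primes {R : Type*} [CommRing R] [IsDomain R] [UniqueFactorizationMonoid R]
    (m b : R) (hb : b ≠ 0) (h : ∀ π : R, Prime π → π ∣ b → π ∣ m) : ∃ N : ℕ, b ∣ m ^ N := by
  induction b using UniqueFactorizationMonoid.induction_on_prime with
  | h₁ => exact absurd rfl hb
  | h₂ x hx => exact ⟨0, hx.dvd⟩
  | h₃ a p ha hp ih =>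
    obtain ⟨N, hN⟩ := ih ha fun π hπ hd => h π hπ (Dvd.dvd.mul_left hd p)
    refine ⟨N + 1, ?_⟩
    rw [pow_succ, mul_comm p a]
    exact mul_dvd_mul hN (h p hp (dvd_mul_right p a))

section crit

variable {V : Type} [Fintype V] [DecidableEq V]

theorem isLaurent_of_io (z : Fr V)
    (h : ∀ π : Pol V, Prime π → (∀ v, ¬ π ∣ (X v : Pol V)) → IO π z) : IsLaurent z := by
  obtain ⟨a, b, hab, hz⟩ := IsFractionRing.exists_reduced_fraction (Pol V) z
  have hb0 : (b : Pol V) ≠ 0 := nonZeroDivisors.ne_zero b.2
  have hzb : z * algebraMap (Pol V) (Fr V) b = algebraMap (Pol V) (Fr V) a := by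
    rw [← hz]; exact IsLocalization.mk'_spec _ _ _
  obtain ⟨N, c, hc⟩ := dvd_pow_of_primes (∏ v, X v : Pol V) b hb0 (by
    intro π hπ hd
    by_contra hcon
    have h1 : ∀ v, ¬ π ∣ (X v : Pol V) := by
      intro v hv
      exact hcon (hv.trans (Finset.dvd_prod_of_mem _ (Finset.mem_univ v)))
    obtain ⟨p, q, hq, hpq⟩ := h π hπ h1
    have h2 : a * q = p * b := by
      apply IsFractionRing.injective (Pol V) (Fr V)
      rw [map_mul, map_mul, ← hzb, ← hpq]; ring
    have h3 : π ∣ a * q := by rw [h2]; exact Dvd.dvd.mul_left hd p
    rcases hπ.dvd_or_dvd h3 with h4 | h4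
    · exact hπ.not_isUnit (hab h4 hd)
    · exact hq h4)
  refine ⟨a * c, N, ?_⟩
  rw [hc, map_mul, ← mul_assoc, hzb, map_mul]

/-- The subring of Laurent polynomials. -/
noncomputable def laurentSubring (V : Type) [Fintype V] : Subring (Fr V) where
  carrier := {z | IsLaurent z}
  mul_mem' := by
    rintro a b ⟨p, N, h⟩ ⟨p', N', h'⟩
    refine ⟨p * p', N + N', ?_⟩
    rw [pow_add, map_mul, map_mul, ← h, ← h']; ring
  one_mem' := ⟨1, 0, by simp⟩
  add_mem' := by
    rintro a b ⟨p, N, h⟩ ⟨p', N', h'⟩
    refine ⟨p * (∏ v, X v) ^ N' + p' * (∏ v, X v) ^ N, N + N', ?_⟩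
    rw [pow_add, map_mul, map_add, map_mul, map_mul, ← h, ← h']; ring
  zero_mem' := ⟨0, 0, by simp⟩
  neg_mem' := by
    rintro a ⟨p, N, h⟩
    refine ⟨-p, N, ?_⟩
    rw [map_neg, ← h]; ring

theorem isLaurent_X (v : V) : IsLaurent (algebraMap (Pol V) (Fr V) (X v)) :=
  ⟨X v, 0, by simp⟩

theorem X_ne_zero' (v : V) : algebraMap (Pol V) (Fr V) (X v) ≠ 0 := by
  rw [Ne, map_eq_zero_iff _ (IsFractionRing.injective (Pol V) (Fr V))]
  exact MvPolynomial.X_ne_zero v

theorem isLaurent_X_inv (v : V) : IsLaurent (algebraMap (Pol V) (Fr V) (X v))⁻¹ := by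
  refine ⟨∏ w ∈ Finset.univ.erase v, X w, 1, ?_⟩
  rw [pow_one, ← Finset.mul_prod_erase _ _ (Finset.mem_univ v), map_mul, ← mul_assoc,
    inv_mul_cancel₀ (X_ne_zero' v), one_mul]

theorem eval_mem {K : Type*} [Field K] (S : Subring K) (a : V → K) (ha : ∀ v, a v ∈ S)
    (p : Pol V) : eval₂Hom (Int.castRingHom K) a p ∈ S := by
  induction p using MvPolynomial.induction_on with
  | C c =>
    rw [coe_eval₂Hom, eval₂_C, eq_intCast]
    exact intCast_mem S c
  | add p q hp hq => rw [map_add]; exact S.add_mem hp hq
  | mul_X p v hp =>
    rw [map_mul]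
    refine S.mul_mem hp ?_
    simpa using ha v

/-- Specialisation of Laurent expansions. -/
theorem univ_mem {B : V → V → ℤ} {l : List V} {u : V} (h : IsLaurent (((gen B).run l).x u))
    {K : Type*} [Field K] {P : K → Prop} (hP : PosLike P) (t : Seed V K) (hB : t.B = B)
    (ht : ∀ v, P (t.x v)) (S : Subring K) (hS : ∀ v, t.x v ∈ S) (hS' : ∀ v, (t.x v)⁻¹ ∈ S) :
    (t.run l).x u ∈ S := by
  set φ : Pol V →+* K := eval₂Hom (Int.castRingHom K) t.x with hφ
  have hev : Ev φ (((gen B).run l).x u) ((t.run l).x u) := by
    refine (Ev.run (φ := φ) hP (s := gen B) (t := t) ?_ ?_ ht l).2 u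
    · rw [hB]; rfl
    · intro v
      have : φ (X v) = t.x v := by simp [hφ]
      rw [← this]
      exact Ev.of (X v)
  obtain ⟨p, N, hp⟩ := h
  have hm : φ ((∏ v, X v) ^ N) = (∏ v, t.x v) ^ N := by simp [hφ]
  have hm0 : φ ((∏ v, X v) ^ N) ≠ 0 := by
    rw [hm]
    exact pow_ne_zero _ (Finset.prod_ne_zero_iff.2 fun v _ => hP.ne_zero (ht v))
  have hev' : Ev φ (((gen B).run l).x u) (φ p / φ ((∏ v, X v) ^ N)) :=
    ⟨p, _, hm0, hp, by field_simp⟩
  rw [hev.unique hev', div_eq_mul_inv]
  refine S.mul_mem (eval_mem S _ hS p) ?_
  rw [hm, ← inv_pow, ← Finset.prod_inv_distrib]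
  exact S.pow_mem (S.prod_mem fun v _ => hS' v) _

/-- Evaluation of all variables at one. -/
noncomputable def ones (V : Type) : Pol V →+* ℚ := eval₂Hom (Int.castRingHom ℚ) (fun _ => 1)

theorem ones_X (v : V) : Ev (F := Fr V) (ones V) (algebraMap (Pol V) (Fr V) (X v)) 1 := by
  have : ones V (X v) = 1 := by simp [ones]
  rw [← this]
  exact Ev.of (X v)

/-- The exchange polynomial. -/
noncomputable def exPol (B : V → V → ℤ) (k : V) : Pol V :=
  ∏ i, X i ^ (B i k).toNat + ∏ i, X i ^ (-B i k).toNat

theorem gen_exch (B : V → V → ℤ) (k : V) :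
    (gen B).exch k = algebraMap (Pol V) (Fr V) (exPol B k) := by
  unfold Seed.exch exPol gen
  simp only [map_add, map_prod, map_pow]

theorem gen_pos (B : V → V → ℤ) (l : List V) (v : V) :
    ∃ c : ℚ, 0 < c ∧ Ev (ones V) (((gen B).run l).x v) c :=
  (posLike_ev (F := Fr V) (ones V)).run (s := gen B) (fun w => ⟨1, one_pos, ones_X w⟩) l v

theorem exPol_ne_zero (B : V → V → ℤ) (k : V) : exPol B k ≠ 0 := by
  intro h
  have h1 := (posLike_ev (F := Fr V) (ones V)).ne_zero
    ((posLike_ev (F := Fr V) (ones V)).exch (s := gen B) (fun w => ⟨1, one_pos, ones_X w⟩) k)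
  rw [gen_exch, h, map_zero] at h1
  exact h1 rfl

end crit

section ext

variable {V : Type} [Fintype V] [DecidableEq V]

/-- Adding one frozen vertex attached to `j`. -/
def bext (B : V → V → ℤ) (j : V) : Option V → Option V → ℤ
  | some a, some b => B a b
  | none, some b => if b = j then 1 else 0
  | some a, none => if a = j then -1 else 0
  | none, none => 0

theorem bext_skew {B : V → V → ℤ} (hB : ∀ i j, B i j = -B j i) (j : V) :
    ∀ a b, bext B j a b = -bext B j b a := by
  intro a b
  rcases a with _ | a <;> rcases b with _ | b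
  · rfl
  · simp only [bext]; split <;> rfl
  · simp only [bext]; split <;> rfl
  · simp only [bext]; exact hB a b

theorem isRelPrime_mon {W : Type} [DecidableEq W] (a b : W → ℕ) (s : Finset W)
    (h : ∀ v, a v = 0 ∨ b v = 0) :
    IsRelPrime (∏ v ∈ s, (X v : Pol W) ^ a v) (∏ v ∈ s, (X v : Pol W) ^ b v) := by
  refine IsRelPrime.prod_left fun v _ => IsRelPrime.prod_right fun w _ => ?_
  by_cases hvw : v = w
  · subst hvw
    rcases h v with h | h
    · rw [h, pow_zero]; exact isRelPrime_one_left
    · rw [h, pow_zero]; exact isRelPrime_one_right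
  · apply IsRelPrime.pow
    have hirr : Irreducible (X v : Pol W) := (MvPolynomial.X_prime (R := ℤ) (i := v)).irreducible
    rw [hirr.isRelPrime_iff_not_dvd, MvPolynomial.X_dvd_X]
    exact hvw

/-- The exchange polynomial at `j` of the extended matrix is irreducible. -/
theorem exPol_bext_irreducible (B : V → V → ℤ) (j : V) :
    Irreducible (exPol (bext B j) (some j)) := by
  have h1 : exPol (bext B j) (some j)
      = rename some (∏ v, (X v : Pol V) ^ (B v j).toNat) * X none
        + rename some (∏ v, (X v : Pol V) ^ (-B v j).toNat) := by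
    unfold exPol
    rw [Fintype.prod_option, Fintype.prod_option]
    simp only [bext, if_true, map_prod, map_pow, rename_X]
    have e1 : (1 : ℤ).toNat = 1 := rfl
    have e2 : (-1 : ℤ).toNat = 0 := rfl
    rw [e1, e2, pow_one, pow_zero, one_mul, mul_comm]
  rw [h1]
  have hv : ∀ p : Pol V, none ∉ (rename some p : Pol (Option V)).vars := by
    intro p hp
    obtain ⟨i, _, hi⟩ := mem_vars_rename _ _ hp
    exact absurd hi (by simp)
  apply irreducible_mul_X_add
  · rw [Ne, map_eq_zero_iff _ (rename_injective _ (Option.some_injective V))]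
    exact Finset.prod_ne_zero_iff.2 fun v _ => pow_ne_zero _ (MvPolynomial.X_ne_zero v)
  · exact hv _
  · exact hv _
  · have hrel : IsRelPrime (∏ v ∈ Finset.univ.map ⟨some, Option.some_injective V⟩,
        (X v : Pol (Option V)) ^ (bext B j v (some j)).toNat)
        (∏ v ∈ Finset.univ.map ⟨some, Option.some_injective V⟩,
        (X v : Pol (Option V)) ^ (-bext B j v (some j)).toNat) := by
      apply isRelPrime_mon
      intro v
      omega
    rw [Finset.prod_map, Finset.prod_map] at hrel
    simpa [bext] using hrel

theorem exPol_bext_not_dvd (B : V → V → ℤ) {j k : V} (hjk : j ≠ k) :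
    ¬ exPol (bext B j) (some j) ∣ exPol (bext B j) (some k) := by
  rintro ⟨c, hc⟩
  set f : Fr V := ∏ v, (algebraMap (Pol V) (Fr V) (X v)) ^ (B v j).toNat with hf
  set g : Fr V := ∏ v, (algebraMap (Pol V) (Fr V) (X v)) ^ (-B v j).toNat with hg
  have hf0 : f ≠ 0 := Finset.prod_ne_zero_iff.2 fun v _ => pow_ne_zero _ (X_ne_zero' v)
  set ψ : Pol (Option V) →+* Fr V := eval₂Hom (Int.castRingHom (Fr V))
    (fun o => match o with
      | none => -g / f
      | some v => algebraMap (Pol V) (Fr V) (X v)) with hψ
  have h1 : ψ (exPol (bext B j) (some j)) = 0 := by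
    unfold exPol
    rw [Fintype.prod_option, Fintype.prod_option]
    simp only [bext, if_true, map_add, map_mul, map_prod, map_pow]
    have e1 : (1 : ℤ).toNat = 1 := rfl
    have e2 : (-1 : ℤ).toNat = 0 := rfl
    rw [e1, e2, pow_one, pow_zero, one_mul]
    have e3 : ψ (X none) = -g / f := by simp [hψ]
    have e4 : ∀ v, ψ (X (some v)) = algebraMap (Pol V) (Fr V) (X v) := by
      intro v; simp [hψ]
    simp only [e3, e4]
    rw [← hf, ← hg]
    field_simp
    ring
  have h2 : ψ (exPol (bext B j) (some k)) = algebraMap (Pol V) (Fr V) (exPol B k) := by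
    unfold exPol
    rw [Fintype.prod_option, Fintype.prod_option]
    simp only [bext, map_add, map_mul, map_prod, map_pow]
    rw [if_neg hjk.symm]
    have e4 : ∀ v, ψ (X (some v)) = algebraMap (Pol V) (Fr V) (X v) := by
      intro v; simp [hψ]
    simp [e4]
  have h3 : ψ (exPol (bext B j) (some k)) = 0 := by rw [hc, map_mul, h1, zero_mul]
  rw [h2, map_eq_zero_iff _ (IsFractionRing.injective (Pol V) (Fr V))] at h3
  exact exPol_ne_zero B k h3

/-- Setting the additional frozen variable equal to one. -/
theorem run_restrict {K : Type*} [Field K] (l : List V) :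
    ∀ (t : Seed (Option V) K) (s : Seed V K), (∀ a b, t.B (some a) (some b) = s.B a b) →
    (∀ v, t.x (some v) = s.x v) → t.x none = 1 →
    ∀ v, (t.run (l.map some)).x (some v) = (s.run l).x v := by
  induction l with
  | nil => intro t s _ hx _ v; exact hx v
  | cons k l ih =>
    intro t s hB hx hn v
    rw [List.map_cons, run_cons, run_cons]
    apply ih
    · intro a b
      by_cases h : a = k ∨ b = k
      · rcases h with rfl | rfl
        · rw [mutate_B_left, mutate_B_left, hB]
        · rw [mutate_B_right, mutate_B_right, hB]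
      · push Not at h
        rw [mutate_B_of_ne s h.1 h.2, mutate_B_of_ne t (by simpa using h.1) (by simpa using h.2),
          hB, hB, hB]
    · intro w
      by_cases h : w = k
      · subst h
        rw [mutate_x_self, mutate_x_self, hx]
        congr 1
        unfold Seed.exch
        rw [Fintype.prod_option, Fintype.prod_option, hn]
        simp only [one_pow, one_mul, hB, hx]
      · rw [mutate_x_of_ne s h, mutate_x_of_ne t (by simpa using h), hx]
    · rw [mutate_x_of_ne t (by simp), hn]

end ext

/-- **The Laurent phenomenon.** -/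
theorem laurent_aux (n : ℕ) : ∀ (V : Type) [Fintype V] [DecidableEq V] (B : V → V → ℤ),
    (∀ i j, B i j = -B j i) → ∀ l : List V, l.length ≤ n →
    ∀ u, IsLaurent (((gen B).run l).x u) := by
  induction n with
  | zero =>
    intro V _ _ B _ l hl u
    have : l = [] := List.length_eq_zero_iff.1 (by omega)
    subst this
    exact isLaurent_X u
  | succ n ih =>
    intro V _ _ B hB l hl u
    match l, hl with
    | [], _ => exact isLaurent_X u
    | [j], _ =>
      apply isLaurent_of_io
      intro π hπ hX
      have hU : ∀ v, IU π ((gen B).x v) := fun v => IU.of hπ (hX v)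
      rw [run_cons, run_nil]
      by_cases huj : u = j
      · subst huj
        rw [mutate_x_self, div_eq_mul_inv, gen_exch]
        exact (IO.of hπ _).mul hπ (hU u).inv.io
      · rw [mutate_x_of_ne _ huj]
        exact (hU u).io
    | j :: k :: rest, hl =>
      have hlen : rest.length + 1 ≤ n := by simpa using hl
      have hgs : (gen B).Skew := hB
      have hP := posLike_ev (F := Fr V) (ones V)
      by_cases hjk : j = k
      · subst hjk
        rw [run_cons, run_cons, mutate_mutate hgs]
        · exact ih V B hB rest (by omega) u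
        · exact X_ne_zero' j
        · rw [gen_exch, Ne, map_eq_zero_iff _ (IsFractionRing.injective (Pol V) (Fr V))]
          exact exPol_ne_zero B j
      · -- pass to the extended pattern
        have claimA : IsLaurent (((gen (bext B j)).run
            (List.map some (j :: k :: rest))).x (some u)) := by
          apply isLaurent_of_io
          intro π hπ hX
          have hP' := posLike_ev (F := Fr (Option V)) (ones (Option V))
          set s := gen (bext B j) with hs
          have hss : s.Skew := bext_skew hB j
          have hU : ∀ v, IU π (s.x v) := fun v => IU.of hπ (hX v)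
          have hsp : ∀ v, ∃ c : ℚ, 0 < c ∧ Ev (ones (Option V)) (s.x v) c :=
            fun w => ⟨1, one_pos, ones_X w⟩
          have use_ih : ∀ (t : Seed (Option V) (Fr (Option V))) (l : List V), t.Skew →
              (∀ v, IU π (t.x v)) → (∀ v, ∃ c : ℚ, 0 < c ∧ Ev (ones (Option V)) (t.x v) c) →
              l.length ≤ n → IO π ((t.run (l.map some)).x (some u)) := by
            intro t l ht htU htp hl
            exact univ_mem (ih (Option V) t.B ht (l.map some) (by simpa using hl) (some u))
              hP' t rfl htp (ioSubring hπ) (fun v => (htU v).io) (fun v => (htU v).inv.io)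
          rw [List.map_cons, List.map_cons, run_cons, run_cons]
          by_cases hπj : π ∣ exPol (bext B j) (some j)
          · have hass : Associated π (exPol (bext B j) (some j)) :=
              hπ.irreducible.associated_of_dvd (exPol_bext_irreducible B j) hπj
            have hπk : ¬ π ∣ exPol (bext B j) (some k) := by
              intro h
              exact exPol_bext_not_dvd B hjk (hass.symm.dvd.trans h)
            have hMk : IU π (s.exch (some k)) := by rw [hs, gen_exch]; exact IU.of hπ hπk
            by_cases hb : s.B (some k) (some j) = 0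
            · rw [mutate_comm hss (by simpa using hjk)
                (by rw [hss (some j) (some k), hb, neg_zero])]
              have := use_ih (s.mutate (some k)) (j :: rest) (hss.mutate _) ?_
                (hP'.mutate hsp _) (by simpa using hlen)
              · exact this
              · intro v
                by_cases hv : v = some k
                · subst hv; rw [mutate_x_self]; exact hMk.div hπ (hU _)
                · rw [mutate_x_of_ne _ hv]; exact hU v
            · have hMj : IM π (s.exch (some j)) := by
                rw [hs, gen_exch]; exact IM.of hπ hπj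
              have hne : s.exch (some j) ≠ 0 := hP'.ne_zero (hP'.exch hsp _)
              have hkey := key hπ hss hU (j := some j) (k := some k) (by simpa using hjk) hb
                hMj hne hMk
              set s2 := (s.mutate (some j)).mutate (some k) with hs2
              have hs2s : s2.Skew := (hss.mutate _).mutate _
              have hs2p : ∀ v, ∃ c : ℚ, 0 < c ∧ Ev (ones (Option V)) (s2.x v) c :=
                hP'.mutate (hP'.mutate hsp _) _
              have hinv : (s2.mutate (some j)).mutate (some j) = s2 :=
                mutate_mutate hs2s _ (hP'.ne_zero (hs2p _)) (hP'.ne_zero (hP'.exch hs2p _))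
              have := use_ih (s2.mutate (some j)) (j :: rest) (hs2s.mutate _) hkey
                (hP'.mutate hs2p _) (by simpa using hlen)
              rw [List.map_cons, run_cons, hinv] at this
              exact this
          · have := use_ih (s.mutate (some j)) (k :: rest) (hss.mutate _) ?_
              (hP'.mutate hsp _) (by simpa using hlen)
            · exact this
            · intro v
              by_cases hv : v = some j
              · subst hv
                rw [mutate_x_self, hs, gen_exch]
                exact (IU.of hπ hπj).div hπ (hU _)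
              · rw [mutate_x_of_ne _ hv]; exact hU v
        -- specialise
        set t : Seed (Option V) (Fr V) := ⟨bext B j, fun o => match o with
          | none => 1
          | some v => algebraMap (Pol V) (Fr V) (X v)⟩ with ht
        have hmem : (t.run (List.map some (j :: k :: rest))).x (some u) ∈ laurentSubring V := by
          refine univ_mem claimA hP t rfl ?_ _ ?_ ?_
          · intro v
            rcases v with _ | v
            · exact hP.one
            · exact ⟨1, one_pos, ones_X v⟩
          · intro v
            rcases v with _ | v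
            · exact (laurentSubring V).one_mem
            · exact isLaurent_X v
          · intro v
            rcases v with _ | v
            · show (1 : Fr V)⁻¹ ∈ _
              rw [inv_one]; exact (laurentSubring V).one_mem
            · exact isLaurent_X_inv v
        rw [run_restrict (j :: k :: rest) t (gen B) (fun a b => rfl) (fun v => rfl) rfl u] at hmem
        exact hmem

/-- **The Laurent phenomenon.** -/
theorem laurent {V : Type} [Fintype V] [DecidableEq V] (B : V → V → ℤ)
    (hB : ∀ i j, B i j = -B j i) (l : List V) (u : V) : IsLaurent (((gen B).run l).x u) :=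
  laurent_aux l.length V B hB l le_rfl u

end Pool.Agent.helper36
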