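import Mathlib
import Pool.Agent.helper36.Plucker

/-!
The Plücker coordinates of the rectangles seed and their exchange relations.
-/

set_option linter.unusedSectionVars false

namespace Pool.Agent.helper36

open Matrix Function

/-- Column index of position `m` in the Plücker coordinate of the `g × s` rectangle. -/
def pIdx (k g s m : ℕ) : ℕ := if m + g < k then m else m + s

variable {k : ℕ} {R : Type*} [CommRing R]

/-- Plücker coordinate of the `g × s` rectangle for a sequence of column vectors. -/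
def PL (y : ℕ → Fin k → R) (g s : ℕ) : R := dt (fun m : Fin k => y (pIdx k g s m))

/-- Cyclic shift of an interval of positions: `u ↦ v`, `m ↦ m - 1` for `u < m ≤ v`. -/
def dn (u v m : ℕ) : ℕ := if m = u then v else if u < m ∧ m ≤ v then m - 1 else m

/-- Cyclic shift of an interval of positions: `v ↦ u`, `m ↦ m + 1` for `u ≤ m < v`. -/
def up (u v m : ℕ) : ℕ := if m = v then u else if u ≤ m ∧ m < v then m + 1 else m

theorem up_dn {u v m : ℕ} (huv : u ≤ v) : up u v (dn u v m) = m := by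
  unfold up dn
  split_ifs <;> omega

theorem dn_up {u v m : ℕ} (huv : u ≤ v) : dn u v (up u v m) = m := by
  unfold up dn
  split_ifs <;> omega

/-- The permutation `dn`. -/
def shiftDown (k u v : ℕ) (huv : u ≤ v) (hv : v < k) : Equiv.Perm (Fin k) where
  toFun m := ⟨dn u v m, by have := m.2; unfold dn; split_ifs <;> omega⟩
  invFun m := ⟨up u v m, by have := m.2; unfold up; split_ifs <;> omega⟩
  left_inv := fun m => Fin.ext (up_dn huv)
  right_inv := fun m => Fin.ext (dn_up huv)

/-- The permutation `up`. -/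
def shiftUp (k u v : ℕ) (huv : u ≤ v) (hv : v < k) : Equiv.Perm (Fin k) :=
  (shiftDown k u v huv hv).symm

theorem shiftDown_val (k u v : ℕ) (huv : u ≤ v) (hv : v < k) (m : Fin k) :
    ((shiftDown k u v huv hv) m).1 = dn u v m := rfl

theorem shiftUp_val (k u v : ℕ) (huv : u ≤ v) (hv : v < k) (m : Fin k) :
    ((shiftUp k u v huv hv) m).1 = up u v m := rfl

theorem dt_perm (v : Fin k → Fin k → R) (σ : Equiv.Perm (Fin k)) :
    dt (v ∘ σ) = (Equiv.Perm.sign σ : ℤ) * dt v := by
  rw [dt_eq_alt, dt_eq_alt, AlternatingMap.map_perm]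
  rcases Int.units_eq_one_or (Equiv.Perm.sign σ) with h | h <;> rw [h] <;> simp

/-- base family. -/
def baseFam (k g s : ℕ) (y : ℕ → Fin k → R) : Fin k → Fin k → R := fun m => y (pIdx k g s m)

/-- The three-argument determinant around the rectangle `(g, s)`. -/
def DD (k g s : ℕ) (hg : 2 ≤ g) (hgk : g < k) (y : ℕ → Fin k → R) (a b c : ℕ) : R :=
  d3 (baseFam k g s y) ⟨k - g - 1, by omega⟩ ⟨k - g, by omega⟩ ⟨k - 1, by omega⟩
    (y a) (y b) (y c)

/-- General description of `DD` as the determinant of a family given by an index function. -/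
theorem DD_eq {g s : ℕ} (hg : 2 ≤ g) (hgk : g < k) (y : ℕ → Fin k → R) (a b c : ℕ) :
    DD k g s hg hgk y a b c = dt (fun m : Fin k => y (if m.1 = k - 1 then c
      else if m.1 = k - g then b else if m.1 = k - g - 1 then a else pIdx k g s m)) := by
  unfold DD d3 baseFam
  congr 1
  funext m
  simp only [update_apply, Fin.ext_iff]
  split_ifs <;> rfl

theorem PL_ade {g s : ℕ} (hg : 2 ≤ g) (hgk : g < k) (y : ℕ → Fin k → R) :
    PL y g s = DD k g s hg hgk y (k - g - 1) (k - g + s) (k - 1 + s) := by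
  rw [DD_eq hg hgk]
  unfold PL
  congr 1; funext m
  have := m.2
  congr 1
  unfold pIdx
  split_ifs <;> omega

theorem PL_abe {g s : ℕ} (hg : 2 ≤ g) (hgk : g < k) (y : ℕ → Fin k → R) :
    PL y (g - 1) s = DD k g s hg hgk y (k - g - 1) (k - g) (k - 1 + s) := by
  rw [DD_eq hg hgk]
  unfold PL
  congr 1; funext m
  have := m.2
  congr 1
  unfold pIdx
  split_ifs <;> omega

theorem PL_cde {g s : ℕ} (hg : 2 ≤ g) (hgk : g < k) (hs : 1 ≤ s) (y : ℕ → Fin k → R) :
    PL y (g + 1) s = DD k g s hg hgk y (k - g + s - 1) (k - g + s) (k - 1 + s) := by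
  rw [DD_eq hg hgk]
  unfold PL
  congr 1; funext m
  have := m.2
  congr 1
  unfold pIdx
  split_ifs <;> omega

/-- sign of the first permutation. -/
def eps1 (k g : ℕ) (hg : 2 ≤ g) (hgk : g < k) : ℤ :=
  (Equiv.Perm.sign (shiftDown k (k - g + 1) (k - 1) (by omega) (by omega)) : ℤ)

/-- sign of the second permutation. -/
def eps2 (k g : ℕ) (hg : 2 ≤ g) (hgk : g < k) : ℤ :=
  (Equiv.Perm.sign (shiftUp k (k - g) (k - 2) (by omega) (by omega)) : ℤ)

theorem PL_acd {g s : ℕ} (hg : 2 ≤ g) (hgk : g < k) (hs : 1 ≤ s) (y : ℕ → Fin k → R) :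
    PL y g (s - 1) = (eps1 k g hg hgk : R) *
      DD k g s hg hgk y (k - g - 1) (k - g + s - 1) (k - g + s) := by
  rw [DD_eq hg hgk]
  unfold PL eps1
  rw [← dt_perm]
  congr 1; funext m
  have := m.2
  simp only [Function.comp_apply, shiftDown_val]
  congr 1
  unfold pIdx dn
  split_ifs <;> omega

theorem PL_abd {g s : ℕ} (hg : 2 ≤ g) (hgk : g < k) (hs : 1 ≤ s) (y : ℕ → Fin k → R) :
    PL y (g - 1) (s - 1) = (eps1 k g hg hgk : R) *
      DD k g s hg hgk y (k - g - 1) (k - g) (k - g + s) := by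
  rw [DD_eq hg hgk]
  unfold PL eps1
  rw [← dt_perm]
  congr 1; funext m
  have := m.2
  simp only [Function.comp_apply, shiftDown_val]
  congr 1
  unfold pIdx dn
  split_ifs <;> omega

theorem PL_def {g s : ℕ} (hg : 2 ≤ g) (hgk : g < k) (y : ℕ → Fin k → R) :
    PL y (g + 1) (s + 1) = (eps2 k g hg hgk : R) *
      DD k g s hg hgk y (k - g + s) (k - 1 + s) (k + s) := by
  rw [DD_eq hg hgk]
  unfold PL eps2
  rw [← dt_perm]
  congr 1; funext m
  have := m.2
  simp only [Function.comp_apply, shiftUp_val]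
  congr 1
  unfold pIdx up
  split_ifs <;> omega

theorem PL_aef {g s : ℕ} (hg : 2 ≤ g) (hgk : g < k) (y : ℕ → Fin k → R) :
    PL y g (s + 1) = (eps2 k g hg hgk : R) *
      DD k g s hg hgk y (k - g - 1) (k - 1 + s) (k + s) := by
  rw [DD_eq hg hgk]
  unfold PL eps2
  rw [← dt_perm]
  congr 1; funext m
  have := m.2
  simp only [Function.comp_apply, shiftUp_val]
  congr 1
  unfold pIdx up
  split_ifs <;> omega

/-! ### The exchange relations -/

/-- The two-argument determinant around the rectangle `(1, s)`. -/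
def EE (k s : ℕ) (hk : 1 < k) (y : ℕ → Fin k → R) (a b : ℕ) : R :=
  d2 (baseFam k 1 s y) ⟨k - 2, by omega⟩ ⟨k - 1, by omega⟩ (y a) (y b)

theorem EE_eq {s : ℕ} (hk : 1 < k) (y : ℕ → Fin k → R) (a b : ℕ) :
    EE k s hk y a b = dt (fun m : Fin k => y (if m.1 = k - 1 then b
      else if m.1 = k - 2 then a else pIdx k 1 s m)) := by
  unfold EE d2 baseFam
  congr 1
  funext m
  simp only [update_apply, Fin.ext_iff]
  split_ifs <;> rfl

/-- The mutated variable at `(1, s)`. -/
def ZA (k s : ℕ) (hk : 1 < k) (y : ℕ → Fin k → R) : R := EE k s hk y (k - 2 + s) (k + s)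

theorem relA {s : ℕ} (hk : 1 < k) (hs : 1 ≤ s) (y : ℕ → Fin k → R) :
    PL y 1 s * ZA k s hk y = PL y 1 (s - 1) * PL y 2 (s + 1) + PL y 2 s * PL y 1 (s + 1) := by
  have h1 : PL y 1 s = EE k s hk y (k - 2) (k - 1 + s) := by
    rw [EE_eq hk]; unfold PL; congr 1; funext m; have := m.2; congr 1
    unfold pIdx; split_ifs <;> omega
  have h2 : PL y 1 (s - 1) = EE k s hk y (k - 2) (k - 2 + s) := by
    rw [EE_eq hk]; unfold PL; congr 1; funext m; have := m.2; congr 1
    unfold pIdx; split_ifs <;> omega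
  have h3 : PL y 2 (s + 1) = EE k s hk y (k - 1 + s) (k + s) := by
    rw [EE_eq hk]; unfold PL; congr 1; funext m; have := m.2; congr 1
    unfold pIdx; split_ifs <;> omega
  have h4 : PL y 2 s = EE k s hk y (k - 2 + s) (k - 1 + s) := by
    rw [EE_eq hk]; unfold PL; congr 1; funext m; have := m.2; congr 1
    unfold pIdx; split_ifs <;> omega
  have h5 : PL y 1 (s + 1) = EE k s hk y (k - 2) (k + s) := by
    rw [EE_eq hk]; unfold PL; congr 1; funext m; have := m.2; congr 1
    unfold pIdx; split_ifs <;> omega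
  rw [h1, h2, h3, h4, h5]
  unfold ZA EE
  have := plucker3 (baseFam k 1 s y) (p := ⟨k - 2, by omega⟩) (q := ⟨k - 1, by omega⟩)
    (by simp only [Ne, Fin.mk.injEq]; omega)
    (y (k - 2)) (y (k - 2 + s)) (y (k - 1 + s)) (y (k + s))
  linear_combination -this

/-- The mutated variable at `(g, 1)`, `g ≥ 2`. -/
def ZB (k g : ℕ) (hg : 2 ≤ g) (hgk : g < k) (y : ℕ → Fin k → R) : R :=
  (eps2 k g hg hgk : R) * DD k g 1 hg hgk y (k - g) k (k + 1)

theorem relB {g : ℕ} (hg : 2 ≤ g) (hgk : g < k) (y : ℕ → Fin k → R) :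
    PL y g 1 * ZB k g hg hgk y = PL y (g - 1) 1 * PL y (g + 1) 2 + PL y (g + 1) 1 * PL y g 2 := by
  have h1 := PL_ade (s := 1) hg hgk y
  have h2 := PL_abe (s := 1) hg hgk y
  have h3 := PL_def (s := 1) hg hgk y
  have h4 := PL_cde (s := 1) hg hgk le_rfl y
  have h5 := PL_aef (s := 1) hg hgk y
  have e1 : k - 1 + 1 = k := by omega
  have e2 : k - g + 1 - 1 = k - g := by omega
  rw [e1] at h1 h2 h3 h4 h5
  rw [e2] at h4
  rw [h1, h2, h3, h4, h5]
  unfold ZB DD
  have := fiveterm (baseFam k g 1 y) (p := ⟨k - g - 1, by omega⟩) (q := ⟨k - g, by omega⟩)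
    (r := ⟨k - 1, by omega⟩)
    (by simp only [Ne, Fin.mk.injEq]; omega)
    (by simp only [Ne, Fin.mk.injEq]; omega)
    (by simp only [Ne, Fin.mk.injEq]; omega)
    (y (k - g - 1)) (y (k - g)) (y (k - g + 1)) (y k) (y (k + 1))
  linear_combination (eps2 k g hg hgk : R) * this

/-- The mutated variable at `(g, s)`, `g, s ≥ 2`. -/
def ZC (k g s : ℕ) (hg : 2 ≤ g) (hgk : g < k) (y : ℕ → Fin k → R) : R :=
  (eps1 k g hg hgk : R) * (eps2 k g hg hgk : R) *
    (DD k g s hg hgk y (k - g + s - 1) (k - g + s) (k + s)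
      * DD k g s hg hgk y (k - g - 1) (k - g) (k - 1 + s)
    - DD k g s hg hgk y (k - g + s - 1) (k - g + s) (k - 1 + s)
      * DD k g s hg hgk y (k - g - 1) (k - g) (k + s))

theorem relC {g s : ℕ} (hg : 2 ≤ g) (hgk : g < k) (hs : 1 ≤ s) (y : ℕ → Fin k → R) :
    PL y g s * ZC k g s hg hgk y
      = PL y g (s - 1) * PL y (g - 1) s * PL y (g + 1) (s + 1)
        + PL y g (s + 1) * PL y (g + 1) s * PL y (g - 1) (s - 1) := by
  have h1 := PL_ade (s := s) hg hgk y
  have h2 := PL_abe (s := s) hg hgk y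
  have h3 := PL_def (s := s) hg hgk y
  have h4 := PL_cde (s := s) hg hgk hs y
  have h5 := PL_aef (s := s) hg hgk y
  have h6 := PL_acd (s := s) hg hgk hs y
  have h7 := PL_abd (s := s) hg hgk hs y
  rw [h1, h2, h3, h4, h5, h6, h7]
  unfold ZC DD
  have := sixterm (baseFam k g s y) (p := ⟨k - g - 1, by omega⟩) (q := ⟨k - g, by omega⟩)
    (r := ⟨k - 1, by omega⟩)
    (by simp only [Ne, Fin.mk.injEq]; omega)
    (by simp only [Ne, Fin.mk.injEq]; omega)
    (by simp only [Ne, Fin.mk.injEq]; omega)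
    (y (k - g - 1)) (y (k - g)) (y (k - g + s - 1)) (y (k - g + s)) (y (k - 1 + s)) (y (k + s))
  linear_combination (eps1 k g hg hgk : R) * (eps2 k g hg hgk : R) * this

/-! ### Evaluation -/

theorem map_dt {S : Type*} [CommRing S] (φ : R →+* S) (v : Fin k → Fin k → R) :
    φ (dt v) = dt (fun m r => φ (v m r)) := by
  unfold dt
  rw [RingHom.map_det]
  rfl

theorem map_PL {S : Type*} [CommRing S] (φ : R →+* S) (y : ℕ → Fin k → R) (g s : ℕ) :
    φ (PL y g s) = PL (fun c r => φ (y c r)) g s := map_dt φ _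

theorem map_DD {S : Type*} [CommRing S] (φ : R →+* S) {g s : ℕ} (hg : 2 ≤ g) (hgk : g < k)
    (y : ℕ → Fin k → R) (a b c : ℕ) :
    φ (DD k g s hg hgk y a b c) = DD k g s hg hgk (fun c r => φ (y c r)) a b c := by
  rw [DD_eq, DD_eq, map_dt]

theorem map_ZA {S : Type*} [CommRing S] (φ : R →+* S) {s : ℕ} (hk : 1 < k)
    (y : ℕ → Fin k → R) : φ (ZA k s hk y) = ZA k s hk (fun c r => φ (y c r)) := by
  unfold ZA
  rw [EE_eq, EE_eq, map_dt]

theorem map_ZB {S : Type*} [CommRing S] (φ : R →+* S) {g : ℕ} (hg : 2 ≤ g) (hgk : g < k)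
    (y : ℕ → Fin k → R) : φ (ZB k g hg hgk y) = ZB k g hg hgk (fun c r => φ (y c r)) := by
  unfold ZB
  rw [map_mul, map_DD, map_intCast]

theorem map_ZC {S : Type*} [CommRing S] (φ : R →+* S) {g s : ℕ} (hg : 2 ≤ g) (hgk : g < k)
    (y : ℕ → Fin k → R) : φ (ZC k g s hg hgk y) = ZC k g s hg hgk (fun c r => φ (y c r)) := by
  unfold ZC
  simp only [map_mul, map_sub, map_DD, map_intCast]

/-- The determinant of the standard basis. -/
theorem dt_one (v : Fin k → Fin k → ℤ) (h : ∀ m r : Fin k, v m r = if r = m then 1 else 0) :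
    dt v = 1 := by
  have : Matrix.of v = 1 := by
    ext m r
    rw [Matrix.of_apply, h, Matrix.one_apply]
    simp only [eq_comm]
  rw [dt, this, Matrix.det_one]

theorem dt_zero_of_zero {v : Fin k → Fin k → R} (m : Fin k) (h : ∀ r, v m r = 0) : dt v = 0 := by
  unfold dt
  exact Matrix.det_eq_zero_of_row_eq_zero m h

/-- Distinct rectangles: a point where the first vanishes and the second does not. -/
theorem exists_sep {g s g' s' : ℕ} (hg : 1 ≤ g) (hgk : g ≤ k) (hs : 1 ≤ s) (hg' : 1 ≤ g')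
    (hgk' : g' ≤ k) (hs' : 1 ≤ s') (hne : ¬ (g = g' ∧ s = s')) :
    ∃ y : ℕ → Fin k → ℤ, (∀ c r, k + s' ≤ c → y c r = 0) ∧ PL y g s = 0 ∧ PL y g' s' = 1 := by
  refine ⟨fun c r => if c = pIdx k g' s' r then 1 else 0, ?_, ?_, ?_⟩
  · intro c r hc
    have := r.2
    dsimp only
    rw [if_neg]
    unfold pIdx
    split_ifs <;> omega
  · -- find a position
    have key : ∃ m : Fin k, ∀ r : Fin k, pIdx k g s m ≠ pIdx k g' s' r := by
      by_cases h1 : s' < s
      · refine ⟨⟨k - 1, by omega⟩, fun r => ?_⟩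
        have := r.2
        unfold pIdx; dsimp only; split_ifs <;> omega
      · by_cases h2 : g < g'
        · refine ⟨⟨k - g', by omega⟩, fun r => ?_⟩
          have := r.2
          unfold pIdx; dsimp only; split_ifs <;> omega
        · by_cases h3 : k - g' ≤ k - g + s
          · refine ⟨⟨k - g, by omega⟩, fun r => ?_⟩
            have := r.2
            unfold pIdx; dsimp only; split_ifs <;> omega
          · refine ⟨⟨k - g' - s, by omega⟩, fun r => ?_⟩
            have := r.2
            unfold pIdx; dsimp only; split_ifs <;> omega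
    obtain ⟨m, hm⟩ := key
    exact dt_zero_of_zero m fun r => if_neg (hm r)
  · apply dt_one
    intro m r
    dsimp only
    congr 1
    have h1 := m.2
    have h2 := r.2
    apply propext
    rw [Fin.ext_iff]
    unfold pIdx
    split_ifs <;> omega

theorem exists_sepA {s : ℕ} (hk : 1 < k) (hs : 1 ≤ s) :
    ∃ y : ℕ → Fin k → ℤ, (∀ c r, k + s < c → y c r = 0) ∧ PL y 1 s = 0 ∧ ZA k s hk y ≠ 0 := by
  refine ⟨fun c r => if c < k - 2 then (if r.1 = c then 1 else 0) else
    if c = k - 2 + s then (if r.1 = k - 2 then 1 else 0) else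
    if c = k + s then (if r.1 = k - 1 then 1 else 0) else 0, ?_, ?_, ?_⟩
  · intro c r hc
    dsimp only
    rw [if_neg (by omega), if_neg (by omega), if_neg (by omega)]
  · refine dt_zero_of_zero ⟨k - 2, by omega⟩ fun r => ?_
    unfold pIdx
    dsimp only
    split_ifs <;> omega
  · unfold ZA
    rw [EE_eq, dt_one]
    · exact one_ne_zero
    · intro m r
      have h1 := m.2
      have h2 := r.2
      unfold pIdx
      simp only [Fin.ext_iff]
      split_ifs <;> omega

/-- The evaluation point for `ZB`: column `c` is the basis vector with this index. -/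
def idxB (k g c : ℕ) : ℕ :=
  if c = k - g - 1 ∨ c = k - g + 1 then k else
  if c = k - g then k - g - 1 else
  if c = k then k - g else
  if c = k + 1 then k - 1 else
  if c < k - g then c else c - 1

theorem idxB_a {k g : ℕ} : idxB k g (k - g - 1) = k := by
  unfold idxB; rw [if_pos (Or.inl rfl)]

theorem idxB_b {k g : ℕ} (hg : 2 ≤ g) (hgk : g < k) : idxB k g (k - g) = k - g - 1 := by
  unfold idxB; split_ifs <;> omega

theorem idxB_e {k g : ℕ} (hg : 2 ≤ g) (hgk : g < k) : idxB k g k = k - g := by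
  unfold idxB; split_ifs <;> omega

theorem idxB_f {k g : ℕ} (hg : 2 ≤ g) (hgk : g < k) : idxB k g (k + 1) = k - 1 := by
  unfold idxB; split_ifs <;> omega

theorem idxB_core {k g m : ℕ} (hg : 2 ≤ g) (hgk : g < k) (hm : m < k)
    (h1 : m ≠ k - 1) (h2 : m ≠ k - g) (h3 : m ≠ k - g - 1) :
    idxB k g (pIdx k g 1 m) = m := by
  unfold idxB pIdx; split_ifs <;> omega

theorem exists_sepB {g : ℕ} (hg : 2 ≤ g) (hgk : g < k) :
    ∃ y : ℕ → Fin k → ℤ, (∀ c r, k + 1 < c → y c r = 0) ∧ PL y g 1 = 0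
      ∧ ZB k g hg hgk y ≠ 0 := by
  refine ⟨fun c r => if r.1 = idxB k g c then 1 else 0, ?_, ?_, ?_⟩
  · intro c r hc
    have := r.2
    dsimp only
    rw [if_neg]
    unfold idxB
    split_ifs <;> omega
  · refine dt_zero_of_zero ⟨k - g - 1, by omega⟩ fun r => ?_
    have hr := r.2
    have h1 : pIdx k g 1 (k - g - 1) = k - g - 1 := by unfold pIdx; rw [if_pos (by omega)]
    dsimp only
    rw [h1, idxB_a, if_neg (by omega)]
  · unfold ZB
    rw [DD_eq, dt_one, mul_one]
    · unfold eps2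
      rcases Int.units_eq_one_or (Equiv.Perm.sign (shiftUp k (k - g) (k - 2) (by omega) (by omega)))
        with h | h <;> rw [h] <;> simp
    · intro m r
      have key : idxB k g (if m.1 = k - 1 then k + 1 else if m.1 = k - g then k
          else if m.1 = k - g - 1 then k - g else pIdx k g 1 m.1) = m.1 := by
        by_cases h1 : m.1 = k - 1
        · rw [if_pos h1, idxB_f hg hgk, h1]
        · rw [if_neg h1]
          by_cases h2 : m.1 = k - g
          · rw [if_pos h2, idxB_e hg hgk, h2]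
          · rw [if_neg h2]
            by_cases h3 : m.1 = k - g - 1
            · rw [if_pos h3, idxB_b hg hgk, h3]
            · rw [if_neg h3]
              exact idxB_core hg hgk m.2 h1 h2 h3
      rw [key]
      simp only [Fin.ext_iff]

/-- The evaluation point for `ZC`: column `c` is the basis vector with this index. -/
def idxC (k g s c : ℕ) : ℕ :=
  if c = k - g + s - 1 then k - g - 1 else
  if c = k - g ∨ c = k + s then k - 1 else
  if c = k - 1 + s then k - g else
  if c < k - g then c else c - s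

theorem idxC_a {k g s : ℕ} (hg : 2 ≤ g) (hgk : g < k) (hs : 2 ≤ s) :
    idxC k g s (k - g - 1) = k - g - 1 := by
  unfold idxC; split_ifs <;> omega

theorem idxC_b {k g s : ℕ} (hg : 2 ≤ g) (hgk : g < k) (hs : 2 ≤ s) :
    idxC k g s (k - g) = k - 1 := by
  unfold idxC; split_ifs <;> omega

theorem idxC_c {k g s : ℕ} : idxC k g s (k - g + s - 1) = k - g - 1 := by
  unfold idxC; rw [if_pos rfl]

theorem idxC_d {k g s : ℕ} (hg : 2 ≤ g) (hgk : g < k) (hs : 2 ≤ s) :
    idxC k g s (k - g + s) = k - g := by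
  unfold idxC; split_ifs <;> omega

theorem idxC_e {k g s : ℕ} (hg : 2 ≤ g) (hgk : g < k) (hs : 2 ≤ s) :
    idxC k g s (k - 1 + s) = k - g := by
  unfold idxC; split_ifs <;> omega

theorem idxC_f {k g s : ℕ} (hg : 2 ≤ g) (hgk : g < k) (hs : 2 ≤ s) :
    idxC k g s (k + s) = k - 1 := by
  unfold idxC; split_ifs <;> omega

theorem idxC_core {k g s m : ℕ} (hg : 2 ≤ g) (hgk : g < k) (hs : 2 ≤ s) (hm : m < k)
    (h1 : m ≠ k - 1) (h2 : m ≠ k - g) (h3 : m ≠ k - g - 1) :
    idxC k g s (pIdx k g s m) = m := by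
  unfold idxC pIdx; split_ifs <;> omega

/-- The evaluation point for `ZC`. -/
def yC (k g s : ℕ) : ℕ → Fin k → ℤ := fun c r => if r.1 = idxC k g s c then 1 else 0

theorem DD_yC_one {k g s a b c : ℕ} (hg : 2 ≤ g) (hgk : g < k) (hs : 2 ≤ s)
    (ha : idxC k g s a = k - g - 1) (hb : idxC k g s b = k - g) (hc : idxC k g s c = k - 1) :
    DD k g s hg hgk (yC k g s) a b c = 1 := by
  rw [DD_eq]
  apply dt_one
  intro m r
  have key : idxC k g s (if m.1 = k - 1 then c else if m.1 = k - g then b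
      else if m.1 = k - g - 1 then a else pIdx k g s m.1) = m.1 := by
    by_cases h1 : m.1 = k - 1
    · rw [if_pos h1, hc, h1]
    · rw [if_neg h1]
      by_cases h2 : m.1 = k - g
      · rw [if_pos h2, hb, h2]
      · rw [if_neg h2]
        by_cases h3 : m.1 = k - g - 1
        · rw [if_pos h3, ha, h3]
        · rw [if_neg h3]
          exact idxC_core hg hgk hs m.2 h1 h2 h3
  unfold yC
  rw [key]
  simp only [Fin.ext_iff]

theorem DD_yC_zero {k g s a b c : ℕ} (hg : 2 ≤ g) (hgk : g < k)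
    (hbc : idxC k g s b = idxC k g s c) : DD k g s hg hgk (yC k g s) a b c = 0 := by
  unfold DD d3
  apply dt_eq_zero (p := ⟨k - g, by omega⟩) (q := ⟨k - 1, by omega⟩)
  · simp only [Ne, Fin.mk.injEq]; omega
  · rw [update_self, update_of_ne (by simp only [Ne, Fin.mk.injEq]; omega), update_self]
    funext r
    unfold yC
    rw [hbc]

theorem DD_swap {k g s a b c : ℕ} (hg : 2 ≤ g) (hgk : g < k) (y : ℕ → Fin k → R) :
    DD k g s hg hgk y a b c = -DD k g s hg hgk y a c b := by
  unfold DD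
  rw [d3_eq_qr, d3_eq_qr, d2_swap _ (by simp only [Ne, Fin.mk.injEq]; omega)]

theorem exists_sepC {g s : ℕ} (hg : 2 ≤ g) (hgk : g < k) (hs : 2 ≤ s) :
    ∃ y : ℕ → Fin k → ℤ, (∀ c r, k + s < c → y c r = 0) ∧ PL y g s = 0
      ∧ ZC k g s hg hgk y ≠ 0 := by
  refine ⟨yC k g s, ?_, ?_, ?_⟩
  · intro c r hc
    have := r.2
    unfold yC
    rw [if_neg]
    unfold idxC
    split_ifs <;> omega
  · rw [PL_ade hg hgk]
    exact DD_yC_zero hg hgk (by rw [idxC_d hg hgk hs, idxC_e hg hgk hs])
  · unfold ZC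
    rw [DD_yC_one hg hgk hs idxC_c (idxC_d hg hgk hs) (idxC_f hg hgk hs),
      DD_yC_zero (a := k - g + s - 1) hg hgk (by rw [idxC_d hg hgk hs, idxC_e hg hgk hs]),
      DD_swap hg hgk (yC k g s) (a := k - g - 1) (b := k - g) (c := k - 1 + s),
      DD_yC_one hg hgk hs (idxC_a hg hgk hs) (idxC_e hg hgk hs) (idxC_b hg hgk hs)]
    unfold eps1 eps2
    rcases Int.units_eq_one_or (Equiv.Perm.sign (shiftUp k (k - g) (k - 2) (by omega) (by omega)))
      with h | h <;>
    rcases Int.units_eq_one_or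
      (Equiv.Perm.sign (shiftDown k (k - g + 1) (k - 1) (by omega) (by omega)))
      with h' | h' <;> rw [h, h'] <;> simp

end Pool.Agent.helper36
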