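import Mathlib
import Pool.Agent.helper36.ClusterDefs
import Pool.Agent.helper36.Laurent
import Pool.Agent.helper36.Rect
import Pool.Agent.helper36.Irred

/-!
The standard cluster structure on the Grassmannian `Gr(k, k + l)` through the rectangles seed.
-/

set_option linter.unusedSectionVars false

namespace Pool.Agent.helper36

open MvPolynomial Seed

section products

variable {k l : ℕ} {M : Type*} [CommMonoid M]

/-- Extension of a function of rectangles to all pairs of sizes. -/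
def extR (f : RectVertex k l → M) (g s : ℕ) : M :=
  if h : 1 ≤ g ∧ g ≤ k ∧ 1 ≤ s ∧ s ≤ l then f (some (⟨g - 1, by omega⟩, ⟨s - 1, by omega⟩))
  else f none

theorem extR_some (f : RectVertex k l → M) (i : Fin k) (j : Fin l) :
    f (some (i, j)) = extR f (i.1 + 1) (j.1 + 1) := by
  unfold extR
  rw [dif_pos ⟨by omega, by have := i.2; omega, by omega, by have := j.2; omega⟩]
  rfl

theorem prod_indicator (f : RectVertex k l → M) (S : Finset (Fin k × Fin l))
    (e : Fin k × Fin l → ℕ) (he : ∀ w, e w = if w ∈ S then 1 else 0) :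
    ∏ w, f (some w) ^ e w = ∏ w ∈ S, f (some w) := by
  classical
  have : ∀ w : Fin k × Fin l, f (some w) ^ e w = if w ∈ S then f (some w) else 1 := by
    intro w
    rw [he]
    split_ifs <;> simp
  simp only [this]
  rw [Finset.prod_ite_mem, Finset.univ_inter]

variable (f : RectVertex k l → M) (i : Fin k) (j : Fin l)

theorem prodIn_A (hi : i.1 = 0) (hk : 1 < k) (hj : j.1 + 1 < l) :
    ∏ v, f v ^ (rectB k l v (some (i, j))).toNat = extR f 1 j.1 * extR f 2 (j.1 + 2) := by
  classical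
  have h2 : extR f 2 (j.1 + 2) = f (some (⟨1, hk⟩, ⟨j.1 + 1, hj⟩)) := by
    rw [extR_some f]
  rw [Fintype.prod_option, h2]
  by_cases hj0 : j.1 = 0
  · have h1 : extR f 1 j.1 = f none := by
      unfold extR; rw [dif_neg (by omega)]
    have h3 : (rectB k l none (some (i, j))).toNat = 1 := by
      unfold rectB rectArrow; simp [hi, hj0]
    rw [h1, h3, pow_one]
    congr 1
    rw [prod_indicator f {(⟨1, hk⟩, ⟨j.1 + 1, hj⟩)}]
    · simp
    · rintro ⟨a, b⟩
      unfold rectB rectArrow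
      simp only [Finset.mem_singleton, Prod.mk.injEq, Fin.ext_iff]
      split_ifs <;> first | rfl | (exfalso; omega)
  · have h1 : extR f 1 j.1 = f (some (⟨0, by omega⟩, ⟨j.1 - 1, by omega⟩)) := by
      rw [extR_some f]
      dsimp only
      congr 1
      omega
    have h3 : (rectB k l none (some (i, j))).toNat = 0 := by
      unfold rectB rectArrow; simp [hj0]
    rw [h1, h3, pow_zero, one_mul]
    rw [prod_indicator f {(⟨0, by omega⟩, ⟨j.1 - 1, by omega⟩), (⟨1, hk⟩, ⟨j.1 + 1, hj⟩)}]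
    · rw [Finset.prod_pair]
      simp only [Ne, Prod.mk.injEq, Fin.ext_iff]; omega
    · rintro ⟨a, b⟩
      unfold rectB rectArrow
      simp only [Finset.mem_insert, Finset.mem_singleton, Prod.mk.injEq, Fin.ext_iff]
      split_ifs <;> first | rfl | (exfalso; omega)

theorem prodOut_A (hi : i.1 = 0) (hk : 1 < k) (hj : j.1 + 1 < l) :
    ∏ v, f v ^ (-rectB k l v (some (i, j))).toNat = extR f 2 (j.1 + 1) * extR f 1 (j.1 + 2) := by
  classical
  have h1 : extR f 2 (j.1 + 1) = f (some (⟨1, hk⟩, j)) := by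
    rw [extR_some f]
  have h2 : extR f 1 (j.1 + 2) = f (some (⟨0, by omega⟩, ⟨j.1 + 1, hj⟩)) := by
    rw [extR_some f]
  have h3 : (-rectB k l none (some (i, j))).toNat = 0 := by
    unfold rectB rectArrow; dsimp only; split_ifs <;> rfl
  rw [Fintype.prod_option, h1, h2, h3, pow_zero, one_mul,
    prod_indicator f {(⟨1, hk⟩, j), (⟨0, by omega⟩, ⟨j.1 + 1, hj⟩)}]
  · rw [Finset.prod_pair]
    simp only [Ne, Prod.mk.injEq, Fin.ext_iff]; omega
  · rintro ⟨a, b⟩
    unfold rectB rectArrow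
    simp only [Finset.mem_insert, Finset.mem_singleton, Prod.mk.injEq, Fin.ext_iff]
    split_ifs <;> first | rfl | (exfalso; omega)

theorem prodIn_B (hi : 1 ≤ i.1) (hk : i.1 + 1 < k) (hj : j.1 = 0) (hl : 1 < l) :
    ∏ v, f v ^ (rectB k l v (some (i, j))).toNat = extR f i.1 1 * extR f (i.1 + 2) 2 := by
  classical
  have h1 : extR f i.1 1 = f (some (⟨i.1 - 1, by omega⟩, ⟨0, by omega⟩)) := by
    rw [extR_some f]
    dsimp only
    congr 1
    omega
  have h2 : extR f (i.1 + 2) 2 = f (some (⟨i.1 + 1, hk⟩, ⟨1, hl⟩)) := by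
    rw [extR_some f]
  have h3 : (rectB k l none (some (i, j))).toNat = 0 := by
    unfold rectB rectArrow; dsimp only; rw [if_neg (by omega)]; rfl
  rw [Fintype.prod_option, h1, h2, h3, pow_zero, one_mul,
    prod_indicator f {(⟨i.1 - 1, by omega⟩, ⟨0, by omega⟩), (⟨i.1 + 1, hk⟩, ⟨1, hl⟩)}]
  · rw [Finset.prod_pair]
    simp only [Ne, Prod.mk.injEq, Fin.ext_iff]; omega
  · rintro ⟨a, b⟩
    unfold rectB rectArrow
    simp only [Finset.mem_insert, Finset.mem_singleton, Prod.mk.injEq, Fin.ext_iff]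
    split_ifs <;> first | rfl | (exfalso; omega)

theorem prodOut_B (hk : i.1 + 1 < k) (hj : j.1 = 0) (hl : 1 < l) :
    ∏ v, f v ^ (-rectB k l v (some (i, j))).toNat = extR f (i.1 + 2) 1 * extR f (i.1 + 1) 2 := by
  classical
  have h1 : extR f (i.1 + 2) 1 = f (some (⟨i.1 + 1, hk⟩, ⟨0, by omega⟩)) := by
    rw [extR_some f]
  have h2 : extR f (i.1 + 1) 2 = f (some (i, ⟨1, hl⟩)) := by
    rw [extR_some f]
  have h3 : (-rectB k l none (some (i, j))).toNat = 0 := by
    unfold rectB rectArrow; dsimp only; split_ifs <;> rfl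
  rw [Fintype.prod_option, h1, h2, h3, pow_zero, one_mul,
    prod_indicator f {(⟨i.1 + 1, hk⟩, ⟨0, by omega⟩), (i, ⟨1, hl⟩)}]
  · rw [Finset.prod_pair]
    simp only [Ne, Prod.mk.injEq, Fin.ext_iff]; omega
  · rintro ⟨a, b⟩
    unfold rectB rectArrow
    simp only [Finset.mem_insert, Finset.mem_singleton, Prod.mk.injEq, Fin.ext_iff]
    split_ifs <;> first | rfl | (exfalso; omega)

theorem prodIn_C (hi : 1 ≤ i.1) (hk : i.1 + 1 < k) (hj : 1 ≤ j.1) (hl : j.1 + 1 < l) :
    ∏ v, f v ^ (rectB k l v (some (i, j))).toNat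
      = extR f (i.1 + 1) j.1 * extR f i.1 (j.1 + 1) * extR f (i.1 + 2) (j.1 + 2) := by
  classical
  have h1 : extR f (i.1 + 1) j.1 = f (some (i, ⟨j.1 - 1, by omega⟩)) := by
    rw [extR_some f]; dsimp only; congr 1; omega
  have h2 : extR f i.1 (j.1 + 1) = f (some (⟨i.1 - 1, by omega⟩, j)) := by
    rw [extR_some f]; dsimp only; congr 1; omega
  have h4 : extR f (i.1 + 2) (j.1 + 2) = f (some (⟨i.1 + 1, hk⟩, ⟨j.1 + 1, hl⟩)) := by
    rw [extR_some f]
  have h3 : (rectB k l none (some (i, j))).toNat = 0 := by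
    unfold rectB rectArrow; dsimp only; rw [if_neg (by omega)]; rfl
  rw [Fintype.prod_option, h1, h2, h3, h4, pow_zero, one_mul,
    prod_indicator f {(i, ⟨j.1 - 1, by omega⟩), (⟨i.1 - 1, by omega⟩, j),
      (⟨i.1 + 1, hk⟩, ⟨j.1 + 1, hl⟩)}]
  · rw [Finset.prod_insert, Finset.prod_pair, mul_assoc]
    · simp only [Ne, Prod.mk.injEq, Fin.ext_iff]; omega
    · simp only [Finset.mem_insert, Finset.mem_singleton, Prod.mk.injEq, Fin.ext_iff]; omega
  · rintro ⟨a, b⟩
    unfold rectB rectArrow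
    simp only [Finset.mem_insert, Finset.mem_singleton, Prod.mk.injEq, Fin.ext_iff]
    split_ifs <;> first | rfl | (exfalso; omega)

theorem prodOut_C (hi : 1 ≤ i.1) (hk : i.1 + 1 < k) (hj : 1 ≤ j.1) (hl : j.1 + 1 < l) :
    ∏ v, f v ^ (-rectB k l v (some (i, j))).toNat
      = extR f (i.1 + 1) (j.1 + 2) * extR f (i.1 + 2) (j.1 + 1) * extR f i.1 j.1 := by
  classical
  have h1 : extR f (i.1 + 1) (j.1 + 2) = f (some (i, ⟨j.1 + 1, hl⟩)) := by
    rw [extR_some f]
  have h2 : extR f (i.1 + 2) (j.1 + 1) = f (some (⟨i.1 + 1, hk⟩, j)) := by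
    rw [extR_some f]
  have h4 : extR f i.1 j.1 = f (some (⟨i.1 - 1, by omega⟩, ⟨j.1 - 1, by omega⟩)) := by
    rw [extR_some f]; dsimp only; congr 1 <;> omega
  have h3 : (-rectB k l none (some (i, j))).toNat = 0 := by
    unfold rectB rectArrow; dsimp only; split_ifs <;> rfl
  rw [Fintype.prod_option, h1, h2, h3, h4, pow_zero, one_mul,
    prod_indicator f {(i, ⟨j.1 + 1, hl⟩), (⟨i.1 + 1, hk⟩, j),
      (⟨i.1 - 1, by omega⟩, ⟨j.1 - 1, by omega⟩)}]
  · rw [Finset.prod_insert, Finset.prod_pair, mul_assoc]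
    · simp only [Ne, Prod.mk.injEq, Fin.ext_iff]; omega
    · simp only [Finset.mem_insert, Finset.mem_singleton, Prod.mk.injEq, Fin.ext_iff]; omega
  · rintro ⟨a, b⟩
    unfold rectB rectArrow
    simp only [Finset.mem_insert, Finset.mem_singleton, Prod.mk.injEq, Fin.ext_iff]
    split_ifs <;> first | rfl | (exfalso; omega)

end products

end Pool.Agent.helper36
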