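import Mathlib
import Pool.Agent.helper36.Grass

/-!
The starfish argument over the integers, and integrality of all cluster variables.
-/

set_option linter.unusedSectionVars false

namespace Pool.Agent.helper36

open MvPolynomial Seed

section starfish

variable {V : Type} [Fintype V] [DecidableEq V] {R F : Type*} [CommRing R] [IsDomain R]
  [UniqueFactorizationMonoid R] [Field F] [Algebra R F] [IsFractionRing R F]

theorem starfish (s : Seed V F) (hs : s.Skew) (p : V → R)
    (hp : ∀ v, s.x v = algebraMap R F (p v)) {P : F → Prop} (hP : PosLike P)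
    (hpos : ∀ v, P (s.x v)) (π : R) (hπ : Prime π)
    (hstar : (∀ v, ¬ π ∣ p v) ∨ ∃ i, (∀ v, v ≠ i → ¬ π ∣ p v) ∧
      ∃ q : R, ¬ π ∣ q ∧ s.exch i = algebraMap R F (p i * q))
    (l : List V) (u : V) : IO π ((s.run l).x u) := by
  have main : ∀ (t : Seed V F) (l : List V), t.Skew → (∀ v, IU π (t.x v)) → (∀ v, P (t.x v)) →
      IO π ((t.run l).x u) := by
    intro t l ht htU htp
    exact univ_mem (laurent t.B ht l u) hP t rfl htp (ioSubring hπ) (fun v => (htU v).io)
      (fun v => (htU v).inv.io)
  rcases hstar with h | ⟨i, h1, q, hq, hex⟩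
  · exact main s l hs (fun v => by rw [hp v]; exact IU.of hπ (h v)) hpos
  · have hinv : (s.mutate i).mutate i = s :=
      mutate_mutate hs i (hP.ne_zero (hpos i)) (hP.ne_zero (hP.exch hpos i))
    have := main (s.mutate i) (i :: l) (hs.mutate i) ?_ (hP.mutate hpos i)
    · rw [run_cons, hinv] at this
      exact this
    · intro v
      by_cases hv : v = i
      · subst hv
        rw [mutate_x_self, hex, hp v, map_mul, mul_div_cancel_left₀]
        · exact IU.of hπ hq
        · rw [← hp v]; exact hP.ne_zero (hpos v)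
      · rw [mutate_x_of_ne _ hv, hp v]
        exact IU.of hπ (h1 v hv)

open Classical in
theorem value_int (ψ : R →+* ℤ) (p : V → R) (froz : V → Prop)
    (hunit : ∀ v, froz v → IsUnit (ψ (p v))) (z : F)
    (hz : ∀ π : R, Prime π → (∀ v, froz v → ¬ π ∣ p v) → IO π z) :
    ∃ c : ℤ, Ev ((Int.castRingHom ℚ).comp ψ) z (c : ℚ) := by
  obtain ⟨a, b, hab, hzab⟩ := IsFractionRing.exists_reduced_fraction R z
  have hb0 : (b : R) ≠ 0 := nonZeroDivisors.ne_zero b.2
  have hzb : z * algebraMap R F b = algebraMap R F a := by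
    rw [← hzab]; exact IsLocalization.mk'_spec _ _ _
  set m : R := ∏ v, if froz v then p v else 1 with hm
  obtain ⟨N, hN⟩ := dvd_pow_of_primes m b hb0 (by
    intro π hπ hd
    by_contra hcon
    have h1 : ∀ v, froz v → ¬ π ∣ p v := by
      intro v hv hd'
      apply hcon
      refine hd'.trans ?_
      have := Finset.dvd_prod_of_mem (fun v => if froz v then p v else 1) (Finset.mem_univ v)
      rwa [if_pos hv] at this
    obtain ⟨p', q', hq', hpq⟩ := hz π hπ h1
    have h2 : a * q' = p' * b := by
      apply IsFractionRing.injective R F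
      rw [map_mul, map_mul, ← hzb, ← hpq]; ring
    have h3 : π ∣ a * q' := by rw [h2]; exact Dvd.dvd.mul_left hd p'
    rcases hπ.dvd_or_dvd h3 with h4 | h4
    · exact hπ.not_isUnit (hab h4 hd)
    · exact hq' h4)
  have hmu : IsUnit (ψ (m ^ N)) := by
    rw [map_pow, hm, map_prod]
    refine IsUnit.pow _ ?_
    rw [IsUnit.prod_univ_iff]
    intro v
    by_cases hv : froz v
    · rw [if_pos hv]; exact hunit v hv
    · rw [if_neg hv, map_one]; exact isUnit_one
  have hbu : IsUnit (ψ b) := isUnit_of_dvd_unit (map_dvd ψ hN) hmu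
  have hbb : ψ b * ψ b = 1 := Int.isUnit_mul_self hbu
  refine ⟨ψ a * ψ b, a, b, ?_, hzb, ?_⟩
  · simp only [RingHom.comp_apply, eq_intCast]
    exact_mod_cast hbu.ne_zero
  · simp only [RingHom.comp_apply, eq_intCast]
    have : ψ a * ψ b * ψ b = ψ a := by rw [mul_assoc, hbb, mul_one]
    exact_mod_cast this

end starfish

end Pool.Agent.helper36
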