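import Mathlib
import Pool.Agent.helper36.Starfish

/-!
Integrality of all cluster variables of `Gr(k, k + l)` at integer matrices whose frozen minors are
units.
-/

set_option linter.unusedSectionVars false

namespace Pool.Agent.helper36

open MvPolynomial Seed

variable {k l : ℕ}

theorem rectB_skew (k l : ℕ) : ∀ u v, rectB k l u v = -rectB k l v u := by
  intro u v; unfold rectB; ring

theorem rectCol_strictMono (v : RectVertex k l) : StrictMono (rectCol v) := by
  intro m m' h
  rw [Fin.lt_def] at h ⊢
  rcases v with _ | ⟨i, j⟩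
  · exact h
  · unfold rectCol
    dsimp only
    split_ifs <;> simp only <;> omega

theorem plucker_eq_gmin {n : ℕ} (c : Fin k → Fin n) : plucker c = gmin id c := by
  unfold plucker gmin
  rw [← Matrix.det_transpose]
  rfl

theorem plucker_irreducible (hk : 1 ≤ k) {n : ℕ} (c : Fin k → Fin n)
    (hc : Function.Injective c) : Irreducible (plucker c) := by
  rw [plucker_eq_gmin]
  obtain ⟨m, rfl⟩ : ∃ m, k = m + 1 := ⟨k - 1, by omega⟩
  exact gmin_irreducible m id c Function.injective_id hc

/-- The columns of the generic matrix, extended by zero. -/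
noncomputable def y0 (k n : ℕ) : ℕ → Fin k → MatRing k n := fun c r =>
  if h : c < n then X (r, ⟨c, h⟩) else 0

theorem plucker_eq_dt {n : ℕ} (c : Fin k → Fin n) :
    plucker c = dt (fun m : Fin k => y0 k n (c m).1) := by
  rw [plucker_eq_gmin]
  unfold gmin dt
  congr 1
  ext m r
  simp only [Matrix.of_apply, y0, dif_pos (c m).2, id]

theorem plucker_none (g : ℕ) : plucker (rectCol (none : RectVertex k l)) = PL (y0 k (k + l)) g 0 := by
  rw [plucker_eq_dt]
  unfold PL
  congr 1
  funext m
  congr 1
  unfold pIdx rectCol
  split_ifs <;> rfl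

theorem plucker_none' (s : ℕ) :
    plucker (rectCol (none : RectVertex k l)) = PL (y0 k (k + l)) 0 s := by
  rw [plucker_eq_dt]
  unfold PL
  congr 1
  funext m
  congr 1
  have := m.2
  unfold pIdx rectCol
  rw [if_pos (by omega)]

theorem plucker_some (i : Fin k) (j : Fin l) :
    plucker (rectCol (some (i, j) : RectVertex k l)) = PL (y0 k (k + l)) (i.1 + 1) (j.1 + 1) := by
  rw [plucker_eq_dt]
  unfold PL
  congr 1
  funext m
  congr 1
  unfold pIdx rectCol
  dsimp only
  split_ifs <;> rfl

theorem extR_plucker (g s : ℕ) (hg : g ≤ k) (hs : s ≤ l) :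
    extR (fun v : RectVertex k l => plucker (rectCol v)) g s = PL (y0 k (k + l)) g s := by
  unfold extR
  by_cases h : 1 ≤ g ∧ g ≤ k ∧ 1 ≤ s ∧ s ≤ l
  · rw [dif_pos h]
    dsimp only
    rw [plucker_some]
    dsimp only
    congr 1 <;> omega
  · rw [dif_neg h]
    by_cases hg0 : g = 0
    · subst hg0; exact plucker_none' s
    · have : s = 0 := by omega
      subst this; exact plucker_none g

theorem rectSeed_exch (v : RectVertex k l) :
    (rectSeed k l).exch v = algebraMap (MatRing k (k + l)) (MatField k (k + l))
      (∏ w, plucker (rectCol w) ^ (rectB k l w v).toNat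
        + ∏ w, plucker (rectCol w) ^ (-rectB k l w v).toNat) := by
  unfold Seed.exch rectSeed
  simp only [map_add, map_prod, map_pow]

/-- Evaluation of matrix polynomials at a sequence of columns. -/
noncomputable def evY (k n : ℕ) (y : ℕ → Fin k → ℤ) : MatRing k n →+* ℤ :=
  MvPolynomial.eval fun p => y p.2.1 p.1

theorem evY_y0 (n : ℕ) (y : ℕ → Fin k → ℤ) (hy : ∀ c r, n ≤ c → y c r = 0) :
    (fun c r => evY k n y (y0 k n c r)) = y := by
  funext c r
  unfold y0 evY
  by_cases h : c < n
  · rw [dif_pos h, MvPolynomial.eval_X]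
  · rw [dif_neg h, map_zero, hy c r (by omega)]

/-- The exchange relation at a mutable vertex, together with a point witnessing coprimality. -/
theorem rect_star (v : RectVertex k l) (hv : RectMutable v) :
    ∃ q : MatRing k (k + l), (rectSeed k l).exch v
        = algebraMap (MatRing k (k + l)) (MatField k (k + l)) (plucker (rectCol v) * q)
      ∧ ∃ ψ : MatRing k (k + l) →+* ℤ, ψ (plucker (rectCol v)) = 0 ∧ ψ q ≠ 0 := by
  rcases v with _ | ⟨i, j⟩
  · exact absurd hv (by unfold RectMutable; exact not_false)
  obtain ⟨hi, hj⟩ := hv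
  by_cases hi0 : i.1 = 0
  · have hk : 1 < k := by omega
    refine ⟨ZA k (j.1 + 1) hk (y0 k (k + l)), ?_, ?_⟩
    · rw [rectSeed_exch]
      congr 1
      rw [prodIn_A (fun v => plucker (rectCol v)) i j hi0 hk hj,
        prodOut_A (fun v => plucker (rectCol v)) i j hi0 hk hj,
        extR_plucker _ _ (by omega) (by omega), extR_plucker _ _ (by omega) (by omega),
        extR_plucker _ _ (by omega) (by omega), extR_plucker _ _ (by omega) (by omega),
        plucker_some, hi0]
      have := relA (s := j.1 + 1) hk (by omega) (y0 k (k + l))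
      rw [Nat.add_sub_cancel] at this
      rw [zero_add, this]
    · obtain ⟨y, hy0, hy1, hy2⟩ := exists_sepA (k := k) (s := j.1 + 1) hk (by omega)
      refine ⟨evY k (k + l) y, ?_, ?_⟩
      · rw [plucker_some, hi0, map_PL, evY_y0 _ _ (fun c r hc => hy0 c r (by omega))]
        exact hy1
      · rw [map_ZA, evY_y0 _ _ (fun c r hc => hy0 c r (by omega))]
        exact hy2
  · by_cases hj0 : j.1 = 0
    · refine ⟨ZB k (i.1 + 1) (by omega) hi (y0 k (k + l)), ?_, ?_⟩
      · rw [rectSeed_exch]
        congr 1
        rw [prodIn_B (fun v => plucker (rectCol v)) i j (by omega) hi hj0 (by omega),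
          prodOut_B (fun v => plucker (rectCol v)) i j hi hj0 (by omega),
          extR_plucker _ _ (by omega) (by omega), extR_plucker _ _ (by omega) (by omega),
          extR_plucker _ _ (by omega) (by omega), extR_plucker _ _ (by omega) (by omega),
          plucker_some, hj0, zero_add]
        have := relB (g := i.1 + 1) (by omega) hi (y0 k (k + l))
        rw [Nat.add_sub_cancel] at this
        rw [this]
      · obtain ⟨y, hy0, hy1, hy2⟩ := exists_sepB (k := k) (g := i.1 + 1) (by omega) hi
        refine ⟨evY k (k + l) y, ?_, ?_⟩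
        · rw [plucker_some, hj0, map_PL, evY_y0 _ _ (fun c r hc => hy0 c r (by omega))]
          exact hy1
        · rw [map_ZB, evY_y0 _ _ (fun c r hc => hy0 c r (by omega))]
          exact hy2
    · refine ⟨ZC k (i.1 + 1) (j.1 + 1) (by omega) hi (y0 k (k + l)), ?_, ?_⟩
      · rw [rectSeed_exch]
        congr 1
        rw [prodIn_C (fun v => plucker (rectCol v)) i j (by omega) hi (by omega) hj,
          prodOut_C (fun v => plucker (rectCol v)) i j (by omega) hi (by omega) hj,
          extR_plucker _ _ (by omega) (by omega), extR_plucker _ _ (by omega) (by omega),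
          extR_plucker _ _ (by omega) (by omega), extR_plucker _ _ (by omega) (by omega),
          extR_plucker _ _ (by omega) (by omega), extR_plucker _ _ (by omega) (by omega),
          plucker_some]
        have := relC (g := i.1 + 1) (s := j.1 + 1) (by omega) hi (by omega) (y0 k (k + l))
        rw [Nat.add_sub_cancel, Nat.add_sub_cancel] at this
        rw [this]
      · obtain ⟨y, hy0, hy1, hy2⟩ :=
          exists_sepC (k := k) (g := i.1 + 1) (s := j.1 + 1) (by omega) hi (by omega)
        refine ⟨evY k (k + l) y, ?_, ?_⟩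
        · rw [plucker_some, map_PL, evY_y0 _ _ (fun c r hc => hy0 c r (by omega))]
          exact hy1
        · rw [map_ZC, evY_y0 _ _ (fun c r hc => hy0 c r (by omega))]
          exact hy2

/-- Evaluation at a Vandermonde matrix. -/
noncomputable def evV (k n : ℕ) : MatRing k n →+* ℚ :=
  MvPolynomial.eval₂Hom (Int.castRingHom ℚ) fun p => ((p.2.1 : ℚ) + 1) ^ p.1.1

theorem evV_plucker_pos {n : ℕ} (c : Fin k → Fin n) (hc : StrictMono c) :
    0 < evV k n (plucker c) := by
  unfold plucker
  rw [RingHom.map_det]
  have : (evV k n).mapMatrix (Matrix.of fun r m => X (r, c m))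
      = (Matrix.vandermonde fun m => ((c m).1 : ℚ) + 1).transpose := by
    ext r m
    simp [evV, Matrix.vandermonde]
  rw [this, Matrix.det_transpose, Matrix.det_vandermonde]
  refine Finset.prod_pos fun i _ => Finset.prod_pos fun j hj => ?_
  rw [Finset.mem_Ioi] at hj
  have := hc hj
  rw [Fin.lt_def] at this
  have : ((c i).1 : ℚ) < (c j).1 := by exact_mod_cast this
  linarith

/-- Every cluster variable of `Gr(k, k + l)` is integral away from the frozen variables. -/
theorem cluster_io (hk : 1 ≤ k) (L : List (RectVertex k l)) (u : RectVertex k l)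
    (π : MatRing k (k + l)) (hπ : Prime π)
    (hfr : ∀ v : RectVertex k l, ¬ RectMutable v → ¬ π ∣ plucker (rectCol v)) :
    IO π (((rectSeed k l).run L).x u) := by
  refine starfish (rectSeed k l) (rectB_skew k l) (fun v => plucker (rectCol v))
    (fun v => rfl) (posLike_ev (evV k (k + l)))
    (fun v => ⟨_, evV_plucker_pos _ (rectCol_strictMono v), Ev.of _⟩) π hπ ?_ L u
  by_cases h : ∀ v : RectVertex k l, ¬ π ∣ plucker (rectCol v)
  · left; exact h
  · right
    push Not at h
    obtain ⟨i, hi⟩ := h
    have him : RectMutable i := by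
      by_contra hcon
      exact hfr i hcon hi
    have hirr : Irreducible (plucker (rectCol i)) :=
      plucker_irreducible hk _ (rectCol_strictMono i).injective
    have hass : Associated π (plucker (rectCol i)) := hπ.irreducible.associated_of_dvd hirr hi
    refine ⟨i, ?_, ?_⟩
    · intro v hvi hd
      by_cases hvm : RectMutable v
      · have hdv : plucker (rectCol i) ∣ plucker (rectCol v) := hass.symm.dvd.trans hd
        rcases i with _ | ⟨i1, i2⟩
        · exact him
        rcases v with _ | ⟨v1, v2⟩
        · exact hvm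
        obtain ⟨hi1, hi2⟩ := him
        obtain ⟨hv1, hv2⟩ := hvm
        obtain ⟨y, hy0, hy1, hy2⟩ := exists_sep (k := k) (g := i1.1 + 1) (s := i2.1 + 1)
          (g' := v1.1 + 1) (s' := v2.1 + 1) (by omega) (by omega) (by omega) (by omega)
          (by omega) (by omega) (by
            rintro ⟨h1, h2⟩
            apply hvi
            congr 1
            rw [Prod.mk.injEq, Fin.ext_iff, Fin.ext_iff]
            omega)
        have e1 : evY k (k + l) y (plucker (rectCol (some (i1, i2)))) = 0 := by
          rw [plucker_some, map_PL, evY_y0 _ _ (fun c r hc => hy0 c r (by omega))]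
          exact hy1
        have e2 : evY k (k + l) y (plucker (rectCol (some (v1, v2)))) = 1 := by
          rw [plucker_some, map_PL, evY_y0 _ _ (fun c r hc => hy0 c r (by omega))]
          exact hy2
        obtain ⟨c, hc⟩ := hdv
        rw [hc, map_mul, e1, zero_mul] at e2
        exact zero_ne_one e2
      · exact hfr v hvm hd
    · obtain ⟨q, hq, ψ, h1, h2⟩ := rect_star i him
      refine ⟨q, ?_, hq⟩
      intro hd
      have hdv : plucker (rectCol i) ∣ q := hass.symm.dvd.trans hd
      obtain ⟨c, hc⟩ := hdv
      rw [hc, map_mul, h1, zero_mul] at h2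
      exact h2 rfl

/-- **Integrality.** At an integer `k × (k + l)` matrix all of whose frozen minors are `±1`,
every cluster variable of `Gr(k, k + l)` is regular and takes an integer value. -/
theorem cluster_int (hk : 1 ≤ k) (A : Fin k → Fin (k + l) → ℤ)
    (hA : ∀ v : RectVertex k l, ¬ RectMutable v →
      IsUnit (Matrix.det (Matrix.of fun r m => A r (rectCol v m))))
    (z : MatField k (k + l)) (hz : IsClusterVariable k l z) :
    ∃ c : ℤ, Ev (MvPolynomial.eval₂Hom (Int.castRingHom ℚ) fun p : Fin k × Fin (k + l) => (A p.1 p.2 : ℚ)) z (c : ℚ) := by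
  obtain ⟨L, _, u, _, rfl⟩ := hz
  set ψ : MatRing k (k + l) →+* ℤ := MvPolynomial.eval fun p => A p.1 p.2 with hψ
  have hcomp : (Int.castRingHom ℚ).comp ψ
      = MvPolynomial.eval₂Hom (Int.castRingHom ℚ) fun p : Fin k × Fin (k + l) => (A p.1 p.2 : ℚ) := by
    apply MvPolynomial.ringHom_ext
    · intro r; simp [hψ]
    · intro p; simp [hψ]
  rw [← hcomp]
  refine value_int ψ (fun v => plucker (rectCol v)) (fun v => ¬ RectMutable v) ?_ _ ?_
  · intro v hv
    have := hA v hv
    convert this using 1
    unfold plucker
    rw [RingHom.map_det]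
    congr 1
    ext r m
    simp [hψ]
  · intro π hπ hfr
    exact cluster_io hk L u π hπ hfr

end Pool.Agent.helper36
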