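import Mathlib
import Pool.Agent.helper36.ClusterDefs
import Pool.Agent.helper36.Grass

/-!
Cluster variables of the Grassmannian are invariant under `SL_k`: their values at two matrices
`A` and `g * A` with `det g = 1` agree.
-/

set_option linter.unusedSectionVars false

namespace Pool.Agent.helper36

open MvPolynomial Seed

theorem evalAt_plucker {k n : ℕ} (A : Matrix (Fin k) (Fin n) ℚ) (c : Fin k → Fin n) :
    evalAt A (plucker c) = (Matrix.of fun r m => A r (c m)).det := by
  unfold plucker evalAt
  rw [RingHom.map_det]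
  congr 1
  ext r m
  simp

namespace Seed

variable {V K K' : Type*} [Fintype V] [DecidableEq V] [Field K] [Field K']

/-- Image of a seed under a field homomorphism. -/
def map (Φ : K →+* K') (s : Seed V K) : Seed V K' := ⟨s.B, fun v => Φ (s.x v)⟩

theorem map_exch (Φ : K →+* K') (s : Seed V K) (k : V) :
    (s.map Φ).exch k = Φ (s.exch k) := by
  unfold exch map
  simp only [map_add, map_prod, map_pow]

theorem map_mutate (Φ : K →+* K') (s : Seed V K) (k : V) :
    (s.map Φ).mutate k = (s.mutate k).map Φ := by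
  unfold mutate
  rw [map_exch]
  unfold map
  congr 1
  funext v
  dsimp only
  by_cases h : v = k
  · subst h; simp
  · simp [Function.update_of_ne h]

theorem map_run (Φ : K →+* K') (L : List V) : ∀ s : Seed V K,
    (s.map Φ).run L = (s.run L).map Φ := by
  induction L with
  | nil => intro s; rfl
  | cons v L ih =>
    intro s
    change ((s.map Φ).mutate v).run L = ((s.mutate v).run L).map Φ
    rw [map_mutate, ih]

end Seed

section inv

variable {k n : ℕ}

/-- Rational polynomials in the entries of a `k × n` matrix. -/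
abbrev MatRingQ (k n : ℕ) := MvPolynomial (Fin k × Fin n) ℚ

/-- Inclusion of integer polynomials into rational ones. -/
noncomputable def iot (k n : ℕ) : MatRing k n →+* MatRingQ k n := map (Int.castRingHom ℚ)

theorem iot_inj (k n : ℕ) : Function.Injective (iot k n) :=
  map_injective _ (RingHom.injective_int _)

/-- Substitution `X ↦ g X`. -/
noncomputable def act (k n : ℕ) (g : Matrix (Fin k) (Fin k) ℚ) : MatRing k n →+* MatRingQ k n :=
  eval₂Hom ((C : ℚ →+* MatRingQ k n).comp (Int.castRingHom ℚ))
    fun p : Fin k × Fin n => ∑ s, C (g p.1 s) * X (s, p.2)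

/-- Substitution `X ↦ g X` on rational polynomials. -/
noncomputable def actQ (k n : ℕ) (g : Matrix (Fin k) (Fin k) ℚ) : MatRingQ k n →+* MatRingQ k n :=
  eval₂Hom (C : ℚ →+* MatRingQ k n) fun p : Fin k × Fin n => ∑ s, C (g p.1 s) * X (s, p.2)

theorem actQ_act (g h : Matrix (Fin k) (Fin k) ℚ) (hgh : g * h = 1) :
    (actQ k n h).comp (act k n g) = iot k n := by
  apply MvPolynomial.ringHom_ext
  · intro r
    simp [act, iot]
  · rintro ⟨r, c⟩
    simp only [RingHom.comp_apply, act, iot, actQ, coe_eval₂Hom, eval₂_X, map_X, map_sum, map_mul,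
      eval₂_C]
    have h1 : ∀ t : Fin k, ∑ s, g r s * h s t = if r = t then 1 else 0 := by
      intro t
      rw [← Matrix.mul_apply, hgh, Matrix.one_apply]
    simp only [Finset.mul_sum]
    rw [Finset.sum_comm]
    have h2 : ∀ t : Fin k, ∑ s, (C (g r s) : MatRingQ k n) * (C (h s t) * X (t, c))
        = if r = t then X (t, c) else 0 := by
      intro t
      have h3 : (if r = t then X (t, c) else 0 : MatRingQ k n) = C (if r = t then 1 else 0 : ℚ) * X (t, c) := by
        split_ifs <;> simp
      rw [h3, ← h1 t]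
      rw [map_sum, Finset.sum_mul]
      exact Finset.sum_congr rfl fun s _ => by rw [map_mul]; ring
    simp only [h2]
    simp

theorem act_inj (g h : Matrix (Fin k) (Fin k) ℚ) (hgh : g * h = 1) :
    Function.Injective (act k n g) := by
  have h1 := iot_inj k n
  rw [← actQ_act g h hgh, RingHom.coe_comp] at h1
  exact h1.of_comp

/-- Evaluation of rational polynomials at a matrix. -/
noncomputable def evalQ (A : Matrix (Fin k) (Fin n) ℚ) : MatRingQ k n →+* ℚ :=
  eval fun p => A p.1 p.2

theorem evalQ_iot (A : Matrix (Fin k) (Fin n) ℚ) (f : MatRing k n) :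
    evalQ A (iot k n f) = evalAt A f := by
  have : (evalQ A).comp (iot k n) = evalAt A := by
    apply MvPolynomial.ringHom_ext
    · intro r; simp [evalQ, iot, evalAt]
    · intro p; simp [evalQ, iot, evalAt]
  rw [← this]; rfl

theorem evalQ_act (g : Matrix (Fin k) (Fin k) ℚ) (A : Matrix (Fin k) (Fin n) ℚ)
    (f : MatRing k n) : evalQ A (act k n g f) = evalAt (g * A) f := by
  have : (evalQ A).comp (act k n g) = evalAt (g * A) := by
    apply MvPolynomial.ringHom_ext
    · intro r; simp [evalQ, act, evalAt]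
    · intro p; simp [evalQ, act, evalAt, Matrix.mul_apply]
  rw [← this]; rfl

theorem iot_C (m : ℤ) : iot k n (C m) = C (m : ℚ) := by
  simp [iot]

theorem clear_den (f : MatRingQ k n) :
    ∃ (N : ℤ) (f' : MatRing k n), N ≠ 0 ∧ iot k n f' = C (N : ℚ) * f := by
  induction f using MvPolynomial.induction_on with
  | C a =>
    refine ⟨a.den, C a.num, by exact_mod_cast a.den_nz, ?_⟩
    rw [iot_C, Int.cast_natCast, ← C_mul, mul_comm, Rat.mul_den_eq_num]
  | add p q hp hq =>
    obtain ⟨N, p', hN, hp'⟩ := hp
    obtain ⟨N', q', hN', hq'⟩ := hq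
    refine ⟨N * N', C N' * p' + C N * q', mul_ne_zero hN hN', ?_⟩
    rw [map_add, map_mul, map_mul, hp', hq', iot_C, iot_C, Int.cast_mul, C_mul]
    ring
  | mul_X p i hp =>
    obtain ⟨N, p', hN, hp'⟩ := hp
    refine ⟨N, p' * X i, hN, ?_⟩
    rw [map_mul, hp']
    simp only [iot, map_X]
    ring

theorem act_plucker (g : Matrix (Fin k) (Fin k) ℚ) (hg : g.det = 1) (c : Fin k → Fin n) :
    act k n g (plucker c) = iot k n (plucker c) := by
  unfold plucker
  rw [RingHom.map_det, RingHom.map_det]
  have h1 : (act k n g).mapMatrix (Matrix.of fun r m => (X (r, c m) : MatRing k n))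
      = (g.map (C : ℚ →+* MatRingQ k n)) *
        (iot k n).mapMatrix (Matrix.of fun r m => (X (r, c m) : MatRing k n)) := by
    ext1 r m
    rw [Matrix.mul_apply]
    simp [act, iot]
  rw [h1, Matrix.det_mul]
  have h2 : (g.map (C : ℚ →+* MatRingQ k n)).det = 1 := by
    have := RingHom.map_det (C : ℚ →+* MatRingQ k n) g
    rw [hg, map_one] at this
    exact this.symm
  rw [h2, one_mul]

theorem cluster_inv {l : ℕ} (g h : Matrix (Fin k) (Fin k) ℚ) (hg : g.det = 1) (hgh : g * h = 1)
    (A : Matrix (Fin k) (Fin (k + l)) ℚ) (z : MatField k (k + l))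
    (hz : IsClusterVariable k l z) (c : ℚ) (hc : Ev (evalAt (g * A)) z c) :
    Ev (evalAt A) z c := by
  obtain ⟨L, _, u, _, hzL⟩ := hz
  have hi1 : Function.Injective ((algebraMap (MatRingQ k (k + l)) (FractionRing (MatRingQ k (k + l)))).comp (iot k (k + l))) :=
    (IsFractionRing.injective (MatRingQ k (k + l)) (FractionRing (MatRingQ k (k + l)))).comp (iot_inj _ _)
  have hi2 : Function.Injective ((algebraMap (MatRingQ k (k + l)) (FractionRing (MatRingQ k (k + l)))).comp (act k (k + l) g)) :=
    (IsFractionRing.injective (MatRingQ k (k + l)) (FractionRing (MatRingQ k (k + l)))).comp (act_inj g h hgh)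
  set Φ1 : (MatField k (k + l)) →+* (FractionRing (MatRingQ k (k + l))) := IsFractionRing.lift hi1 with hΦ1
  set Φ2 : (MatField k (k + l)) →+* (FractionRing (MatRingQ k (k + l))) := IsFractionRing.lift hi2 with hΦ2
  have e1 : ∀ r : (MatRing k (k + l)), Φ1 (algebraMap (MatRing k (k + l)) (MatField k (k + l)) r) = algebraMap (MatRingQ k (k + l)) (FractionRing (MatRingQ k (k + l))) (iot k (k + l) r) := by
    intro r; rw [hΦ1, IsFractionRing.lift_algebraMap]; rfl
  have e2 : ∀ r : (MatRing k (k + l)), Φ2 (algebraMap (MatRing k (k + l)) (MatField k (k + l)) r) = algebraMap (MatRingQ k (k + l)) (FractionRing (MatRingQ k (k + l))) (act k (k + l) g r) := by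
    intro r; rw [hΦ2, IsFractionRing.lift_algebraMap]; rfl
  have hseed : (rectSeed k l).map Φ1 = (rectSeed k l).map Φ2 := by
    unfold Seed.map
    congr 1
    funext v
    change Φ1 (algebraMap (MatRing k (k + l)) (MatField k (k + l)) (plucker (rectCol v))) = Φ2 (algebraMap (MatRing k (k + l)) (MatField k (k + l)) (plucker (rectCol v)))
    rw [e1, e2, act_plucker g hg]
  have hzz : Φ1 z = Φ2 z := by
    have h1 := Seed.map_run Φ1 L (rectSeed k l)
    have h2 := Seed.map_run Φ2 L (rectSeed k l)
    rw [← hseed, h1] at h2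
    have := congrArg (fun s => Seed.x s u) h2
    rw [hzL]
    exact this
  obtain ⟨p, q, hq, hzq, hcq⟩ := hc
  obtain ⟨N, p', hN, hp'⟩ := clear_den (act k (k + l) g p)
  obtain ⟨N', q', hN', hq'⟩ := clear_den (act k (k + l) g q)
  have hNQ : (N : ℚ) ≠ 0 := by exact_mod_cast hN
  have hNQ' : (N' : ℚ) ≠ 0 := by exact_mod_cast hN'
  refine ⟨C N' * p', C N * q', ?_, ?_, ?_⟩
  · rw [← evalQ_iot, map_mul, hq', map_mul, map_mul, evalQ_act, iot_C]
    simp only [evalQ, eval_C]
    exact mul_ne_zero hNQ (mul_ne_zero hNQ' hq)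
  · apply Φ1.injective
    rw [map_mul, e1, e1, hzz, map_mul (iot k (k + l)), map_mul (iot k (k + l)), hp', hq',
      iot_C, iot_C]
    have h3 : Φ2 z * algebraMap (MatRingQ k (k + l)) (FractionRing (MatRingQ k (k + l))) (act k (k + l) g q)
        = algebraMap (MatRingQ k (k + l)) (FractionRing (MatRingQ k (k + l))) (act k (k + l) g p) := by
      rw [← e2, ← e2, ← map_mul, hzq]
    simp only [map_mul]
    rw [← h3]
    ring
  · rw [← evalQ_iot, ← evalQ_iot, map_mul (iot k (k + l)), map_mul (iot k (k + l)), hp', hq',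
      iot_C, iot_C]
    simp only [map_mul, evalQ_act]
    simp only [evalQ, eval_C]
    rw [← hcq]
    ring

end inv

end Pool.Agent.helper36
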