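import Mathlib
import Pool.Agent.helper36.GrassInt
import Pool.Agent.helper36.SLInv
import Pool.Agent.helper36.FriezeDict

/-!
The matrix of a tame `SL_k`-frieze and integrality of the values of cluster variables.
-/

set_option linter.unusedSectionVars false

namespace Pool.Agent.helper36

/-- The `k × n` window of a bi-infinite matrix with top left corner `(a, b)`. -/
def window (M : ℤ → ℤ → ℚ) (k n : ℕ) (a b : ℤ) : Matrix (Fin k) (Fin n) ℚ :=
  Matrix.of fun r c => M (a + (r : ℕ)) (b + (c : ℕ))

variable {k w : ℕ} {M : ℤ → ℤ → ℚ}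

theorem finRotate_pow_val (m : ℕ) (g : ℕ) (i : Fin (m + 1)) :
    ((((finRotate (m + 1)) ^ g) i : Fin (m + 1)) : ℕ) = (i.1 + g) % (m + 1) := by
  induction g with
  | zero => simp [Nat.mod_eq_of_lt i.2]
  | succ g ih =>
    rw [pow_succ', Equiv.Perm.mul_apply, finRotate_apply, Fin.val_add, ih]
    rw [← add_assoc, Nat.add_mod (i.1 + g) 1 (m + 1)]
    rcases m with _ | m
    · simp [Nat.mod_one]
    · simp

theorem colIdx_cyc (hk : 2 ≤ k) (hM : IsTameFrieze k w M) (a b : ℤ) (g : ℕ) (hg : g ≤ k) :
    (Matrix.of fun r m : Fin k => M (a + r)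
      (b + ((if m.1 + g < k then m.1 else m.1 + (w + 1) : ℕ) : ℤ))).det = 1 := by
  obtain ⟨m', rfl⟩ : ∃ m', k = m' + 1 := ⟨k - 1, by omega⟩
  set ε : ℚ := (-1) ^ m' with hε
  have hεε : ε * ε = 1 := by rw [hε, ← mul_pow]; simp
  have h1 : (Matrix.of fun r m : Fin (m' + 1) => M (a + r)
      (b + ((if m.1 + g < m' + 1 then m.1 else m.1 + (w + 1) : ℕ) : ℤ)))
      = Matrix.of fun r m : Fin (m' + 1) => (if m.1 + g < m' + 1 then 1 else ε) *
        ((Matrix.of fun r m : Fin (m' + 1) => M (a + r) (b - g + m)).submatrix id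
          (((finRotate (m' + 1)) ^ g : Equiv.Perm (Fin (m' + 1))))) r m := by
    ext r m
    simp only [Matrix.of_apply, Matrix.submatrix_apply, id]
    rw [finRotate_pow_val]
    have hm := m.2
    by_cases h : m.1 + g < m' + 1
    · rw [if_pos h, if_pos h, one_mul, Nat.mod_eq_of_lt h]
      congr 1
      push_cast; ring
    · rw [if_neg h, if_neg h]
      have h2 : (m.1 + g) % (m' + 1) = m.1 + g - (m' + 1) := by
        rw [Nat.mod_eq_sub_mod (by omega), Nat.mod_eq_of_lt (by omega)]
      have h3 := antiperiodic hk hM (a + r) (b - g + ((m.1 + g - (m' + 1) : ℕ) : ℤ))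
      rw [Nat.add_sub_cancel] at h3
      rw [h2, ← h3]
      congr 1
      push_cast [Nat.cast_sub (show m' + 1 ≤ m.1 + g by omega)]
      ring
  rw [h1, Matrix.det_mul_row, Matrix.det_permute']
  have h4 : (Matrix.of fun r m : Fin (m' + 1) => M (a + r) (b - g + m)).det = 1 :=
    hM.minor_one a (b - g)
  rw [h4, mul_one, map_pow, sign_finRotate]
  have h5 : ∏ m : Fin (m' + 1), (if m.1 + g < m' + 1 then 1 else ε) = ε ^ g := by
    rw [Fin.prod_univ_eq_prod_range (fun m => if m + g < m' + 1 then 1 else ε) (m' + 1),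
      Finset.prod_ite, Finset.prod_const_one, one_mul, Finset.prod_const]
    congr 1
    have : (Finset.range (m' + 1)).filter (fun m => ¬ m + g < m' + 1)
        = Finset.Ico (m' + 1 - g) (m' + 1) := by
      ext m
      simp only [Finset.mem_filter, Finset.mem_range, Finset.mem_Ico]
      omega
    rw [this, Nat.card_Ico]
    omega
  rw [h5]
  push_cast
  rw [← hε, ← mul_pow, hεε, one_pow]

/-- All frozen Plücker coordinates of the window of a tame frieze are equal to `1`. -/
theorem frozen_one (hk : 2 ≤ k) (hM : IsTameFrieze k w M) (a b : ℤ)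
    (v : RectVertex k (w + 1)) (hv : ¬ RectMutable v) :
    (Matrix.of fun r m => window M k (k + (w + 1)) a b r (rectCol v m)).det = 1 := by
  rcases v with _ | ⟨i, j⟩
  · exact hM.minor_one a b
  · have hi := i.2
    have hj := j.2
    by_cases h : i.1 + 1 = k
    · have := hM.minor_one a (b + (j.1 + 1))
      rw [← this]
      unfold adjMinor
      congr 1
      ext r m
      simp only [window, Matrix.of_apply, rectCol]
      rw [if_neg (by omega)]
      congr 1
      push_cast; ring
    · have hj' : j.1 + 1 = w + 1 := by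
        by_contra h'
        apply hv
        constructor <;> omega
      have := colIdx_cyc hk hM a b (i.1 + 1) (by omega)
      rw [← this]
      congr 1
      ext r m
      simp only [window, Matrix.of_apply, rectCol]
      split_ifs with h1
      · rfl
      · congr 1
        dsimp only
        push_cast
        omega

/-- Every cluster variable takes an integer value at every tame frieze with integer values. -/
theorem frieze_cluster_int (hk : 2 ≤ k) (hM : IsTameFrieze k w M)
    (hint : ∀ i j : ℤ, 0 ≤ j - i → j - i ≤ w - 1 → ∃ m : ℤ, M i j = m) (a b : ℤ)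
    (A : Matrix (Fin k) (Fin (k + (w + 1))) ℚ)
    (hA : ∃ g : Matrix (Fin k) (Fin k) ℚ, g.det = 1 ∧ window M k (k + (w + 1)) a b = g * A)
    (z : MatField k (k + (w + 1))) (hz : IsClusterVariable k (w + 1) z) :
    ∃ c : ℤ, Ev (evalAt A) z (c : ℚ) ∧ ∀ c' : ℚ, Ev (evalAt A) z c' → c' = c := by
  obtain ⟨g, hg, hgA⟩ := hA
  choose f hf using all_integer hk hM hint
  have hfr : ∀ v : RectVertex k (w + 1), ¬ RectMutable v →
      IsUnit (Matrix.det (Matrix.of fun r m : Fin k =>
        (fun (r : Fin k) (c : Fin (k + (w + 1))) => f (a + (r : ℕ)) (b + (c : ℕ))) r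
          (rectCol v m))) := by
    intro v hv
    have h1 := frozen_one hk hM a b v hv
    have h2 : Matrix.det (Matrix.of fun r m : Fin k =>
        (fun (r : Fin k) (c : Fin (k + (w + 1))) => f (a + (r : ℕ)) (b + (c : ℕ))) r
          (rectCol v m)) = 1 := by
      have h3 := RingHom.map_det (Int.castRingHom ℚ) (Matrix.of fun r m : Fin k =>
        (fun (r : Fin k) (c : Fin (k + (w + 1))) => f (a + (r : ℕ)) (b + (c : ℕ))) r
          (rectCol v m))
      have h4 : (Int.castRingHom ℚ).mapMatrix (Matrix.of fun r m : Fin k =>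
        (fun (r : Fin k) (c : Fin (k + (w + 1))) => f (a + (r : ℕ)) (b + (c : ℕ))) r
          (rectCol v m)) = Matrix.of fun r m =>
            window M k (k + (w + 1)) a b r (rectCol v m) := by
        ext r m
        simp [window, hf]
      rw [h4, h1] at h3
      have h5 : ((Matrix.det (Matrix.of fun r m : Fin k =>
        (fun (r : Fin k) (c : Fin (k + (w + 1))) => f (a + (r : ℕ)) (b + (c : ℕ))) r
          (rectCol v m)) : ℤ) : ℚ) = 1 := h3
      exact_mod_cast h5
    rw [h2]
    exact isUnit_one
  obtain ⟨c, hc⟩ := cluster_int (by omega) (fun (r : Fin k) (c : Fin (k + (w + 1))) =>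
    f (a + (r : ℕ)) (b + (c : ℕ))) hfr z hz
  have hc' : Ev (evalAt (window M k (k + (w + 1)) a b)) z (c : ℚ) := by
    have : evalAt (window M k (k + (w + 1)) a b) =
      MvPolynomial.eval₂Hom (Int.castRingHom ℚ) fun p : Fin k × Fin (k + (w + 1)) =>
        (((fun (r : Fin k) (c : Fin (k + (w + 1))) => f (a + (r : ℕ)) (b + (c : ℕ))) p.1 p.2 : ℤ)
          : ℚ) := by
      unfold evalAt
      congr 1
      funext p
      simp [window, hf]
    rw [this]
    exact hc
  rw [hgA] at hc'
  have hu : IsUnit g.det := by rw [hg]; exact isUnit_one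
  have hc2 : Ev (evalAt A) z (c : ℚ) :=
    cluster_inv g g⁻¹ hg (Matrix.mul_nonsing_inv _ hu) A z hz c hc'
  exact ⟨c, hc2, fun c' h' => h'.unique hc2⟩

/-- The window of a tame frieze corresponds to the frieze. -/
theorem corresponds_window (hk : 2 ≤ k) (hM : IsTameFrieze k w M) :
    Corresponds (window M k (k + (w + 1)) 0 0) M := by
  refine ⟨colv M k 0, ?_, ?_, ?_⟩
  · intro c r
    simp [colv, window]
  · intro c
    have := colv_antiperiodic hk hM 0 c
    rw [← this]
    congr 1
  · intro i j
    rw [← entry_eq (by omega) hM 0 i j]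
    rfl

/-- A matrix corresponding to a tame frieze agrees with its window up to `SL_k`. -/
theorem corresponds_window_eq (hk : 2 ≤ k) (hM : IsTameFrieze k w M)
    (A : Matrix (Fin k) (Fin (k + (w + 1))) ℚ) (hA : Corresponds A M) :
    ∃ g : Matrix (Fin k) (Fin k) ℚ, g.det = 1 ∧ window M k (k + (w + 1)) 0 0 = g * A := by
  obtain ⟨C, hC, -, hdet⟩ := hA
  obtain ⟨m', rfl⟩ : ∃ m', k = m' + 1 := ⟨k - 1, by omega⟩
  set g : Matrix (Fin (m' + 1)) (Fin (m' + 1)) ℚ := Matrix.of fun r s =>
    (-1) ^ (s.1 + (Fin.last m').1) *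
      ((Matrix.of fun s' m : Fin (m' + 1) => C (((r.1 : ℕ) : ℤ) - ((m' + 1 : ℕ) : ℤ) + m.1) s').submatrix
        s.succAbove (Fin.last m').succAbove).det with hg
  have key : ∀ (r : Fin (m' + 1)) (j : ℤ), M r.1 j = ∑ s, g r s * C j s := by
    intro r j
    rw [hdet, Matrix.det_succ_column _ (Fin.last m')]
    apply Finset.sum_congr rfl
    intro s _
    rw [hg, Matrix.of_apply, Matrix.of_apply, if_neg (by simp)]
    have : (Matrix.of fun s' m : Fin (m' + 1) => C (if m.1 + 1 < m' + 1 then
          ((r.1 : ℕ) : ℤ) - ((m' + 1 : ℕ) : ℤ) + m.1 else j) s').submatrix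
        s.succAbove (Fin.last m').succAbove
        = (Matrix.of fun s' m : Fin (m' + 1) => C (((r.1 : ℕ) : ℤ) - ((m' + 1 : ℕ) : ℤ) + m.1) s').submatrix
        s.succAbove (Fin.last m').succAbove := by
      ext s' m
      rw [Matrix.submatrix_apply, Matrix.submatrix_apply, Matrix.of_apply, Matrix.of_apply,
        Fin.succAbove_last, if_pos (by simp)]
    rw [this]
    ring
  refine ⟨g, ?_, ?_⟩
  · have h1 := hM.minor_one 0 0
    unfold adjMinor at h1
    have h2 : (Matrix.of fun i j : Fin (m' + 1) => M (0 + ((i : ℕ) : ℤ)) (0 + ((j : ℕ) : ℤ)))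
        = g * (Matrix.of fun s m : Fin (m' + 1) => C ((m : ℕ) : ℤ) s) := by
      ext r m
      rw [Matrix.mul_apply, Matrix.of_apply, zero_add, zero_add, key]
      rfl
    have h3 : (Matrix.of fun s m : Fin (m' + 1) => C ((m : ℕ) : ℤ) s).det = 1 := by
      have h4 := hM.one_left (m' + 1) m' (by ring)
      rw [hdet] at h4
      rw [← h4]
      congr 1
      ext s m
      rw [Matrix.of_apply, Matrix.of_apply]
      congr 1
      have := m.2
      split_ifs with h
      · push_cast; ring
      · omega
    rw [h2, Matrix.det_mul, h3, mul_one] at h1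
    exact h1
  · ext r c
    rw [Matrix.mul_apply]
    simp only [window, Matrix.of_apply, zero_add]
    rw [key]
    exact Finset.sum_congr rfl fun s _ => by rw [← hC c s]

end Pool.Agent.helper36
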